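import Mathlib

open scoped InnerProductSpace

namespace Pool.Agent.CLR3

/-- Abstract spectral gap: a nonnegative form on `K` which on an increasing chain of subspaces `U n`
is given by operators acting as `n (n + 1)` on `U (n + 1) / U n`. -/
theorem abstract_gap {K H ι : Type*} [AddCommGroup K] [Module ℝ K] [NormedAddCommGroup H]
    [InnerProductSpace ℝ H] [Fintype ι] (T : K →ₗ[ℝ] H) (S : ι → K →ₗ[ℝ] H)
    (U : ℕ → Submodule ℝ K) (hU : Monotone U) (h0 : U 0 = ⊥)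
    [∀ n, FiniteDimensional ℝ ((U n).map T)]
    (hs : ∀ n, ∀ p ∈ U (n + 1), ∃ p' ∈ U (n + 1), (∀ F, ∑ k, ⟪S k F, S k p⟫_ℝ = ⟪T F, T p'⟫_ℝ) ∧
      p' - ((n : ℝ) * (n + 1)) • p ∈ U n)
    (hd : ∀ F, ∀ ε > 0, ∃ n, ∃ p ∈ U n, ‖T F - T p‖ < ε) (J : ℕ) (F : K) :
    ((J : ℝ) * (J + 1)) * ‖T F - ((U J).map T).starProjection (T F)‖ ^ 2 ≤
      ∑ k, ⟪S k F, S k F⟫_ℝ := by
  classical
  -- decomposition
  have dec : ∀ n, ∀ F : K, ∃ p ∈ U n, (∀ q ∈ U n, ⟪T (F - p), T q⟫_ℝ = 0) ∧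
      T p = ((U n).map T).starProjection (T F) := by
    intro n F
    have h1 : ((U n).map T).starProjection (T F) ∈ (U n).map T :=
      Submodule.starProjection_apply_mem _ _
    obtain ⟨p, hp, hp'⟩ := h1
    refine ⟨p, hp, fun q hq => ?_, hp'⟩
    rw [map_sub, hp']
    exact Submodule.starProjection_inner_eq_zero _ _ ⟨q, hq, rfl⟩
  -- sharp for any n
  have shp : ∀ n, ∀ p ∈ U n, ∃ p' ∈ U n, (∀ F, ∑ k, ⟪S k F, S k p⟫_ℝ = ⟪T F, T p'⟫_ℝ) := by
    intro n p hp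
    cases n with
    | zero =>
      rw [h0, Submodule.mem_bot] at hp
      subst hp
      exact ⟨0, Submodule.zero_mem _, fun F => by simp⟩
    | succ n =>
      obtain ⟨p', h1, h2, _⟩ := hs n p hp
      exact ⟨p', h1, h2⟩
  have hcross : ∀ n, ∀ p ∈ U n, ∀ G : K, (∀ q ∈ U n, ⟪T G, T q⟫_ℝ = 0) →
      ∑ k, ⟪S k (p + G), S k (p + G)⟫_ℝ =
        ∑ k, ⟪S k p, S k p⟫_ℝ + ∑ k, ⟪S k G, S k G⟫_ℝ := by
    intro n p hp G hG
    obtain ⟨p', h1, h2⟩ := shp n p hp
    have h3 : ∑ k, ⟪S k G, S k p⟫_ℝ = 0 := by rw [h2 G]; exact hG p' h1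
    have h4 : ∀ k, ⟪S k (p + G), S k (p + G)⟫_ℝ =
        ⟪S k p, S k p⟫_ℝ + ⟪S k G, S k G⟫_ℝ + 2 * ⟪S k G, S k p⟫_ℝ := by
      intro k
      rw [map_add, inner_add_left, inner_add_right, inner_add_right,
        real_inner_comm (S k p) (S k G)]
      ring
    rw [Finset.sum_congr rfl (fun k _ => h4 k), Finset.sum_add_distrib, Finset.sum_add_distrib,
      ← Finset.mul_sum, h3]
    ring
  have hsplit : ∀ n, J ≤ n → ∀ p ∈ U n, ∀ G : K, (∀ q ∈ U n, ⟪T G, T q⟫_ℝ = 0) →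
      ‖T (p + G) - ((U J).map T).starProjection (T (p + G))‖ ^ 2 =
        ‖T p - ((U J).map T).starProjection (T p)‖ ^ 2 + ‖T G‖ ^ 2 := by
    intro n hn p hp G hG
    have h1 : ((U J).map T).starProjection (T G) = 0 := by
      rw [Submodule.starProjection_apply_eq_zero_iff, Submodule.mem_orthogonal]
      rintro _ ⟨q, hq, rfl⟩
      rw [real_inner_comm]
      exact hG q (hU hn hq)
    obtain ⟨r, hr, _, hr'⟩ := dec J p
    have h2 : ⟪T p - ((U J).map T).starProjection (T p), T G⟫_ℝ = 0 := by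
      rw [← hr', ← map_sub, real_inner_comm]
      exact hG _ (Submodule.sub_mem _ hp (hU hn hr))
    rw [map_add, map_add, h1, add_zero, add_sub_right_comm, pow_two, pow_two, pow_two]
    exact norm_add_sq_eq_norm_sq_add_norm_sq_of_inner_eq_zero _ _ h2
  have main : ∀ n, J ≤ n → ∀ p ∈ U n,
      ((J : ℝ) * (J + 1)) * ‖T p - ((U J).map T).starProjection (T p)‖ ^ 2 ≤
        ∑ k, ⟪S k p, S k p⟫_ℝ := by
    intro n hn
    induction n, hn using Nat.le_induction with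
    | base =>
      intro p hp
      have : ((U J).map T).starProjection (T p) = T p :=
        Submodule.starProjection_eq_self_iff.2 ⟨p, hp, rfl⟩
      rw [this, sub_self, norm_zero]
      have : 0 ≤ ∑ k, ⟪S k p, S k p⟫_ℝ := Finset.sum_nonneg fun k _ => real_inner_self_nonneg
      simpa using this
    | succ n hn ih =>
      intro p hp
      obtain ⟨r, hr, hro, _⟩ := dec n p
      have hq : p - r ∈ U (n + 1) := Submodule.sub_mem _ hp (hU n.le_succ hr)
      obtain ⟨q', hq', hq1, hq2⟩ := hs n _ hq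
      have h1 : ∑ k, ⟪S k (p - r), S k (p - r)⟫_ℝ = ((n : ℝ) * (n + 1)) * ‖T (p - r)‖ ^ 2 := by
        rw [hq1 (p - r)]
        have h2 : q' = ((n : ℝ) * (n + 1)) • (p - r) + (q' - ((n : ℝ) * (n + 1)) • (p - r)) := by
          abel
        rw [h2, map_add, inner_add_right, hro _ hq2, add_zero, map_smul, inner_smul_right,
          real_inner_self_eq_norm_sq]
      have h3 := hcross n r hr (p - r) hro
      have h4 := hsplit n hn r hr (p - r) hro
      rw [add_sub_cancel] at h3 h4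
      rw [h3, h4, h1]
      have h5 := ih r hr
      have h6 : ((J : ℝ) * (J + 1)) * ‖T (p - r)‖ ^ 2 ≤ ((n : ℝ) * (n + 1)) * ‖T (p - r)‖ ^ 2 := by
        have : (J : ℝ) ≤ n := by exact_mod_cast hn
        have hJ : (0 : ℝ) ≤ J := Nat.cast_nonneg _
        apply mul_le_mul_of_nonneg_right _ (sq_nonneg _)
        nlinarith
      nlinarith
  -- conclusion
  by_contra hcon
  push Not at hcon
  set A := ((J : ℝ) * (J + 1)) with hA
  have hA0 : 0 ≤ A := by positivity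
  set R := A * ‖T F - ((U J).map T).starProjection (T F)‖ ^ 2 - ∑ k, ⟪S k F, S k F⟫_ℝ with hR
  have hR0 : 0 < R := by rw [hR]; linarith
  obtain ⟨n, p, hp, hpd⟩ := hd F (Real.sqrt (R / (A + 1))) (Real.sqrt_pos.2 (by positivity))
  -- go to m = max n J
  obtain ⟨r, hr, hro, hr'⟩ := dec (max n J) F
  have hp2 : p ∈ U (max n J) := hU (le_max_left _ _) hp
  have h1 : ‖T (F - r)‖ ≤ ‖T F - T p‖ := by
    have h2 : ⟪T (F - r), T (r - p)⟫_ℝ = 0 := hro _ (Submodule.sub_mem _ hr hp2)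
    have h3 : T F - T p = T (F - r) + T (r - p) := by simp
    have h4 := norm_add_sq_eq_norm_sq_add_norm_sq_of_inner_eq_zero _ _ h2
    rw [h3]
    nlinarith [norm_nonneg (T (F - r)), norm_nonneg (T (r - p)),
      norm_nonneg (T (F - r) + T (r - p))]
  have h2 : ‖T (F - r)‖ ^ 2 < R / (A + 1) := by
    have h3 : ‖T (F - r)‖ < Real.sqrt (R / (A + 1)) := lt_of_le_of_lt h1 hpd
    have h4 := Real.sq_sqrt (le_of_lt (show 0 < R / (A + 1) by positivity))
    nlinarith [norm_nonneg (T (F - r)), Real.sqrt_nonneg (R / (A + 1))]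
  have h3 := hcross (max n J) r hr (F - r) hro
  have h4 := hsplit (max n J) (le_max_right _ _) r hr (F - r) hro
  rw [add_sub_cancel] at h3 h4
  have h5 := main (max n J) (le_max_right _ _) r hr
  have h6 : 0 ≤ ∑ k, ⟪S k (F - r), S k (F - r)⟫_ℝ :=
    Finset.sum_nonneg fun k _ => real_inner_self_nonneg
  have h7 : A * ‖T (F - r)‖ ^ 2 < R := by
    have h8 : (A + 1) * ‖T (F - r)‖ ^ 2 < R := by
      rwa [lt_div_iff₀' (by positivity)] at h2
    nlinarith [sq_nonneg ‖T (F - r)‖]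
  rw [hR, h3, h4] at h7
  nlinarith

end Pool.Agent.CLR3
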