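import Pool.Agent.CLR3.AngRot
import Pool.Agent.CLR3.AngAbs

open MeasureTheory Set Metric
open scoped InnerProductSpace

namespace Pool.Agent.CLR3

noncomputable section

instance : IsFiniteMeasure σ := by unfold σ; infer_instance

theorem lagr (g : E3 →L[ℝ] ℝ) (x : E3) :
    ∑ k : Fin 3, g (rotA k (k + 1) x) ^ 2 = ‖x‖ ^ 2 * ‖g‖ ^ 2 - (g x) ^ 2 := by
  obtain ⟨v, rfl⟩ := (InnerProductSpace.toDual ℝ E3).surjective g
  rw [LinearIsometryEquiv.norm_map]
  simp only [InnerProductSpace.toDual_apply_apply, rotA_apply, inner_sub_right, inner_smul_right,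
    EuclideanSpace.norm_sq_eq, PiLp.inner_apply,
    Fin.sum_univ_three, Real.norm_eq_abs, sq_abs]
  simp
  ring

theorem lagr_two (a x : E3) :
    ∑ k : Fin 3, ⟪a, rotA k (k + 1) x⟫_ℝ ^ 2 = ‖x‖ ^ 2 * ‖a‖ ^ 2 - ⟪a, x⟫_ℝ ^ 2 := by
  have h := lagr (InnerProductSpace.toDual ℝ E3 a) x
  simpa using h

theorem rotA_rotA (a x : E3) :
    ∑ k : Fin 3, ⟪a, rotA k (k + 1) (rotA k (k + 1) x)⟫_ℝ = -2 * ⟪a, x⟫_ℝ := by
  simp only [rotA_apply, inner_sub_right, inner_smul_right, PiLp.inner_apply, PiLp.sub_apply, PiLp.smul_apply,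
    Fin.sum_univ_three]
  simp
  ring

/-- Integration by parts on the sphere. -/
theorem rot_parts (i j : Fin 3) (F G : E3 → ℝ) (hF : ContDiff ℝ 1 F) (hG : ContDiff ℝ 1 G) :
    ∫ ω : S2, fderiv ℝ F ω (rotA i j ω) * G ω ∂σ =
      -∫ ω : S2, F ω * fderiv ℝ G ω (rotA i j ω) ∂σ := by
  have h := int_rot i j (fun x => F x * G x) (hF.mul hG)
  have h1 : ∀ ω : S2, fderiv ℝ (fun x => F x * G x) ω (rotA i j ω) =
      F ω * fderiv ℝ G ω (rotA i j ω) + fderiv ℝ F ω (rotA i j ω) * G ω := by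
    intro ω
    rw [fderiv_fun_mul (hF.differentiable one_ne_zero _) (hG.differentiable one_ne_zero _)]
    simp [mul_comm]
  have hL : ∀ F : E3 → ℝ, ContDiff ℝ 1 F →
      Continuous (fun ω : S2 => fderiv ℝ F ω (rotA i j ω)) := fun F hF =>
    ((hF.continuous_fderiv one_ne_zero).comp continuous_subtype_val).clm_apply
      ((rotA i j).continuous.comp continuous_subtype_val)
  have hi : ∀ f : S2 → ℝ, Continuous f → Integrable f σ := fun f hf =>
    hf.integrable_of_hasCompactSupport (HasCompactSupport.of_compactSpace _)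
  simp only [h1] at h
  have h2 := integral_add (hi (fun ω : S2 => F ω * fderiv ℝ G ω (rotA i j ω))
      ((hF.continuous.comp continuous_subtype_val).mul (hL G hG)))
    (hi (fun ω : S2 => fderiv ℝ F ω (rotA i j ω) * G ω)
      ((hL F hF).mul (hG.continuous.comp continuous_subtype_val)))
  rw [h] at h2
  linarith

/-- Powers of linear functionals. -/
def pw (a : E3) (n : ℕ) (x : E3) : ℝ := ⟪a, x⟫_ℝ ^ n

theorem pw_contDiff (a : E3) (n : ℕ) : ContDiff ℝ 1 (pw a n) :=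
  (contDiff_const.inner ℝ contDiff_id).pow n

theorem pw_fderiv (a : E3) (n : ℕ) (x v : E3) :
    fderiv ℝ (pw a n) x v = n * pw a (n - 1) x * ⟪a, v⟫_ℝ := by
  have h1 : HasFDerivAt (fun x : E3 => ⟪a, x⟫_ℝ) (innerSL ℝ a) x := (innerSL ℝ a).hasFDerivAt
  have h2 := (h1.pow n).fderiv
  unfold pw
  rw [h2]
  simp

/-- The rotational Laplacian of a power of a linear functional, integrated. -/
theorem pw_parts (F : E3 → ℝ) (hF : ContDiff ℝ 1 F) (a : E3) (n : ℕ) :
    ∑ k : Fin 3, ∫ ω : S2, fderiv ℝ F ω (rotA k (k + 1) ω) *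
        fderiv ℝ (pw a n) ω (rotA k (k + 1) ω) ∂σ =
      ∫ ω : S2, F ω * (((n : ℝ) * (n + 1)) * pw a n ω -
        ((n : ℝ) * (n - 1)) * ‖a‖ ^ 2 * pw a (n - 2) ω) ∂σ := by
  have hi : ∀ f : S2 → ℝ, Continuous f → Integrable f σ := fun f hf =>
    hf.integrable_of_hasCompactSupport (HasCompactSupport.of_compactSpace _)
  have hA : ∀ k : Fin 3, ContDiff ℝ 1 (fun x : E3 => ⟪a, rotA k (k + 1) x⟫_ℝ) := fun k =>
    contDiff_const.inner ℝ (rotA k (k + 1)).contDiff
  have hG : ∀ k : Fin 3, ContDiff ℝ 1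
      (fun x : E3 => n * pw a (n - 1) x * ⟪a, rotA k (k + 1) x⟫_ℝ) := fun k =>
    (contDiff_const.mul (pw_contDiff a _)).mul (hA k)
  have hd : ∀ k : Fin 3, ∀ x : E3,
      fderiv ℝ (fun x : E3 => n * pw a (n - 1) x * ⟪a, rotA k (k + 1) x⟫_ℝ) x
        (rotA k (k + 1) x) =
      n * ((n - 1 : ℕ) * pw a (n - 1 - 1) x * ⟪a, rotA k (k + 1) x⟫_ℝ ^ 2 +
        pw a (n - 1) x * ⟪a, rotA k (k + 1) (rotA k (k + 1) x)⟫_ℝ) := by
    intro k x
    have h1 : HasFDerivAt (fun x : E3 => ⟪a, rotA k (k + 1) x⟫_ℝ)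
        ((innerSL ℝ a).comp (rotA k (k + 1))) x :=
      ((innerSL ℝ a).comp (rotA k (k + 1))).hasFDerivAt
    have h2 : HasFDerivAt (pw a (n - 1)) (fderiv ℝ (pw a (n - 1)) x) x :=
      ((pw_contDiff a (n - 1)).differentiable one_ne_zero x).hasFDerivAt
    have h3 := ((h2.const_mul (n : ℝ)).mul h1).fderiv
    have h4 : (fun x : E3 => n * pw a (n - 1) x * ⟪a, rotA k (k + 1) x⟫_ℝ) =
      (fun x : E3 => (n : ℝ) * pw a (n - 1) x) * (fun x : E3 => ⟪a, rotA k (k + 1) x⟫_ℝ) := rfl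
    rw [h4, h3]
    simp only [add_apply, smul_apply,
      ContinuousLinearMap.comp_apply, pw_fderiv, innerSL_apply_apply, smul_eq_mul]
    ring
  have h1 : ∀ k : Fin 3, ∫ ω : S2, fderiv ℝ F ω (rotA k (k + 1) ω) *
        fderiv ℝ (pw a n) ω (rotA k (k + 1) ω) ∂σ =
      -∫ ω : S2, F ω * (n * ((n - 1 : ℕ) * pw a (n - 1 - 1) ω * ⟪a, rotA k (k + 1) ω⟫_ℝ ^ 2 +
        pw a (n - 1) ω * ⟪a, rotA k (k + 1) (rotA k (k + 1) ω)⟫_ℝ)) ∂σ := by
    intro k
    have h := rot_parts k (k + 1) F _ hF (hG k)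
    simp only [hd] at h
    simp only [pw_fderiv]
    exact h
  rw [Finset.sum_congr rfl (fun k _ => h1 k), Finset.sum_neg_distrib, ← integral_finsetSum,
    ← integral_neg]
  · congr 1
    ext ω
    rw [← Finset.mul_sum, ← Finset.mul_sum, Finset.sum_add_distrib, ← Finset.mul_sum,
      ← Finset.mul_sum, lagr_two, rotA_rotA]
    have hω : ‖(ω : E3)‖ = 1 := by simp
    rw [hω]
    unfold pw
    rcases n with _ | _ | n
    · simp
    · norm_num
    · simp only [Nat.add_sub_cancel]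
      push_cast
      ring
  · intro k _
    apply hi
    have c1 : Continuous (fun ω : S2 => F ω) := hF.continuous.comp continuous_subtype_val
    have c2 : ∀ m, Continuous (fun ω : S2 => pw a m ω) := fun m =>
      (pw_contDiff a m).continuous.comp continuous_subtype_val
    have c3 : Continuous (fun ω : S2 => ⟪a, rotA k (k + 1) ω⟫_ℝ) :=
      (hA k).continuous.comp continuous_subtype_val
    have c4 : Continuous (fun ω : S2 => ⟪a, rotA k (k + 1) (rotA k (k + 1) ω)⟫_ℝ) :=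
      ((hA k).continuous.comp (rotA k (k + 1)).continuous).comp continuous_subtype_val
    exact c1.mul (continuous_const.mul (((continuous_const.mul (c2 _)).mul (c3.pow 2)).add
      ((c2 _).mul c4)))

end

end Pool.Agent.CLR3
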