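import Pool.Agent.CLR3.Defs

open MeasureTheory Set Metric
open scoped Pointwise

namespace Pool.Agent.CLR3

noncomputable section

/-- Linear isometries preserve the surface measure. -/
theorem sphere_mp (e : E3 ≃ₗᵢ[ℝ] E3) :
    MeasurePreserving (fun ω : S2 => (⟨e ω, by simp⟩ : S2)) σ σ := by
  have hc : Continuous (fun ω : S2 => (⟨e ω, by simp⟩ : S2)) := by fun_prop
  refine ⟨hc.measurable, ?_⟩
  ext s hs
  rw [Measure.map_apply hc.measurable hs]
  unfold σ
  rw [Measure.toSphere_apply' _ hs, Measure.toSphere_apply' _ (hc.measurable hs)]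
  have hv : ∀ t : Set E3, volume (e ⁻¹' t) = volume t := fun t =>
    (e.measurePreserving).measure_preimage_equiv (f := e.toHomeomorph.toMeasurableEquiv) t
  congr 1
  rw [← hv (Ioo (0 : ℝ) 1 • ((Subtype.val : S2 → E3) '' s))]
  congr 1
  ext x
  simp only [Set.mem_smul, mem_image, mem_preimage]
  constructor
  · rintro ⟨r, hr, y, ⟨ω, hω, rfl⟩, rfl⟩
    exact ⟨r, hr, e ω, ⟨_, hω, rfl⟩, by simp⟩
  · rintro ⟨r, hr, y, ⟨ω, hω, rfl⟩, h⟩
    refine ⟨r, hr, e.symm ω, ⟨⟨e.symm ω, by simp⟩, by simpa using hω, rfl⟩, ?_⟩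
    apply e.injective
    simpa using h

theorem sphere_integral_comp (e : E3 ≃ₗᵢ[ℝ] E3) (F : E3 → ℝ) (hF : Continuous F) :
    ∫ ω : S2, F (e ω) ∂σ = ∫ ω : S2, F ω ∂σ := by
  have h := sphere_mp e
  have h2 : ∫ ω : S2, F ω ∂σ =
      ∫ ω : S2, F ω ∂(Measure.map (fun ω : S2 => (⟨e ω, by simp⟩ : S2)) σ) := by
    rw [h.map_eq]
  rw [h2, integral_map h.aemeasurable]
  exact (hF.comp continuous_subtype_val).aestronglyMeasurable

/-- Infinitesimal rotation in the plane `i, j`. -/
def rotA (i j : Fin 3) : E3 →L[ℝ] E3 :=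
  (EuclideanSpace.proj i).smulRight (EuclideanSpace.single j (1 : ℝ)) -
    (EuclideanSpace.proj j).smulRight (EuclideanSpace.single i (1 : ℝ))

theorem rotA_apply (i j : Fin 3) (x : E3) :
    rotA i j x = x i • EuclideanSpace.single j (1 : ℝ) - x j • EuclideanSpace.single i (1 : ℝ) := by
  simp [rotA]

/-- Rotation in the plane `i, j`. -/
def rotR (i j : Fin 3) (s : ℝ) (x : E3) : E3 :=
  x + ((Real.cos s - 1) * x i - Real.sin s * x j) • EuclideanSpace.single i (1 : ℝ) +
    (Real.sin s * x i + (Real.cos s - 1) * x j) • EuclideanSpace.single j (1 : ℝ)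

theorem rotR_apply_i {i j : Fin 3} (hij : i ≠ j) (s : ℝ) (x : E3) :
    rotR i j s x i = Real.cos s * x i - Real.sin s * x j := by
  simp [rotR, hij]
  try ring

theorem rotR_apply_j {i j : Fin 3} (hij : i ≠ j) (s : ℝ) (x : E3) :
    rotR i j s x j = Real.sin s * x i + Real.cos s * x j := by
  simp [rotR, hij.symm]
  try ring

theorem norm_rotR {i j : Fin 3} (hij : i ≠ j) (s : ℝ) (x : E3) : ‖rotR i j s x‖ = ‖x‖ := by
  have h := Real.sin_sq_add_cos_sq s
  have h2 : ‖rotR i j s x‖ ^ 2 = ‖x‖ ^ 2 := by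
    unfold rotR
    rw [EuclideanSpace.norm_sq_eq, EuclideanSpace.norm_sq_eq, Fin.sum_univ_three,
      Fin.sum_univ_three]
    fin_cases i <;> fin_cases j <;> simp at hij ⊢ <;> nlinarith
  exact (pow_left_inj₀ (norm_nonneg _) (norm_nonneg _) two_ne_zero).1 h2

/-- The rotation as a linear isometry equivalence. -/
def rotE {i j : Fin 3} (hij : i ≠ j) (s : ℝ) : E3 ≃ₗᵢ[ℝ] E3 :=
  LinearIsometry.toLinearIsometryEquiv
    { toFun := rotR i j s
      map_add' := fun x y => by
        simp only [rotR, PiLp.add_apply]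
        module
      map_smul' := fun c x => by
        simp only [rotR, PiLp.smul_apply, smul_eq_mul, RingHom.id_apply]
        module
      norm_map' := norm_rotR hij s } rfl

theorem rotE_apply {i j : Fin 3} (hij : i ≠ j) (s : ℝ) (x : E3) : rotE hij s x = rotR i j s x := rfl

theorem hasDerivAt_rotR {i j : Fin 3} (hij : i ≠ j) (x : E3) (s : ℝ) :
    HasDerivAt (fun s => rotR i j s x) (rotA i j (rotR i j s x)) s := by
  have h1 : HasDerivAt (fun s => (Real.cos s - 1) * x i - Real.sin s * x j)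
      (-Real.sin s * x i - Real.cos s * x j) s :=
    (((Real.hasDerivAt_cos s).sub_const 1).mul_const _).sub ((Real.hasDerivAt_sin s).mul_const _)
  have h2 : HasDerivAt (fun s => Real.sin s * x i + (Real.cos s - 1) * x j)
      (Real.cos s * x i + -Real.sin s * x j) s :=
    ((Real.hasDerivAt_sin s).mul_const _).add (((Real.hasDerivAt_cos s).sub_const 1).mul_const _)
  have h3 := ((hasDerivAt_const s x).add (h1.smul_const (EuclideanSpace.single i (1 : ℝ)))).add
    (h2.smul_const (EuclideanSpace.single j (1 : ℝ)))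
  refine (h3.congr_deriv ?_)
  rw [rotA_apply, rotR_apply_i hij, rotR_apply_j hij]
  module

/-- The integral of a rotational derivative over the sphere is zero. -/
theorem int_rot (i j : Fin 3) (F : E3 → ℝ) (hF : ContDiff ℝ 1 F) :
    ∫ ω : S2, fderiv ℝ F ω (rotA i j ω) ∂σ = 0 := by
  by_cases hij : i = j
  · subst hij
    have : ∀ x : E3, rotA i i x = 0 := fun x => by rw [rotA_apply, sub_self]
    simp [this]
  have hL : Continuous (fun x : E3 => fderiv ℝ F x (rotA i j x)) :=
    (hF.continuous_fderiv one_ne_zero).clm_apply (rotA i j).continuous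
  obtain ⟨C, hC⟩ := (isCompact_sphere (0 : E3) 1).exists_bound_of_continuousOn hL.continuousOn
  have hmem : ∀ (s : ℝ) (ω : S2), rotR i j s ω ∈ sphere (0 : E3) 1 := by
    intro s ω
    rw [mem_sphere_zero_iff_norm, norm_rotR hij]
    simp
  have : IsFiniteMeasure σ := by unfold σ; infer_instance
  have hfun : ∀ s : ℝ, Continuous (fun ω : S2 => F (rotR i j s ω)) := fun s =>
    hF.continuous.comp ((rotE hij s).continuous.comp continuous_subtype_val)
  have key := hasDerivAt_integral_of_dominated_loc_of_deriv_le (μ := σ) (𝕜 := ℝ)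
    (F := fun s (ω : S2) => F (rotR i j s ω)) (x₀ := 0) (s := univ) (bound := fun _ => C)
    (F' := fun s (ω : S2) => fderiv ℝ F (rotR i j s ω) (rotA i j (rotR i j s ω)))
    Filter.univ_mem
    (Filter.Eventually.of_forall fun s => (hfun s).aestronglyMeasurable)
    ?_ ?_ ?_ (integrable_const C) ?_
  · have h0 : ∀ s : ℝ, ∫ ω : S2, F (rotR i j s ω) ∂σ = ∫ ω : S2, F ω ∂σ := fun s =>
      sphere_integral_comp (rotE hij s) F hF.continuous
    have h1 := key.2
    simp only [h0] at h1
    have h2 := h1.unique (hasDerivAt_const (0 : ℝ) (∫ ω : S2, F ω ∂σ))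
    have h3 : ∀ ω : S2, rotR i j 0 (ω : E3) = ω := fun ω => by simp [rotR]
    simpa [h3] using h2
  · exact (hfun 0).integrable_of_hasCompactSupport (HasCompactSupport.of_compactSpace _)
  · exact ((hL.comp ((rotE hij 0).continuous.comp continuous_subtype_val))).aestronglyMeasurable
  · exact Filter.Eventually.of_forall fun ω s _ => hC _ (hmem s ω)
  · refine Filter.Eventually.of_forall fun ω s _ => ?_
    exact ((hF.differentiable one_ne_zero).differentiableAt.hasFDerivAt).comp_hasDerivAt s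
      (hasDerivAt_rotR hij _ s)

end

end Pool.Agent.CLR3
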