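import Pool.Agent.CLR3.AngGeo

open MeasureTheory Set Metric
open scoped InnerProductSpace

namespace Pool.Agent.CLR3

noncomputable section

/-- Continuously differentiable functions. -/
def KK : Submodule ℝ (E3 → ℝ) where
  carrier := {F | ContDiff ℝ 1 F}
  add_mem' := fun {F G} h1 h2 => by
    have h1' : ContDiff ℝ 1 F := h1
    have h2' : ContDiff ℝ 1 G := h2
    exact h1'.add h2'
  zero_mem' := by
    change ContDiff ℝ 1 (fun _ : E3 => (0 : ℝ))
    exact contDiff_const
  smul_mem' := fun c F h => by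
    have h' : ContDiff ℝ 1 F := h
    exact h'.const_smul c

/-- Restriction to the sphere. -/
def TC : KK →ₗ[ℝ] C(S2, ℝ) where
  toFun F := ⟨fun ω => (F : E3 → ℝ) ω, (show ContDiff ℝ 1 (F : E3 → ℝ) from F.2).continuous.comp
    continuous_subtype_val⟩
  map_add' _ _ := rfl
  map_smul' _ _ := rfl

/-- Rotational derivatives on the sphere. -/
def SC (k : Fin 3) : KK →ₗ[ℝ] C(S2, ℝ) where
  toFun F := ⟨fun ω => fderiv ℝ (F : E3 → ℝ) ω (rotA k (k + 1) ω),
    (((show ContDiff ℝ 1 (F : E3 → ℝ) from F.2).continuous_fderiv one_ne_zero).comp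
      continuous_subtype_val).clm_apply ((rotA k (k + 1)).continuous.comp continuous_subtype_val)⟩
  map_add' F G := by
    ext ω
    have hF : ContDiff ℝ 1 (F : E3 → ℝ) := F.2
    have hG : ContDiff ℝ 1 (G : E3 → ℝ) := G.2
    simp only [ContinuousMap.coe_mk, ContinuousMap.add_apply, Submodule.coe_add]
    rw [fderiv_add (hF.differentiable one_ne_zero _) (hG.differentiable one_ne_zero _)]
    rfl
  map_smul' c F := by
    ext ω
    have hF : ContDiff ℝ 1 (F : E3 → ℝ) := F.2
    simp only [ContinuousMap.coe_mk, ContinuousMap.smul_apply, Submodule.coe_smul, RingHom.id_apply]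
    rw [fderiv_const_smul (hF.differentiable one_ne_zero _)]
    rfl

/-- Embedding into the square integrable functions. -/
def emb : C(S2, ℝ) →L[ℝ] Lp ℝ 2 σ := ContinuousMap.toLp 2 σ ℝ

theorem inner_emb (f g : C(S2, ℝ)) : ⟪emb f, emb g⟫_ℝ = ∫ ω, f ω * g ω ∂σ := by
  have h := ContinuousMap.inner_toLp (𝕜 := ℝ) σ f g
  unfold emb
  rw [h]
  congr 1
  ext ω
  simp [mul_comm]

/-- Powers of linear functionals as elements of `KK`. -/
def pwK (a : E3) (n : ℕ) : KK := ⟨pw a n, pw_contDiff a n⟩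

/-- The chain of subspaces. -/
def UU (n : ℕ) : Submodule ℝ KK := Submodule.span ℝ {F | ∃ a, ∃ j < n, F = pwK a j}

theorem UU_mono : Monotone UU := by
  intro m n hmn
  apply Submodule.span_mono
  rintro F ⟨a, j, hj, rfl⟩
  exact ⟨a, j, lt_of_lt_of_le hj hmn, rfl⟩

theorem UU_zero : UU 0 = ⊥ := by
  unfold UU
  rw [Submodule.span_eq_bot]
  rintro F ⟨a, j, hj, rfl⟩
  omega

theorem pwK_mem {a : E3} {j n : ℕ} (h : j < n) : pwK a j ∈ UU n :=
  Submodule.subset_span ⟨a, j, h, rfl⟩

theorem sharp_pw (a : E3) (j : ℕ) (F : KK) :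
    ∑ k, ⟪emb (SC k F), emb (SC k (pwK a j))⟫_ℝ =
      ⟪emb (TC F), emb (TC (((j : ℝ) * (j + 1)) • pwK a j -
        ((j : ℝ) * (j - 1) * ‖a‖ ^ 2) • pwK a (j - 2)))⟫_ℝ := by
  simp only [inner_emb]
  exact pw_parts (F : E3 → ℝ) F.2 a j

theorem sharp (n : ℕ) (p : KK) (hp : p ∈ UU (n + 1)) : ∃ p' ∈ UU (n + 1),
    (∀ F, ∑ k, ⟪emb (SC k F), emb (SC k p)⟫_ℝ = ⟪emb (TC F), emb (TC p')⟫_ℝ) ∧
      p' - ((n : ℝ) * (n + 1)) • p ∈ UU n := by
  unfold UU at hp
  induction hp using Submodule.span_induction with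
  | mem p hp =>
    obtain ⟨a, j, hj, rfl⟩ := hp
    refine ⟨((j : ℝ) * (j + 1)) • pwK a j - ((j : ℝ) * (j - 1) * ‖a‖ ^ 2) • pwK a (j - 2), ?_,
      sharp_pw a j, ?_⟩
    · exact Submodule.sub_mem _ (Submodule.smul_mem _ _ (pwK_mem hj))
        (Submodule.smul_mem _ _ (pwK_mem (by omega)))
    · rcases Nat.lt_or_ge j n with h | h
      · exact Submodule.sub_mem _ (Submodule.sub_mem _ (Submodule.smul_mem _ _ (pwK_mem h))
          (Submodule.smul_mem _ _ (pwK_mem (by omega)))) (Submodule.smul_mem _ _ (pwK_mem h))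
      · have hjn : j = n := by omega
        subst hjn
        rw [sub_right_comm, sub_self, zero_sub]
        apply Submodule.neg_mem
        rcases j with _ | j
        · simp
        · exact Submodule.smul_mem _ _ (pwK_mem (by omega))
  | zero => exact ⟨0, Submodule.zero_mem _, fun F => by simp, by simp⟩
  | add p q _ _ hp hq =>
    obtain ⟨p', h1, h2, h3⟩ := hp
    obtain ⟨q', k1, k2, k3⟩ := hq
    refine ⟨p' + q', Submodule.add_mem _ h1 k1, fun F => ?_, ?_⟩
    · simp only [map_add, inner_add_right, Finset.sum_add_distrib, h2, k2]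
    · have : p' + q' - ((n : ℝ) * (n + 1)) • (p + q) =
          (p' - ((n : ℝ) * (n + 1)) • p) + (q' - ((n : ℝ) * (n + 1)) • q) := by
        module
      rw [this]
      exact Submodule.add_mem _ h3 k3
  | smul c p _ hp =>
    obtain ⟨p', h1, h2, h3⟩ := hp
    refine ⟨c • p', Submodule.smul_mem _ _ h1, fun F => ?_, ?_⟩
    · simp only [map_smul, inner_smul_right, ← Finset.mul_sum, h2]
    · have : c • p' - ((n : ℝ) * (n + 1)) • (c • p) = c • (p' - ((n : ℝ) * (n + 1)) • p) := by
        module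
      rw [this]
      exact Submodule.smul_mem _ _ h3

/-! ### Dimension -/

/-- Coordinate functions. -/
def co (i : Fin 3) : C(S2, ℝ) := ⟨fun ω => (ω : E3) i, by fun_prop⟩

/-- Monomials on the sphere. -/
def mon (t : ℕ × ℕ × ℕ) : C(S2, ℝ) := co 0 ^ t.1 * co 1 ^ t.2.1 * co 2 ^ t.2.2

/-- Index set of the monomials of degree less than `n`, with last exponent at most one. -/
def GG (n : ℕ) : Finset (ℕ × ℕ × ℕ) :=
  (Finset.range n ×ˢ Finset.range n ×ˢ Finset.range 2).filter (fun t => t.1 + t.2.1 + t.2.2 < n)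

theorem mem_GG {n : ℕ} {t : ℕ × ℕ × ℕ} : t ∈ GG n ↔ t.2.2 < 2 ∧ t.1 + t.2.1 + t.2.2 < n := by
  simp only [GG, Finset.mem_filter, Finset.mem_product, Finset.mem_range]
  omega

theorem card_GG (n : ℕ) : (GG n).card ≤ n ^ 2 := by
  have h : (GG n).card ≤ (Finset.range n ×ˢ Finset.range n).card := by
    apply Finset.card_le_card_of_injOn
      (fun t => if t.2.2 = 0 then (t.1, t.1 + t.2.1) else (t.1 + t.2.1 + 1, t.1))
    · rintro ⟨i, j, c⟩ ht
      have h := mem_GG.1 ht
      dsimp only at h ⊢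
      simp only [Finset.coe_product, Finset.coe_range, Set.mem_prod, Set.mem_Iio]
      split_ifs with hc
      · dsimp only
        omega
      · dsimp only
        omega
    · rintro ⟨i, j, c⟩ ht ⟨i', j', c'⟩ ht' h
      have h1 := mem_GG.1 ht
      have h2 := mem_GG.1 ht'
      dsimp only at h h1 h2
      split_ifs at h with hc hc' hc' <;> simp only [Prod.mk.injEq] at h ⊢ <;> omega
  simpa [pow_two] using h

/-- Span of the monomials. -/
def MM (n : ℕ) : Submodule ℝ C(S2, ℝ) := Submodule.span ℝ (mon '' (GG n : Set (ℕ × ℕ × ℕ)))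

theorem mon_mem {n : ℕ} {t : ℕ × ℕ × ℕ} (h1 : t.2.2 < 2) (h2 : t.1 + t.2.1 + t.2.2 < n) :
    mon t ∈ MM n := Submodule.subset_span ⟨t, mem_GG.2 ⟨h1, h2⟩, rfl⟩

theorem MM_mono : Monotone MM := by
  intro m n hmn
  apply Submodule.span_mono
  apply Set.image_mono
  intro t ht
  have := mem_GG.1 ht
  exact mem_GG.2 ⟨this.1, by omega⟩

theorem co_sq : co 2 ^ 2 = 1 - co 0 ^ 2 - co 1 ^ 2 := by
  ext ω
  have h : ‖(ω : E3)‖ ^ 2 = 1 := by simp
  rw [EuclideanSpace.norm_sq_eq, Fin.sum_univ_three] at h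
  simp only [Real.norm_eq_abs, sq_abs] at h
  simp only [co, ContinuousMap.pow_apply, ContinuousMap.coe_mk, ContinuousMap.sub_apply,
    ContinuousMap.one_apply]
  linarith

theorem MM_mul (n : ℕ) (f : C(S2, ℝ)) (hf : f ∈ MM n) (i : Fin 3) : f * co i ∈ MM (n + 1) := by
  unfold MM at hf
  induction hf using Submodule.span_induction with
  | mem f hf =>
    obtain ⟨⟨a, b, c⟩, ht, rfl⟩ := hf
    have h := mem_GG.1 ht
    dsimp only at h
    fin_cases i
    · have : mon (a, b, c) * co 0 = mon (a + 1, b, c) := by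
        simp only [mon]
        ring
      change mon (a, b, c) * co 0 ∈ _
      rw [this]
      exact mon_mem h.1 (by dsimp only; omega)
    · have : mon (a, b, c) * co 1 = mon (a, b + 1, c) := by
        simp only [mon]
        ring
      change mon (a, b, c) * co 1 ∈ _
      rw [this]
      exact mon_mem h.1 (by dsimp only; omega)
    · change mon (a, b, c) * co 2 ∈ _
      rcases c with _ | _ | c
      · have : mon (a, b, 0) * co 2 = mon (a, b, 1) := by
          simp only [mon]
          ring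
        rw [this]
        exact mon_mem (by norm_num) (by dsimp only; omega)
      · have : mon (a, b, 0 + 1) * co 2 =
            mon (a, b, 0) - mon (a + 2, b, 0) - mon (a, b + 2, 0) := by
          simp only [mon]
          have h2 : co 0 ^ a * co 1 ^ b * co 2 ^ (0 + 1) * co 2 =
            co 0 ^ a * co 1 ^ b * co 2 ^ 2 := by ring
          rw [h2, co_sq]
          ring
        rw [this]
        exact Submodule.sub_mem _ (Submodule.sub_mem _ (mon_mem (by norm_num) (by dsimp only; omega))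
          (mon_mem (by norm_num) (by dsimp only; omega))) (mon_mem (by norm_num) (by dsimp only; omega))
      · omega
  | zero => simp
  | add f g _ _ hf hg => rw [add_mul]; exact Submodule.add_mem _ hf hg
  | smul r f _ hf => rw [smul_mul_assoc]; exact Submodule.smul_mem _ _ hf

theorem TC_pwK (a : E3) (n : ℕ) :
    TC (pwK a n) = (a 0 • co 0 + a 1 • co 1 + a 2 • co 2) ^ n := by
  ext ω
  simp only [TC, pwK, pw, LinearMap.coe_mk, AddHom.coe_mk, ContinuousMap.coe_mk,
    ContinuousMap.pow_apply, ContinuousMap.add_apply, ContinuousMap.smul_apply, co]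
  congr 1
  rw [PiLp.inner_apply, Fin.sum_univ_three]
  simp [mul_comm]

theorem TC_pwK_mem (a : E3) (n : ℕ) : TC (pwK a n) ∈ MM (n + 1) := by
  rw [TC_pwK]
  induction n with
  | zero =>
    have : mon (0, 0, 0) = 1 := by simp [mon]
    rw [pow_zero, ← this]
    exact mon_mem (by norm_num) (by norm_num)
  | succ n ih =>
    rw [pow_succ, mul_add, mul_add, mul_smul_comm, mul_smul_comm, mul_smul_comm]
    exact Submodule.add_mem _ (Submodule.add_mem _ (Submodule.smul_mem _ _ (MM_mul _ _ ih 0))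
      (Submodule.smul_mem _ _ (MM_mul _ _ ih 1))) (Submodule.smul_mem _ _ (MM_mul _ _ ih 2))

theorem UU_map_le (n : ℕ) : (UU n).map TC ≤ MM n := by
  unfold UU
  rw [Submodule.map_span_le]
  rintro F ⟨a, j, hj, rfl⟩
  exact MM_mono (by omega) (TC_pwK_mem a j)

instance (n : ℕ) : FiniteDimensional ℝ (MM n) :=
  FiniteDimensional.span_of_finite ℝ ((GG n).finite_toSet.image _)

theorem finrank_MM (n : ℕ) : Module.finrank ℝ (MM n) ≤ n ^ 2 := by
  classical
  have h : Module.finrank ℝ (MM n) ≤ ((GG n).image mon).card := by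
    have := finrank_span_finset_le_card (R := ℝ) ((GG n).image mon)
    rw [Finset.coe_image] at this
    exact this
  exact h.trans (Finset.card_image_le.trans (card_GG n))

/-- The restriction as a map to the Hilbert space. -/
def TH : KK →ₗ[ℝ] Lp ℝ 2 σ := emb.toLinearMap.comp TC

theorem map_TH_le (n : ℕ) : (UU n).map TH ≤ (MM n).map emb.toLinearMap := by
  unfold TH
  rw [Submodule.map_comp]
  exact Submodule.map_mono (UU_map_le n)

instance (n : ℕ) : FiniteDimensional ℝ ((UU n).map TH) :=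
  Submodule.finiteDimensional_of_le (map_TH_le n)

theorem finrank_map_TH (n : ℕ) : Module.finrank ℝ ((UU n).map TH) ≤ n ^ 2 :=
  (Submodule.finrank_mono (map_TH_le n)).trans
    ((Submodule.finrank_map_le _ _).trans (finrank_MM n))

end

end Pool.Agent.CLR3
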