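import Pool.Agent.CLR3.AngSpc

open MeasureTheory Set Metric
open scoped InnerProductSpace

namespace Pool.Agent.CLR3

noncomputable section

/-- Exponentials on the sphere. -/
def ex (a : E3) : C(S2, ℝ) := ⟨fun ω => Real.exp ⟪a, (ω : E3)⟫_ℝ, by fun_prop⟩

theorem ex_mul (a b : E3) : ex a * ex b = ex (a + b) := by
  ext ω
  simp only [ex, ContinuousMap.mul_apply, ContinuousMap.coe_mk, inner_add_left, Real.exp_add]

theorem ex_zero : ex 0 = 1 := by
  ext ω
  simp [ex]

theorem hasSum_ex (a : E3) :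
    HasSum (fun n : ℕ => ((n.factorial : ℝ)⁻¹) • TC (pwK a n)) (ex a) := by
  have h1 : ∀ n : ℕ, TC (pwK a n) = TC (pwK a 1) ^ n := by
    intro n
    ext ω
    simp [TC, pwK, pw]
  have h2 := NormedSpace.exp_series_hasSum_exp' (𝕂 := ℝ) (TC (pwK a 1))
  have h3 : NormedSpace.exp (TC (pwK a 1)) = ex a := by
    ext ω
    have h4 := h2.map (ContinuousMap.evalCLM ℝ ω) (ContinuousMap.evalCLM ℝ ω).continuous
    have h5 := NormedSpace.exp_series_hasSum_exp' (𝕂 := ℝ) (TC (pwK a 1) ω)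
    have h6 : ContinuousMap.evalCLM ℝ ω (NormedSpace.exp (TC (pwK a 1))) =
        NormedSpace.exp (TC (pwK a 1) ω) := by
      refine h4.unique ?_
      have h8 : (ContinuousMap.evalCLM ℝ ω ∘
          fun n : ℕ => ((n.factorial : ℝ)⁻¹) • TC (pwK a 1) ^ n) =
          fun n : ℕ => ((n.factorial : ℝ)⁻¹) • (TC (pwK a 1) ω) ^ n := by
        funext n
        simp
      rw [h8]
      exact h5
    have h7 : TC (pwK a 1) ω = ⟪a, (ω : E3)⟫_ℝ := by simp [TC, pwK, pw]
    rw [h7, ← Real.exp_eq_exp_ℝ] at h6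
    exact h6
  rw [h3] at h2
  simpa only [← h1] using h2

/-- All restrictions of polynomials. -/
def VV : Submodule ℝ C(S2, ℝ) := (⨆ n, UU n).map TC

theorem ex_mem (a : E3) : ex a ∈ VV.topologicalClosure := by
  have h := hasSum_ex a
  refine mem_closure_of_tendsto h (Filter.Eventually.of_forall fun s => ?_)
  refine Submodule.sum_mem _ fun n _ => Submodule.smul_mem _ _ ?_
  exact Submodule.mem_map_of_mem (Submodule.mem_iSup_of_mem (n + 1) (pwK_mem (Nat.lt_succ_self n)))

/-- The algebra of exponentials. -/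
def AA : Subalgebra ℝ C(S2, ℝ) := Algebra.adjoin ℝ (Set.range ex)

theorem AA_le : Subalgebra.toSubmodule AA ≤ VV.topologicalClosure := by
  unfold AA
  rw [Algebra.adjoin_eq_span, Submodule.span_le]
  intro f hf
  have h1 : f ∈ Set.range ex := by
    induction hf using Submonoid.closure_induction with
    | mem f hf => exact hf
    | one => exact ⟨0, ex_zero⟩
    | mul f g _ _ hf hg =>
      obtain ⟨a, rfl⟩ := hf
      obtain ⟨b, rfl⟩ := hg
      exact ⟨a + b, (ex_mul a b).symm⟩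
  obtain ⟨a, rfl⟩ := h1
  exact ex_mem a

theorem AA_sep : AA.SeparatesPoints := by
  intro x y hxy
  refine ⟨ex ((x : E3) - y), ⟨ex ((x : E3) - y), Algebra.subset_adjoin ⟨_, rfl⟩, rfl⟩, ?_⟩
  intro h
  have h1 : ⟪(x : E3) - y, (x : E3)⟫_ℝ = ⟪(x : E3) - y, (y : E3)⟫_ℝ := Real.exp_injective h
  have h2 : ⟪(x : E3) - y, (x : E3) - y⟫_ℝ = 0 := by rw [inner_sub_right, h1, sub_self]
  exact hxy (Subtype.ext (sub_eq_zero.1 (inner_self_eq_zero.1 h2)))

theorem VV_top : VV.topologicalClosure = ⊤ := by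
  rw [eq_top_iff]
  have h1 := ContinuousMap.subalgebra_topologicalClosure_eq_top_of_separatesPoints AA AA_sep
  intro f _
  have h2 : f ∈ AA.topologicalClosure := by rw [h1]; trivial
  have h3 : f ∈ closure (AA : Set C(S2, ℝ)) := h2
  have h4 : (AA : Set C(S2, ℝ)) ⊆ VV.topologicalClosure := AA_le
  have h5 : closure (AA : Set C(S2, ℝ)) ⊆ VV.topologicalClosure :=
    closure_minimal h4 VV.isClosed_topologicalClosure
  exact h5 h3

theorem TH_dense (F : KK) (ε : ℝ) (hε : 0 < ε) : ∃ n, ∃ p ∈ UU n, ‖TH F - TH p‖ < ε := by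
  have h1 : TC F ∈ closure (VV : Set C(S2, ℝ)) := by
    have : TC F ∈ VV.topologicalClosure := by rw [VV_top]; trivial
    exact this
  obtain ⟨g, hg, hgd⟩ := Metric.mem_closure_iff.1 h1 (ε / (‖emb‖ + 1)) (by positivity)
  obtain ⟨p, hp, rfl⟩ := hg
  obtain ⟨n, hn⟩ := (Submodule.mem_iSup_of_directed _ UU_mono.directed_le).1 hp
  refine ⟨n, p, hn, ?_⟩
  have h2 : TH F - TH p = emb (TC F - TC p) := by simp [TH]
  rw [h2]
  rw [dist_eq_norm, lt_div_iff₀ (by positivity)] at hgd
  have h3 := emb.le_opNorm (TC F - TC p)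
  nlinarith [norm_nonneg (TC F - TC p), norm_nonneg emb]

/-- Angular lemma: the spectral gap of the sphere beyond the first `J ^ 2` spherical harmonics. -/
theorem angular (J : ℕ) : ∃ (M : ℕ) (p : Fin M → C(S2, ℝ)), M ≤ J ^ 2 ∧
    (∀ i j, ∫ ω, p i ω * p j ω ∂σ = if i = j then 1 else 0) ∧
    ∀ F : E3 → ℝ, ContDiff ℝ 1 F →
      (J * (J + 1) : ℝ) * ∫ ω : S2, (F ω - ∑ i, (∫ ω' : S2, F ω' * p i ω' ∂σ) * p i ω) ^ 2 ∂σ
        ≤ ∫ ω : S2, tan2 F ω ∂σ := by
  let b := stdOrthonormalBasis ℝ ((UU J).map TH)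
  have hb : ∀ i, ∃ q : KK, TH q = (b i : Lp ℝ 2 σ) := by
    intro i
    obtain ⟨q, _, hq⟩ := (b i).2
    exact ⟨q, hq⟩
  choose q hq using hb
  refine ⟨_, fun i => TC (q i), finrank_map_TH J, ?_, ?_⟩
  · intro i j
    rw [← inner_emb]
    have h1 : ∀ i, emb (TC (q i)) = (b i : Lp ℝ 2 σ) := hq
    rw [h1, h1, ← Submodule.coe_inner]
    exact orthonormal_iff_ite.1 b.orthonormal i j
  · intro F hF
    let F' : KK := ⟨F, hF⟩
    have h := abstract_gap TH (fun k => emb.toLinearMap.comp (SC k)) UU UU_mono UU_zero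
      (fun n p hp => sharp n p hp) TH_dense J F'
    have h1 : ((UU J).map TH).starProjection (TH F') =
        emb (∑ i, (∫ ω' : S2, F ω' * TC (q i) ω' ∂σ) • TC (q i)) := by
      rw [Submodule.starProjection_apply, b.orthogonalProjectionOnto_apply_eq_sum]
      rw [map_sum, Submodule.coe_sum]
      refine Finset.sum_congr rfl fun i _ => ?_
      rw [map_smul, Submodule.coe_smul]
      have h2 : emb (TC (q i)) = (b i : Lp ℝ 2 σ) := hq i
      have h3 : TH F' = emb (TC F') := rfl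
      rw [← h2, h3, inner_emb]
      congr 2
      ext ω
      exact mul_comm _ _
    have h2 : ‖TH F' - ((UU J).map TH).starProjection (TH F')‖ ^ 2 =
        ∫ ω : S2, (F ω - ∑ i, (∫ ω' : S2, F ω' * TC (q i) ω' ∂σ) * TC (q i) ω) ^ 2 ∂σ := by
      have h3 : TH F' = emb (TC F') := rfl
      rw [h1, h3, ← map_sub, ← real_inner_self_eq_norm_sq, inner_emb]
      congr 1
      ext ω
      simp only [ContinuousMap.sub_apply, ContinuousMap.sum_apply, ContinuousMap.smul_apply,
        smul_eq_mul]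
      rw [pow_two]
      rfl
    have h3 : ∑ k : Fin 3, ⟪(emb.toLinearMap.comp (SC k)) F', (emb.toLinearMap.comp (SC k)) F'⟫_ℝ =
        ∫ ω : S2, tan2 F ω ∂σ := by
      have h4 : ∀ k : Fin 3,
          ⟪(emb.toLinearMap.comp (SC k)) F', (emb.toLinearMap.comp (SC k)) F'⟫_ℝ =
            ∫ ω : S2, (SC k F') ω * (SC k F') ω ∂σ := fun k => inner_emb _ _
      rw [Finset.sum_congr rfl fun k _ => h4 k, ← integral_finsetSum]
      · congr 1
        ext ω
        have h5 := lagr (fderiv ℝ F ω) (ω : E3)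
        unfold tan2
        rw [← h5]
        refine Finset.sum_congr rfl fun k _ => ?_
        rw [pow_two]
        rfl
      · intro k _
        exact ((SC k F').continuous.mul (SC k F').continuous).integrable_of_hasCompactSupport
          (HasCompactSupport.of_compactSpace _)
    rw [h2, h3] at h
    exact h

end

end Pool.Agent.CLR3
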