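import Pool.Agent.CLR3.Defs

/-! Basic facts: Young inequality with the sharp constant, integrability for test functions. -/

open MeasureTheory Set Metric

namespace Pool.Agent.CLR3

noncomputable section

/-- The constant `16 / (3 sqrt 3 pi)`. -/
def CC : ℝ := 16 / (3 * Real.sqrt 3 * Real.pi)

lemma CC_pos : 0 < CC := by unfold CC; positivity

lemma rpow_three_half (x : ℝ) (hx : 0 ≤ x) : x ^ ((3 : ℝ) / 2) = (Real.sqrt x) ^ 3 := by
  rw [Real.sqrt_eq_rpow, ← Real.rpow_natCast, ← Real.rpow_mul hx]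
  norm_num

lemma young_aux (x w : ℝ) (hx : 0 ≤ x) (hw : 0 ≤ w) : 3 * (x * w ^ 2) ≤ x ^ 3 + 2 * w ^ 3 := by
  nlinarith [mul_nonneg (add_nonneg hx (mul_nonneg zero_le_two hw)) (sq_nonneg (x - w))]

/-- Young inequality with a parameter. -/
lemma young_l (x W l : ℝ) (hx : 0 ≤ x) (hW : 0 ≤ W) (hl : 0 < l) :
    W * x ≤ (2 * l / 3) * W ^ ((3 : ℝ) / 2) + x ^ 3 / (3 * l ^ 2) := by
  rw [rpow_three_half W hW]
  set w := Real.sqrt W with hw
  have hw0 : 0 ≤ w := Real.sqrt_nonneg _
  have hWw : W = w ^ 2 := (Real.sq_sqrt hW).symm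
  rw [hWw]
  have h := young_aux (x / l) w (div_nonneg hx hl.le) hw0
  have h2 : l / 3 * (3 * (x / l * w ^ 2)) ≤ l / 3 * ((x / l) ^ 3 + 2 * w ^ 3) :=
    mul_le_mul_of_nonneg_left h (by positivity)
  have e1 : l / 3 * (3 * (x / l * w ^ 2)) = w ^ 2 * x := by field_simp
  have e2 : l / 3 * ((x / l) ^ 3 + 2 * w ^ 3) = 2 * l / 3 * w ^ 3 + x ^ 3 / (3 * l ^ 2) := by
    field_simp
    ring
  linarith [e1, e2]

/-- Sharp Young inequality: `P W - (pi^2/64) P^3 ≤ CC W^(3/2)`. -/
lemma young_sharp (P W : ℝ) (hP : 0 ≤ P) (hW : 0 ≤ W) :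
    P * W - Real.pi ^ 2 / 64 * P ^ 3 ≤ CC * W ^ ((3 : ℝ) / 2) := by
  have hpi := Real.pi_pos
  have h3 : Real.sqrt 3 ^ 2 = 3 := Real.sq_sqrt (by norm_num)
  have h30 : 0 < Real.sqrt 3 := by positivity
  have h := young_l P W (8 / (Real.sqrt 3 * Real.pi)) hP hW (by positivity)
  have e1 : 2 * (8 / (Real.sqrt 3 * Real.pi)) / 3 = CC := by
    unfold CC; field_simp; norm_num
  have e2 : P ^ 3 / (3 * (8 / (Real.sqrt 3 * Real.pi)) ^ 2) = Real.pi ^ 2 / 64 * P ^ 3 := by
    rw [div_pow, mul_pow, h3]; field_simp; norm_num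
  rw [e1, e2] at h
  linarith

namespace Adm

variable {v w : ℝ → ℝ}

lemma zero : Adm (fun _ => 0) := by
  refine ⟨contDiff_const, 0, 0, fun t => ⟨by simp, by simp, fun _ => rfl⟩⟩

lemma diff (hv : Adm v) : Differentiable ℝ v := hv.cd.differentiable (by norm_num)

lemma cont (hv : Adm v) : Continuous v := hv.cd.continuous

lemma contd (hv : Adm v) : Continuous (deriv v) := hv.cd.continuous_deriv (by norm_num)

lemma comb (hv : Adm v) (hw : Adm w) (a c : ℝ) : Adm (fun t => a * v t + c * w t) := by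
  obtain ⟨C1, T1, h1⟩ := hv.bd
  obtain ⟨C2, T2, h2⟩ := hw.bd
  refine ⟨(contDiff_const.mul hv.cd).add (contDiff_const.mul hw.cd),
    |a| * C1 + |c| * C2, max T1 T2, fun t => ⟨?_, ?_, ?_⟩⟩
  · calc |a * v t + c * w t| ≤ |a * v t| + |c * w t| := abs_add_le _ _
      _ = |a| * |v t| + |c| * |w t| := by rw [abs_mul, abs_mul]
      _ ≤ |a| * (C1 * Real.exp (t / 2)) + |c| * (C2 * Real.exp (t / 2)) := by
          gcongr
          · exact (h1 t).1
          · exact (h2 t).1
      _ = _ := by ring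
  · have hd : deriv (fun t => a * v t + c * w t) t = a * deriv v t + c * deriv w t := by
      rw [deriv_fun_add ((hv.diff t).const_mul a) ((hw.diff t).const_mul c),
        deriv_const_mul a (hv.diff t), deriv_const_mul c (hw.diff t)]
    rw [hd]
    calc |a * deriv v t + c * deriv w t| ≤ |a * deriv v t| + |c * deriv w t| := abs_add_le _ _
      _ = |a| * |deriv v t| + |c| * |deriv w t| := by rw [abs_mul, abs_mul]
      _ ≤ |a| * (C1 * Real.exp (t / 2)) + |c| * (C2 * Real.exp (t / 2)) := by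
          gcongr
          · exact (h1 t).2.1
          · exact (h2 t).2.1
      _ = _ := by ring
  · intro ht
    show a * v t + c * w t = 0
    rw [(h1 t).2.2 (le_trans (le_max_left _ _) ht), (h2 t).2.2 (le_trans (le_max_right _ _) ht)]
    ring

lemma deriv_comb (hv : Adm v) (hw : Adm w) (a c t : ℝ) :
    deriv (fun t => a * v t + c * w t) t = a * deriv v t + c * deriv w t := by
  rw [deriv_fun_add ((hv.diff t).const_mul a) ((hw.diff t).const_mul c),
    deriv_const_mul a (hv.diff t), deriv_const_mul c (hw.diff t)]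

/-- Uniform bounds including vanishing of the derivative. -/
lemma bd' (hv : Adm v) : ∃ C T : ℝ, 0 ≤ C ∧ ∀ t, |v t| ≤ C * Real.exp (t / 2) ∧
    |deriv v t| ≤ C * Real.exp (t / 2) ∧ (T ≤ t → v t = 0 ∧ deriv v t = 0) := by
  obtain ⟨C, T, h⟩ := hv.bd
  refine ⟨C, T + 1, ?_, fun t => ⟨(h t).1, (h t).2.1, fun ht => ⟨(h t).2.2 (by linarith), ?_⟩⟩⟩
  · have := (h 0).1
    simp at this
    exact le_trans (abs_nonneg _) this
  · have : v =ᶠ[nhds t] fun _ => 0 := by
      filter_upwards [Ioi_mem_nhds (show T < t by linarith)] with s hs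
      exact (h s).2.2 (le_of_lt hs)
    rw [this.deriv_eq]
    simp

end Adm

/-- A continuous function dominated by `C exp (k t)` and vanishing for large `t` is integrable. -/
lemma integrable_of_exp (f : ℝ → ℝ) (hf : Continuous f) (C T k : ℝ) (hk : 0 < k)
    (h : ∀ t, |f t| ≤ C * Real.exp (k * t) ∧ (T ≤ t → f t = 0)) : Integrable f := by
  have h1 : IntegrableOn f (Iic T) := by
    refine Integrable.mono' (g := fun t => C * Real.exp (k * t)) ?_ hf.aestronglyMeasurable ?_
    · exact (integrableOn_exp_mul_Iic hk T).const_mul C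
    · exact Filter.Eventually.of_forall fun t => (h t).1
  have h2 : IntegrableOn f (Ioi T) := by
    refine (integrableOn_zero).congr_fun (fun t ht => ?_) measurableSet_Ioi
    exact ((h t).2 (le_of_lt ht)).symm
  have := h1.union h2
  rwa [Iic_union_Ioi, integrableOn_univ] at this

end

end Pool.Agent.CLR3
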