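import Pool.Agent.CLR3.Basic1

/-! Integrability of the form densities, expansions, continuity in the end point. -/

open MeasureTheory Set Metric

namespace Pool.Agent.CLR3

noncomputable section

namespace Adm

variable {v w : ℝ → ℝ}

lemma int_mul (hv : Adm v) (hw : Adm w) : Integrable (fun t => v t * w t) := by
  obtain ⟨C1, T1, h10, h1⟩ := hv.bd'
  obtain ⟨C2, T2, h20, h2⟩ := hw.bd'
  refine integrable_of_exp _ (hv.cont.mul hw.cont) (C1 * C2) (max T1 T2) 1 one_pos
    fun t => ⟨?_, fun ht => ?_⟩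
  · rw [abs_mul]
    calc |v t| * |w t| ≤ (C1 * Real.exp (t / 2)) * (C2 * Real.exp (t / 2)) := by
          gcongr
          · exact (h1 t).1
          · exact (h2 t).1
      _ = C1 * C2 * (Real.exp (t / 2) * Real.exp (t / 2)) := by ring
      _ = _ := by rw [← Real.exp_add]; ring_nf
  · rw [((h1 t).2.2 (le_trans (le_max_left _ _) ht)).1, zero_mul]

lemma int_dmul (hv : Adm v) (hw : Adm w) : Integrable (fun t => deriv v t * deriv w t) := by
  obtain ⟨C1, T1, h10, h1⟩ := hv.bd'
  obtain ⟨C2, T2, h20, h2⟩ := hw.bd'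
  refine integrable_of_exp _ (hv.contd.mul hw.contd) (C1 * C2) (max T1 T2) 1 one_pos
    fun t => ⟨?_, fun ht => ?_⟩
  · rw [abs_mul]
    calc |deriv v t| * |deriv w t| ≤ (C1 * Real.exp (t / 2)) * (C2 * Real.exp (t / 2)) := by
          gcongr
          · exact (h1 t).2.1
          · exact (h2 t).2.1
      _ = C1 * C2 * (Real.exp (t / 2) * Real.exp (t / 2)) := by ring
      _ = _ := by rw [← Real.exp_add]; ring_nf
  · rw [((h1 t).2.2 (le_trans (le_max_left _ _) ht)).2, zero_mul]

lemma int_sq (hv : Adm v) : Integrable (fun t => v t ^ 2) := by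
  simpa [pow_two] using hv.int_mul hv

lemma int_dsq (hv : Adm v) : Integrable (fun t => (deriv v t) ^ 2) := by
  simpa [pow_two] using hv.int_dmul hv

lemma int_six (hv : Adm v) : Integrable (fun t => (v t ^ 2) ^ 3) := by
  obtain ⟨C1, T1, h10, h1⟩ := hv.bd'
  refine integrable_of_exp _ ((hv.cont.pow 2).pow 3) (C1 ^ 6) T1 3 (by norm_num)
    fun t => ⟨?_, fun ht => ?_⟩
  · rw [abs_pow, abs_pow]
    calc (|v t| ^ 2) ^ 3 ≤ ((C1 * Real.exp (t / 2)) ^ 2) ^ 3 := by
          gcongr
          exact (h1 t).1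
      _ = C1 ^ 6 * (Real.exp (t / 2)) ^ 6 := by ring
      _ = _ := by rw [← Real.exp_nat_mul]; push_cast; ring_nf
  · rw [((h1 t).2.2 ht).1]; norm_num

end Adm

section

variable {W : ℝ → ℝ} (hWm : Measurable W) (hW0 : ∀ t, 0 ≤ W t)
  (hWi : Integrable (fun t => W t ^ ((3 : ℝ) / 2)))

include hWm hW0 hWi

lemma int_Wsq {v : ℝ → ℝ} (hv : Adm v) : Integrable (fun t => W t * v t ^ 2) := by
  have h1 : Integrable (fun t => CC * W t ^ ((3 : ℝ) / 2) +
      Real.pi ^ 2 / 64 * (v t ^ 2) ^ 3) := (hWi.const_mul _).add (hv.int_six.const_mul _)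
  refine Integrable.mono' h1 ?_ ?_
  · exact (hWm.mul (hv.cont.measurable.pow_const 2)).aestronglyMeasurable
  · refine Filter.Eventually.of_forall fun t => ?_
    rw [Real.norm_eq_abs, abs_of_nonneg (mul_nonneg (hW0 t) (sq_nonneg _))]
    have := young_sharp (v t ^ 2) (W t) (sq_nonneg _) (hW0 t)
    linarith

lemma int_Wmul {v w : ℝ → ℝ} (hv : Adm v) (hw : Adm w) :
    Integrable (fun t => W t * (v t * w t)) := by
  have h1 : Integrable (fun t => (W t * v t ^ 2 + W t * w t ^ 2)) :=
    (int_Wsq hWm hW0 hWi hv).add (int_Wsq hWm hW0 hWi hw)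
  refine Integrable.mono' h1 ?_ ?_
  · exact (hWm.mul (hv.cont.measurable.mul hw.cont.measurable)).aestronglyMeasurable
  · refine Filter.Eventually.of_forall fun t => ?_
    rw [Real.norm_eq_abs, abs_mul, abs_of_nonneg (hW0 t), ← mul_add]
    refine mul_le_mul_of_nonneg_left ?_ (hW0 t)
    rw [abs_mul]
    nlinarith [sq_nonneg (|v t| - |w t|), sq_abs (v t), sq_abs (w t), abs_nonneg (v t),
      abs_nonneg (w t)]

lemma int_q {v : ℝ → ℝ} (hv : Adm v) (κ : ℝ) :
    Integrable (fun t => (deriv v t) ^ 2 + κ ^ 2 * v t ^ 2 - W t * v t ^ 2) :=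
  ((hv.int_dsq).add (hv.int_sq.const_mul _)).sub (int_Wsq hWm hW0 hWi hv)

lemma int_b {v w : ℝ → ℝ} (hv : Adm v) (hw : Adm w) :
    Integrable (fun t => deriv v t * deriv w t + (1 / 4) * (v t * w t) - W t * (v t * w t)) :=
  ((hv.int_dmul hw).add ((hv.int_mul hw).const_mul _)).sub (int_Wmul hWm hW0 hWi hv hw)

lemma Q_comb {v w : ℝ → ℝ} (hv : Adm v) (hw : Adm w) (A : Set ℝ) (a c : ℝ) :
    Q W (1 / 2) A (fun t => a * v t + c * w t) =
      a ^ 2 * Q W (1 / 2) A v + 2 * (a * c) * B W A v w + c ^ 2 * Q W (1 / 2) A w := by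
  unfold Q B
  rw [← integral_const_mul, ← integral_const_mul, ← integral_const_mul,
    ← integral_add, ← integral_add]
  · refine integral_congr_ae (Filter.Eventually.of_forall fun t => ?_)
    simp only [hv.deriv_comb hw]
    ring
  · exact (((int_q hWm hW0 hWi hv _).const_mul _).add
      ((int_b hWm hW0 hWi hv hw).const_mul _)).integrableOn
  · exact ((int_q hWm hW0 hWi hw _).const_mul _).integrableOn
  · exact ((int_q hWm hW0 hWi hv _).const_mul _).integrableOn
  · exact ((int_b hWm hW0 hWi hv hw).const_mul _).integrableOn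

lemma Q_mono {v : ℝ → ℝ} (hv : Adm v) (A : Set ℝ) {κ κ' : ℝ} (h : κ ^ 2 ≤ κ' ^ 2) :
    Q W κ A v ≤ Q W κ' A v := by
  unfold Q
  refine setIntegral_mono (int_q hWm hW0 hWi hv _).integrableOn
    (int_q hWm hW0 hWi hv _).integrableOn fun t => ?_
  have := mul_le_mul_of_nonneg_right h (sq_nonneg (v t))
  simp only
  linarith

end

/-- Primitive of an integrable function is continuous. -/
lemma continuous_Iic {f : ℝ → ℝ} (hf : Integrable f) : Continuous fun m => ∫ t in Iic m, f t := by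
  have h : (fun m => ∫ t in Iic m, f t) = fun m => (∫ t in Iic (0 : ℝ), f t) + ∫ t in (0 : ℝ)..m, f t := by
    funext m
    rw [← intervalIntegral.integral_Iic_sub_Iic hf.integrableOn hf.integrableOn]
    ring
  rw [h]
  exact continuous_const.add (intervalIntegral.continuous_primitive (fun a b => hf.intervalIntegrable) 0)

lemma setInt_Ioc {f : ℝ → ℝ} (hf : Integrable f) {a m : ℝ} (h : a ≤ m) :
    ∫ t in Ioc a m, f t = (∫ t in Iic m, f t) - ∫ t in Iic a, f t := by
  rw [← intervalIntegral.integral_of_le h,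
    intervalIntegral.integral_Iic_sub_Iic hf.integrableOn hf.integrableOn]

lemma setInt_Ioi {f : ℝ → ℝ} (hf : Integrable f) (a : ℝ) :
    ∫ t in Ioi a, f t = (∫ t, f t) - ∫ t in Iic a, f t := by
  have h := integral_add_compl (measurableSet_Iic (a := a)) hf
  rw [compl_Iic] at h
  linarith

end

end Pool.Agent.CLR3
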