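import Pool.Agent.CLR3.CellCoef

/-! T3: the cell step and the union step. -/

open MeasureTheory Set Metric

namespace Pool.Agent.CLR3.Cell

open Pool.Agent.CLR3

noncomputable section

/-- The statement of the angular lemma for `J`. -/
def Angular (J : ℕ) : Prop := ∃ (M : ℕ) (p : Fin M → C(S2, ℝ)), M ≤ J ^ 2 ∧
    (∀ i j, ∫ ω, p i ω * p j ω ∂σ = if i = j then 1 else 0) ∧
    ∀ F : E3 → ℝ, ContDiff ℝ 1 F →
      (J * (J + 1) : ℝ) * ∫ ω : S2, (F ω - ∑ i, (∫ ω' : S2, F ω' * p i ω' ∂σ) * p i ω) ^ 2 ∂σ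
        ≤ ∫ ω : S2, tan2 F ω ∂σ

section

variable {W : ℝ → ℝ} (hWm : Measurable W) (hW0 : ∀ t, 0 ≤ W t)
  (hWi : Integrable (fun t => W t ^ ((3 : ℝ) / 2)))
  {u : E3 → ℝ} (hu : ContDiff ℝ 1 u) (hc : HasCompactSupport u)

include hu in
/-- splitting of the density -/
lemma dens_eq (t : ℝ) : dens W u t = ∫ ω : S2, Vt u t ω ^ 2 ∂σ
    + (1 / 4 - W t) * ∫ ω : S2, resc u t ω ^ 2 ∂σ + ∫ ω : S2, tan2 (resc u t) ω ∂σ := by
  have i1 : Integrable (fun ω : S2 => Vt u t ω ^ 2) σ := int_cont ((cont_Vt1 hu t).pow 2)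
  have i2 : Integrable (fun ω : S2 => resc u t ω ^ 2) σ := int_cont ((cont_V1 hu t).pow 2)
  have i3 : Integrable (fun ω : S2 => tan2 (resc u t) ω) σ := int_cont (cont_tan1 hu t)
  have i2' : Integrable (fun ω : S2 => (1 / 4 - W t) * resc u t ω ^ 2) σ := i2.const_mul _
  have i12 : Integrable (fun ω : S2 => Vt u t ω ^ 2 + (1 / 4 - W t) * resc u t ω ^ 2) σ := i1.add i2'
  have h : dens W u t = ∫ ω : S2, (Vt u t ω ^ 2 + (1 / 4 - W t) * resc u t ω ^ 2
      + tan2 (resc u t) ω) ∂σ := by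
    unfold dens Vt
    exact integral_congr_ae (Filter.Eventually.of_forall fun ω => by simp only []; ring)
  rw [h, integral_add i12 i3, integral_add i1 i2', integral_const_mul]

include hWm hW0 hWi hu hc in
lemma int_dens : Integrable (dens W u) := by
  obtain ⟨C, T, hC, h⟩ := bounds hu hc
  have h1 : Integrable (fun t => ∫ ω : S2, (Vt u t ω ^ 2 + (1 / 4) * resc u t ω ^ 2
      + tan2 (resc u t) ω) ∂σ) := by
    refine int_line (C := (C ^ 2 + (1 / 4) * C ^ 2 + C) * σ.real univ) (T := T) ?_ (fun t => ?_)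
      (fun t ht => ?_)
    · refine cont_param (f := fun t (ω : S2) => Vt u t ω ^ 2 + (1 / 4) * resc u t ω ^ 2
        + tan2 (resc u t) ω) ?_
      exact (((cont_Vt2 hu).pow 2).add (continuous_const.mul ((cont_V2 hu).pow 2))).add (cont_tan2 hu)
    · have := abs_int_le (f := fun ω : S2 => Vt u t ω ^ 2 + (1 / 4) * resc u t ω ^ 2
        + tan2 (resc u t) ω) (K := (C ^ 2 + (1 / 4) * C ^ 2 + C) * Real.exp t) (fun ω => ?_)
      · linarith
      · obtain ⟨h1, h2, h3, h4⟩ := h t ω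
        have e1 : Vt u t ω ^ 2 ≤ C ^ 2 * Real.exp t := by
          rw [← sq_abs, ← exp_half_sq]
          calc |Vt u t ω| ^ 2 ≤ (C * Real.exp (t / 2)) ^ 2 := pow_le_pow_left₀ (abs_nonneg _) h2 2
            _ = _ := by ring
        have e2 : resc u t ω ^ 2 ≤ C ^ 2 * Real.exp t := by
          rw [← sq_abs, ← exp_half_sq]
          calc |resc u t ω| ^ 2 ≤ (C * Real.exp (t / 2)) ^ 2 := pow_le_pow_left₀ (abs_nonneg _) h1 2
            _ = _ := by ring
        have e3 := sq_nonneg (Vt u t ω)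
        have e4 := sq_nonneg (resc u t ω)
        rw [abs_le] at h3 ⊢
        constructor <;> nlinarith [h3.1, h3.2]
    · have : (fun ω : S2 => Vt u t ω ^ 2 + (1 / 4) * resc u t ω ^ 2 + tan2 (resc u t) ω)
          = fun _ => 0 := by
        ext ω
        obtain ⟨z1, z2, z3⟩ := (h t ω).2.2.2 ht
        rw [z1, z2, z3]; ring
      rw [this]; simp
  have h2 : Integrable (fun t => W t * ∫ ω : S2, resc u t ω ^ 2 ∂σ) := by
    refine int_W_line hWm hW0 hWi (C := C ^ 2 * σ.real univ) (T := T) ?_ (fun t => ?_)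
      (fun t ht => ?_)
    · exact cont_param (f := fun t (ω : S2) => resc u t ω ^ 2) ((cont_V2 hu).pow 2)
    · have := abs_int_le (f := fun ω : S2 => resc u t ω ^ 2) (K := C ^ 2 * Real.exp t)
        (fun ω => ?_)
      · linarith
      · rw [abs_of_nonneg (sq_nonneg _), ← sq_abs, ← exp_half_sq]
        calc |resc u t ω| ^ 2 ≤ (C * Real.exp (t / 2)) ^ 2 :=
              pow_le_pow_left₀ (abs_nonneg _) (h t ω).1 2
          _ = _ := by ring
    · have : (fun ω : S2 => resc u t ω ^ 2) = fun _ => 0 := by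
        ext ω
        obtain ⟨z1, z2, z3⟩ := (h t ω).2.2.2 ht
        rw [z1]; ring
      rw [this]; simp
  refine (h1.sub h2).congr (Filter.Eventually.of_forall fun t => ?_)
  have i1 : Integrable (fun ω : S2 => Vt u t ω ^ 2) σ := int_cont ((cont_Vt1 hu t).pow 2)
  have i2 : Integrable (fun ω : S2 => resc u t ω ^ 2) σ := int_cont ((cont_V1 hu t).pow 2)
  have i3 : Integrable (fun ω : S2 => tan2 (resc u t) ω) σ := int_cont (cont_tan1 hu t)
  have i2' : Integrable (fun ω : S2 => (1 / 4 : ℝ) * resc u t ω ^ 2) σ := i2.const_mul _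
  have i12 : Integrable (fun ω : S2 => Vt u t ω ^ 2 + (1 / 4 : ℝ) * resc u t ω ^ 2) σ := i1.add i2'
  simp only [Pi.sub_apply]
  rw [dens_eq hu t, integral_add i12 i3, integral_add i1 i2', integral_const_mul]
  ring

include hWm hu hc in
/-- the remainder density on the product is integrable -/
lemma int_rem {M : ℕ} (p : Fin M → C(S2, ℝ)) (κ : ℝ) (hW0 : ∀ t, 0 ≤ W t)
    (hWi : Integrable (fun t => W t ^ ((3 : ℝ) / 2))) (A : Set ℝ) :
    Integrable (Function.uncurry fun (t : ℝ) (ω : S2) =>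
      Gt u p t ω ^ 2 + κ ^ 2 * G u p t ω ^ 2 - W t * G u p t ω ^ 2)
      ((volume.restrict A).prod σ) := by
  obtain ⟨C, T, hC, h⟩ := bounds_G hu hc p
  have hd1 : Integrable (fun t => (C ^ 2 + κ ^ 2 * C ^ 2) * (Iic T).indicator Real.exp t
      + C ^ 2 * (W t * (Iic T).indicator Real.exp t)) (volume.restrict A) :=
    (((int_ind T).const_mul _).add ((int_W_ind hWm hW0 hWi T).const_mul _)).restrict
  have hd2 := hd1.comp_fst σ
  refine hd2.mono' ?_ (Filter.Eventually.of_forall fun z => ?_)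
  · have hG := (cont_G hu hc p).measurable
    have hGt := (cont_Gt hu p).measurable
    have hW' : Measurable (fun z : ℝ × S2 => W z.1) := hWm.comp measurable_fst
    exact (((hGt.pow_const 2).add ((hG.pow_const 2).const_mul _)).sub
      (hW'.mul (hG.pow_const 2))).aestronglyMeasurable
  · obtain ⟨t, ω⟩ := z
    simp only [Function.uncurry]
    obtain ⟨h1, h2, h3⟩ := h t ω
    have e1 : G u p t ω ^ 2 ≤ C ^ 2 * Real.exp t := by
      rw [← sq_abs, ← exp_half_sq]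
      calc |G u p t ω| ^ 2 ≤ (C * Real.exp (t / 2)) ^ 2 := pow_le_pow_left₀ (abs_nonneg _) h1 2
        _ = _ := by ring
    have e2 : Gt u p t ω ^ 2 ≤ C ^ 2 * Real.exp t := by
      rw [← sq_abs, ← exp_half_sq]
      calc |Gt u p t ω| ^ 2 ≤ (C * Real.exp (t / 2)) ^ 2 := pow_le_pow_left₀ (abs_nonneg _) h2 2
        _ = _ := by ring
    have e3 := sq_nonneg (G u p t ω)
    have e4 := sq_nonneg (Gt u p t ω)
    by_cases ht : t ∈ Iic T
    · rw [indicator_of_mem ht, Real.norm_eq_abs, abs_le]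
      have k1 : W t * G u p t ω ^ 2 ≤ W t * (C ^ 2 * Real.exp t) :=
        mul_le_mul_of_nonneg_left e1 (hW0 t)
      have k2 : 0 ≤ W t * G u p t ω ^ 2 := mul_nonneg (hW0 t) e3
      have k3 : κ ^ 2 * G u p t ω ^ 2 ≤ κ ^ 2 * (C ^ 2 * Real.exp t) :=
        mul_le_mul_of_nonneg_left e1 (sq_nonneg κ)
      have k4 : 0 ≤ κ ^ 2 * G u p t ω ^ 2 := mul_nonneg (sq_nonneg κ) e3
      constructor <;> nlinarith
    · rw [indicator_of_notMem ht, (h3 (le_of_lt (not_le.1 ht))).1, (h3 (le_of_lt (not_le.1 ht))).2]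
      simp

include hu hc in
/-- lower bound for the density -/
lemma dens_ge {J M : ℕ} (p : Fin M → C(S2, ℝ))
    (hp : ∀ i j, ∫ ω, p i ω * p j ω ∂σ = if i = j then 1 else 0)
    (hang : ∀ F : E3 → ℝ, ContDiff ℝ 1 F →
      (J * (J + 1) : ℝ) * ∫ ω : S2, (F ω - ∑ i, (∫ ω' : S2, F ω' * p i ω' ∂σ) * p i ω) ^ 2 ∂σ
        ≤ ∫ ω : S2, tan2 F ω ∂σ) (t : ℝ) :
    ∑ i, ((deriv (coef u (p i)) t) ^ 2 + (1 / 2 : ℝ) ^ 2 * coef u (p i) t ^ 2
        - W t * coef u (p i) t ^ 2)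
      + ∫ ω : S2, (Gt u p t ω ^ 2 + ((J : ℝ) + 1 / 2) ^ 2 * G u p t ω ^ 2 - W t * G u p t ω ^ 2) ∂σ
      ≤ dens W u t := by
  have cG : Continuous (fun ω : S2 => G u p t ω) :=
    (cont_G hu hc p).comp (continuous_const.prodMk continuous_id)
  have cGt : Continuous (fun ω : S2 => Gt u p t ω) :=
    (cont_Gt hu p).comp (continuous_const.prodMk continuous_id)
  have iG : Integrable (fun ω : S2 => G u p t ω ^ 2) σ := int_cont (cG.pow 2)
  have iGt : Integrable (fun ω : S2 => Gt u p t ω ^ 2) σ := int_cont (cGt.pow 2)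
  have e1 := pyth p hp (cont_Vt1 hu t)
  have e2 := pyth p hp (cont_V1 hu t)
  have e3 := hang (resc u t) (contDiff_resc hu t)
  have f1 : ∫ ω : S2, (Vt u t ω - ∑ i, (∫ ω' : S2, Vt u t ω' * p i ω' ∂σ) * p i ω) ^ 2 ∂σ
      = ∫ ω : S2, Gt u p t ω ^ 2 ∂σ := rfl
  have f2 : ∫ ω : S2, (resc u t ω - ∑ i, (∫ ω' : S2, resc u t ω' * p i ω' ∂σ) * p i ω) ^ 2 ∂σ
      = ∫ ω : S2, G u p t ω ^ 2 ∂σ := rfl
  have f3 : ∑ i, (∫ ω : S2, Vt u t ω * p i ω ∂σ) ^ 2 = ∑ i, (deriv (coef u (p i)) t) ^ 2 :=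
    Finset.sum_congr rfl fun i _ => by rw [deriv_coef hu hc]; rfl
  have f4 : ∑ i, (∫ ω : S2, resc u t ω * p i ω ∂σ) ^ 2 = ∑ i, coef u (p i) t ^ 2 := rfl
  rw [f1, f3] at e1
  rw [f2, f4] at e2
  rw [f2] at e3
  have e4 : ∫ ω : S2, (Gt u p t ω ^ 2 + ((J : ℝ) + 1 / 2) ^ 2 * G u p t ω ^ 2
      - W t * G u p t ω ^ 2) ∂σ = ∫ ω : S2, Gt u p t ω ^ 2 ∂σ
      + (((J : ℝ) + 1 / 2) ^ 2 - W t) * ∫ ω : S2, G u p t ω ^ 2 ∂σ := by
    rw [← integral_const_mul, ← integral_add iGt (iG.const_mul _)]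
    exact integral_congr_ae (Filter.Eventually.of_forall fun ω => by simp only []; ring)
  have e5 : ∑ i, ((deriv (coef u (p i)) t) ^ 2 + (1 / 2 : ℝ) ^ 2 * coef u (p i) t ^ 2
        - W t * coef u (p i) t ^ 2) = ∑ i, (deriv (coef u (p i)) t) ^ 2
        + (1 / 4 - W t) * ∑ i, coef u (p i) t ^ 2 := by
    rw [Finset.mul_sum, ← Finset.sum_add_distrib]
    exact Finset.sum_congr rfl fun i _ => by ring
  rw [e4, e5, dens_eq hu t, e1, e2]
  linarith

include hWm hW0 hWi hu hc in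
/-- The cell inequality for one function. -/
lemma cell_one {J M : ℕ} (p : Fin M → C(S2, ℝ))
    (hp : ∀ i j, ∫ ω, p i ω * p j ω ∂σ = if i = j then 1 else 0)
    (hang : ∀ F : E3 → ℝ, ContDiff ℝ 1 F →
      (J * (J + 1) : ℝ) * ∫ ω : S2, (F ω - ∑ i, (∫ ω' : S2, F ω' * p i ω' ∂σ) * p i ω) ^ 2 ∂σ
        ≤ ∫ ω : S2, tan2 F ω ∂σ) (A : Set ℝ)
    (hα : ∀ v, Adm v → 0 ≤ Q W (J + 1 / 2) A v)
    (hβ : ∀ i, 0 ≤ Q W (1 / 2) A (coef u (p i))) :
    0 ≤ QQ W A u := by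
  have hrem := int_rem hWm hu hc p ((J : ℝ) + 1 / 2) hW0 hWi A
  set f : ℝ → S2 → ℝ := fun t ω =>
      Gt u p t ω ^ 2 + ((J : ℝ) + 1 / 2) ^ 2 * G u p t ω ^ 2 - W t * G u p t ω ^ 2 with hf
  have i1 : ∀ i, Integrable (fun t => (deriv (coef u (p i)) t) ^ 2
      + (1 / 2 : ℝ) ^ 2 * coef u (p i) t ^ 2 - W t * coef u (p i) t ^ 2) (volume.restrict A) :=
    fun i => (adm_int_Q hWm hW0 hWi (1 / 2) (adm_coef hu hc (p i))).restrict
  have i2 : Integrable (fun t => ∫ ω : S2, f t ω ∂σ) (volume.restrict A) :=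
    hrem.integral_prod_left
  have i3 : Integrable (dens W u) (volume.restrict A) := (int_dens hWm hW0 hWi hu hc).restrict
  have h1 : ∫ t in A, (∑ i, ((deriv (coef u (p i)) t) ^ 2 + (1 / 2 : ℝ) ^ 2 * coef u (p i) t ^ 2
        - W t * coef u (p i) t ^ 2) + ∫ ω : S2, f t ω ∂σ) ≤ ∫ t in A, dens W u t := by
    refine integral_mono ((integrable_finsetSum _ fun i _ => i1 i).add i2) i3 fun t => ?_
    exact dens_ge hu hc p hp hang t
  have h2 : ∫ t in A, (∑ i, ((deriv (coef u (p i)) t) ^ 2 + (1 / 2 : ℝ) ^ 2 * coef u (p i) t ^ 2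
        - W t * coef u (p i) t ^ 2) + ∫ ω : S2, f t ω ∂σ)
      = ∑ i, Q W (1 / 2) A (coef u (p i)) + ∫ t in A, ∫ ω : S2, f t ω ∂σ := by
    rw [integral_add (integrable_finsetSum _ fun i _ => i1 i) i2,
      integral_finsetSum _ fun i _ => i1 i]
    rfl
  have h3 : ∫ t in A, ∫ ω : S2, f t ω ∂σ = ∫ ω : S2, (∫ t in A, f t ω) ∂σ :=
    integral_integral_swap hrem
  have h4 : ∀ ω : S2, ∫ t in A, f t ω = Q W (J + 1 / 2) A (fun t => G u p t ω) := by
    intro ω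
    unfold Q
    refine integral_congr_ae (Filter.Eventually.of_forall fun t => ?_)
    simp only [hf]
    rw [(hasDerivAt_G hu hc p t ω).deriv]
  have h5 : 0 ≤ ∫ ω : S2, (∫ t in A, f t ω) ∂σ :=
    integral_nonneg fun ω => by
      simp only [Pi.zero_apply]
      rw [h4 ω]
      exact hα _ (adm_G hu hc p ω)
  have h6 : 0 ≤ ∑ i, Q W (1 / 2) A (coef u (p i)) := Finset.sum_nonneg fun i _ => hβ i
  unfold QQ
  rw [h2, h3] at h1
  linarith

end

/-- coefficient functions are linear in the function -/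
lemma coef_add {u w : E3 → ℝ} (hu : ContDiff ℝ 1 u) (hw : ContDiff ℝ 1 w) (p : C(S2, ℝ)) :
    coef (u + w) p = fun t => coef u p t + coef w p t := by
  ext t
  unfold coef
  have i1 : Integrable (fun ω : S2 => resc u t ω * p ω) σ := int_cont ((cont_V1 hu t).mul p.continuous)
  have i2 : Integrable (fun ω : S2 => resc w t ω * p ω) σ := int_cont ((cont_V1 hw t).mul p.continuous)
  rw [← integral_add i1 i2]
  refine integral_congr_ae (Filter.Eventually.of_forall fun ω => ?_)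
  simp only [resc, Pi.add_apply]; ring

lemma coef_smul {u : E3 → ℝ} (c : ℝ) (p : C(S2, ℝ)) :
    coef (c • u) p = fun t => c * coef u p t := by
  ext t
  unfold coef
  rw [← integral_const_mul]
  refine integral_congr_ae (Filter.Eventually.of_forall fun ω => ?_)
  simp only [resc, Pi.smul_apply, smul_eq_mul]; ring

/-- T3 (cell step), given the angular lemma. -/
theorem cell_of (W : ℝ → ℝ) (hWm : Measurable W) (hW0 : ∀ t, 0 ≤ W t)
    (hWi : Integrable (fun t => W t ^ ((3 : ℝ) / 2)))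
    (S : Submodule ℝ (E3 → ℝ))
    (hS : ∀ u ∈ S, ContDiff ℝ ((⊤ : ℕ∞) : WithTop ℕ∞) u ∧ HasCompactSupport u)
    (A : Set ℝ) (J : ℕ) (hang : Angular J)
    (hα : ∀ v, Adm v → 0 ≤ Q W (J + 1 / 2) A v)
    (hβ : ∃ v₀, Adm v₀ ∧ ∀ v, Adm v → B W A v₀ v = 0 → 0 ≤ Q W (1 / 2) A v) :
    Cod W S A (J ^ 2) := by
  obtain ⟨M, p, hM, hp, hF⟩ := hang
  obtain ⟨v₀, hv₀, hβ⟩ := hβ
  have hS1 : ∀ u : S, ContDiff ℝ 1 (u : E3 → ℝ) := fun u =>
    (hS u u.2).1.of_le (by exact_mod_cast le_top)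
  refine ⟨{ toFun := fun u k => if h : (k : ℕ) < M then B W A v₀ (coef (u : E3 → ℝ) (p ⟨k, h⟩)) else 0
            map_add' := ?_
            map_smul' := ?_ }, ?_⟩
  · intro u w
    ext k
    simp only [Pi.add_apply]
    by_cases h : (k : ℕ) < M
    · rw [dif_pos h, dif_pos h, dif_pos h, Submodule.coe_add, coef_add (hS1 u) (hS1 w),
        B_add hWm hW0 hWi A hv₀ (adm_coef (hS1 u) (hS u u.2).2 _) (adm_coef (hS1 w) (hS w w.2).2 _)]
    · rw [dif_neg h, dif_neg h, dif_neg h, add_zero]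
  · intro c u
    ext k
    simp only [Pi.smul_apply, RingHom.id_apply, smul_eq_mul]
    by_cases h : (k : ℕ) < M
    · rw [dif_pos h, dif_pos h, Submodule.coe_smul, coef_smul,
        B_const_mul A (adm_coef (hS1 u) (hS u u.2).2 _)]
    · rw [dif_neg h, dif_neg h, mul_zero]
  · intro u hΛ
    refine cell_one hWm hW0 hWi (hS1 u) (hS u u.2).2 p hp hF A hα fun i => ?_
    refine hβ _ (adm_coef (hS1 u) (hS u u.2).2 _) ?_
    have := congrFun hΛ ⟨i, lt_of_lt_of_le i.2 hM⟩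
    simpa using this

/-- T3' (union step). -/
theorem union_of (W : ℝ → ℝ) (hWm : Measurable W) (hW0 : ∀ t, 0 ≤ W t)
    (hWi : Integrable (fun t => W t ^ ((3 : ℝ) / 2)))
    (S : Submodule ℝ (E3 → ℝ))
    (hS : ∀ u ∈ S, ContDiff ℝ ((⊤ : ℕ∞) : WithTop ℕ∞) u ∧ HasCompactSupport u)
    (A A' : Set ℝ) (F G : ℕ) (hA' : MeasurableSet A')
    (hd : Disjoint A A') (h1 : Cod W S A F) (h2 : Cod W S A' G) :
    Cod W S (A ∪ A') (F + G) := by
  obtain ⟨Λ₁, h1⟩ := h1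
  obtain ⟨Λ₂, h2⟩ := h2
  have hS1 : ∀ u : S, ContDiff ℝ 1 (u : E3 → ℝ) := fun u =>
    (hS u u.2).1.of_le (by exact_mod_cast le_top)
  refine ⟨{ toFun := fun u => Fin.append (Λ₁ u) (Λ₂ u)
            map_add' := ?_
            map_smul' := ?_ }, ?_⟩
  · intro u w
    ext k
    refine Fin.addCases (fun i => ?_) (fun i => ?_) k <;> simp
  · intro c u
    ext k
    refine Fin.addCases (fun i => ?_) (fun i => ?_) k <;> simp
  · intro u hΛ
    have hΛ' : Fin.append (Λ₁ u) (Λ₂ u) = 0 := hΛ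
    have e1 : Λ₁ u = 0 := by
      ext i
      have := congrFun hΛ' (Fin.castAdd G i)
      simpa using this
    have e2 : Λ₂ u = 0 := by
      ext i
      have := congrFun hΛ' (Fin.natAdd F i)
      simpa using this
    have k1 := h1 u e1
    have k2 := h2 u e2
    have hi := int_dens hWm hW0 hWi (hS1 u) (hS u u.2).2
    unfold QQ at k1 k2 ⊢
    rw [setIntegral_union hd hA' hi.integrableOn hi.integrableOn]
    linarith

end

end Pool.Agent.CLR3.Cell
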