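import Pool.Agent.CLR3.CellBasic

/-! Admissible functions, integrability (part of T3). -/

open MeasureTheory Set Metric

namespace Pool.Agent.CLR3.Cell

open Pool.Agent.CLR3

noncomputable section

/-! ### Integrability on the line -/

lemma int_ind (T : ℝ) : Integrable ((Iic T).indicator Real.exp) :=
  (integrable_indicator_iff measurableSet_Iic).2 (integrableOn_exp_Iic T)

lemma W_mul_exp_le {w : ℝ} (hw : 0 ≤ w) (t : ℝ) :
    w * Real.exp t ≤ w ^ ((3 : ℝ) / 2) + Real.exp (3 * t) := by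
  have he : 0 < Real.exp t := Real.exp_pos t
  have e3 : Real.exp (3 * t) = Real.exp t ^ 3 := by
    rw [← Real.exp_nat_mul]; congr 1
  have hw32 : w ^ ((3 : ℝ) / 2) = w * Real.sqrt w := by
    rw [Real.sqrt_eq_rpow]
    rcases hw.eq_or_lt with h | h
    · rw [← h, Real.zero_rpow (by norm_num), zero_mul]
    · nth_rewrite 2 [← Real.rpow_one w]
      rw [← Real.rpow_add h]; norm_num
  by_cases h : Real.exp t ≤ Real.sqrt w
  · have h1 : w * Real.exp t ≤ w * Real.sqrt w := mul_le_mul_of_nonneg_left h hw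
    have h2 : 0 < Real.exp (3 * t) := Real.exp_pos _
    rw [hw32]; linarith
  · push Not at h
    have h1 : w ≤ Real.exp t ^ 2 := by
      have := Real.sq_sqrt hw
      have h3 : Real.sqrt w ^ 2 ≤ Real.exp t ^ 2 := pow_le_pow_left₀ (Real.sqrt_nonneg _) h.le 2
      linarith
    have h2 : 0 ≤ w ^ ((3 : ℝ) / 2) := Real.rpow_nonneg hw _
    have h4 : w * Real.exp t ≤ Real.exp t ^ 2 * Real.exp t := mul_le_mul_of_nonneg_right h1 he.le
    rw [e3]
    nlinarith

section W

variable {W : ℝ → ℝ} (hWm : Measurable W) (hW0 : ∀ t, 0 ≤ W t)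
  (hWi : Integrable (fun t => W t ^ ((3 : ℝ) / 2)))

include hWm hW0 hWi in
lemma int_W_ind (T : ℝ) : Integrable (fun t => W t * (Iic T).indicator Real.exp t) := by
  have h3 : Integrable ((Iic T).indicator (fun t => Real.exp (3 * t))) :=
    (integrable_indicator_iff measurableSet_Iic).2 (integrableOn_exp_mul_Iic (by norm_num) T)
  refine (hWi.add h3).mono' ?_ (Filter.Eventually.of_forall fun t => ?_)
  · exact (hWm.mul (Real.measurable_exp.indicator measurableSet_Iic)).aestronglyMeasurable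
  · simp only [Pi.add_apply]
    by_cases h : t ∈ Iic T
    · rw [indicator_of_mem h, indicator_of_mem h, Real.norm_eq_abs,
        abs_of_nonneg (mul_nonneg (hW0 t) (Real.exp_pos t).le)]
      exact W_mul_exp_le (hW0 t) t
    · rw [indicator_of_notMem h, indicator_of_notMem h]
      simp only [mul_zero, norm_zero, add_zero]
      exact Real.rpow_nonneg (hW0 t) _

lemma le_ind {f : ℝ → ℝ} {C T : ℝ} (hb : ∀ t, |f t| ≤ C * Real.exp t)
    (hz : ∀ t, T ≤ t → f t = 0) (t : ℝ) : |f t| ≤ C * (Iic T).indicator Real.exp t := by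
  by_cases h : t ∈ Iic T
  · rw [indicator_of_mem h]; exact hb t
  · rw [indicator_of_notMem h, mul_zero, hz t (le_of_lt (not_le.1 h)), abs_zero]

lemma int_line {f : ℝ → ℝ} {C T : ℝ} (hf : Continuous f) (hb : ∀ t, |f t| ≤ C * Real.exp t)
    (hz : ∀ t, T ≤ t → f t = 0) : Integrable f := by
  refine ((int_ind T).const_mul C).mono' hf.aestronglyMeasurable (Filter.Eventually.of_forall fun t => ?_)
  exact le_ind hb hz t

include hWm hW0 hWi in
lemma int_W_line {f : ℝ → ℝ} {C T : ℝ} (hf : Continuous f) (hb : ∀ t, |f t| ≤ C * Real.exp t)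
    (hz : ∀ t, T ≤ t → f t = 0) : Integrable (fun t => W t * f t) := by
  refine ((int_W_ind hWm hW0 hWi T).const_mul C).mono'
    (hWm.mul hf.measurable).aestronglyMeasurable (Filter.Eventually.of_forall fun t => ?_)
  rw [Real.norm_eq_abs, abs_mul, abs_of_nonneg (hW0 t)]
  have := mul_le_mul_of_nonneg_left (le_ind hb hz t) (hW0 t)
  linarith

end W

/-! ### Adm -/

lemma exp_half_sq (t : ℝ) : Real.exp (t / 2) * Real.exp (t / 2) = Real.exp t := by
  rw [← Real.exp_add]; congr 1; ring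

lemma adm_diff {v : ℝ → ℝ} (hv : Adm v) : Differentiable ℝ v :=
  hv.cd.differentiable (by norm_num)

lemma adm_cd {v : ℝ → ℝ} (hv : Adm v) : Continuous (deriv v) :=
  hv.cd.continuous_deriv (by norm_num)

/-- bounds in uniform form, the derivative vanishes as well -/
lemma adm_bd {v : ℝ → ℝ} (hv : Adm v) : ∃ C T : ℝ, 0 ≤ C ∧ (∀ t, |v t| ≤ C * Real.exp (t / 2)) ∧
    (∀ t, |deriv v t| ≤ C * Real.exp (t / 2)) ∧ (∀ t, T ≤ t → v t = 0) ∧
    (∀ t, T ≤ t → deriv v t = 0) := by
  obtain ⟨C, T, h⟩ := hv.bd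
  have hC : 0 ≤ C := by
    by_contra hneg
    push Not at hneg
    have := (abs_nonneg _).trans (h 0).1
    have h2 : C * Real.exp (0 / 2) < 0 := mul_neg_of_neg_of_pos hneg (Real.exp_pos _)
    linarith
  refine ⟨C, T + 1, hC, fun t => (h t).1, fun t => (h t).2.1, fun t ht => (h t).2.2 (by linarith),
    fun t ht => ?_⟩
  have : v =ᶠ[nhds t] fun _ => 0 := by
    filter_upwards [Ioi_mem_nhds (show T < t by linarith)] with s hs
    exact (h s).2.2 (le_of_lt hs)
  rw [this.deriv_eq]; simp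

lemma adm_of {v v' : ℝ → ℝ} {C T : ℝ} (hd : ∀ t, HasDerivAt v (v' t) t) (hc : Continuous v')
    (h1 : ∀ t, |v t| ≤ C * Real.exp (t / 2)) (h2 : ∀ t, |v' t| ≤ C * Real.exp (t / 2))
    (h3 : ∀ t, T ≤ t → v t = 0) : Adm v := by
  have hdv : deriv v = v' := funext fun t => (hd t).deriv
  refine ⟨contDiff_one_iff_deriv.2 ⟨fun t => (hd t).differentiableAt, by rw [hdv]; exact hc⟩,
    C, T, fun t => ⟨h1 t, by rw [hdv]; exact h2 t, h3 t⟩⟩

lemma adm_add {v w : ℝ → ℝ} (hv : Adm v) (hw : Adm w) : Adm (fun t => v t + w t) := by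
  obtain ⟨C, T, hC, h1, h2, h3, h4⟩ := adm_bd hv
  obtain ⟨C', T', hC', h1', h2', h3', h4'⟩ := adm_bd hw
  refine adm_of (v' := fun t => deriv v t + deriv w t) (C := C + C') (T := max T T')
    (fun t => (adm_diff hv t).hasDerivAt.add (adm_diff hw t).hasDerivAt)
    ((adm_cd hv).add (adm_cd hw)) (fun t => ?_) (fun t => ?_) (fun t ht => ?_)
  · have := abs_add_le (v t) (w t)
    have := h1 t; have := h1' t; linarith
  · have := abs_add_le (deriv v t) (deriv w t)
    have := h2 t; have := h2' t; linarith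
  · rw [h3 t (le_trans (le_max_left _ _) ht), h3' t (le_trans (le_max_right _ _) ht), add_zero]

lemma adm_cm {v : ℝ → ℝ} (hv : Adm v) (c : ℝ) : Adm (fun t => c * v t) := by
  obtain ⟨C, T, hC, h1, h2, h3, h4⟩ := adm_bd hv
  refine adm_of (v' := fun t => c * deriv v t) (C := |c| * C) (T := T)
    (fun t => (adm_diff hv t).hasDerivAt.const_mul c)
    (continuous_const.mul (adm_cd hv)) (fun t => ?_) (fun t => ?_) (fun t ht => ?_)
  · rw [abs_mul, mul_assoc]; exact mul_le_mul_of_nonneg_left (h1 t) (abs_nonneg c)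
  · rw [abs_mul, mul_assoc]; exact mul_le_mul_of_nonneg_left (h2 t) (abs_nonneg c)
  · rw [h3 t ht, mul_zero]

lemma adm_zero : Adm (fun _ => 0) := by
  refine adm_of (v' := fun _ => 0) (C := 0) (T := 0) (fun t => hasDerivAt_const t 0) continuous_const
    (fun t => by simp) (fun t => by simp) (fun t _ => rfl)

lemma adm_sum {ι : Type*} (s : Finset ι) {v : ι → ℝ → ℝ} (hv : ∀ i ∈ s, Adm (v i)) :
    Adm (fun t => ∑ i ∈ s, v i t) := by
  classical
  induction s using Finset.induction_on with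
  | empty => simpa using adm_zero
  | insert a s ha ih =>
    have h := adm_add (hv a (Finset.mem_insert_self a s))
      (ih fun i hi => hv i (Finset.mem_insert_of_mem hi))
    simpa [Finset.sum_insert ha] using h

lemma deriv_add' {v w : ℝ → ℝ} (hv : Adm v) (hw : Adm w) (t : ℝ) :
    deriv (fun t => v t + w t) t = deriv v t + deriv w t :=
  ((adm_diff hv t).hasDerivAt.add (adm_diff hw t).hasDerivAt).deriv

/-! ### pair integrability -/

lemma adm_int_mul {v w : ℝ → ℝ} (hv : Adm v) (hw : Adm w) :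
    Integrable (fun t => v t * w t) := by
  obtain ⟨C, T, hC, h1, h2, h3, h4⟩ := adm_bd hv
  obtain ⟨C', T', hC', h1', h2', h3', h4'⟩ := adm_bd hw
  refine int_line (C := C * C') (T := T) (hv.cd.continuous.mul hw.cd.continuous) (fun t => ?_)
    (fun t ht => by rw [h3 t ht, zero_mul])
  rw [abs_mul]
  have := mul_le_mul (h1 t) (h1' t) (abs_nonneg _) (by positivity)
  rw [← exp_half_sq]; linarith

lemma adm_int_deriv_mul {v w : ℝ → ℝ} (hv : Adm v) (hw : Adm w) :
    Integrable (fun t => deriv v t * deriv w t) := by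
  obtain ⟨C, T, hC, h1, h2, h3, h4⟩ := adm_bd hv
  obtain ⟨C', T', hC', h1', h2', h3', h4'⟩ := adm_bd hw
  refine int_line (C := C * C') (T := T) ((adm_cd hv).mul (adm_cd hw)) (fun t => ?_)
    (fun t ht => by rw [h4 t ht, zero_mul])
  rw [abs_mul]
  have := mul_le_mul (h2 t) (h2' t) (abs_nonneg _) (by positivity)
  rw [← exp_half_sq]; linarith

lemma adm_int_W_mul {W : ℝ → ℝ} (hWm : Measurable W) (hW0 : ∀ t, 0 ≤ W t)
    (hWi : Integrable (fun t => W t ^ ((3 : ℝ) / 2))) {v w : ℝ → ℝ} (hv : Adm v) (hw : Adm w) :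
    Integrable (fun t => W t * (v t * w t)) := by
  obtain ⟨C, T, hC, h1, h2, h3, h4⟩ := adm_bd hv
  obtain ⟨C', T', hC', h1', h2', h3', h4'⟩ := adm_bd hw
  refine int_W_line hWm hW0 hWi (C := C * C') (T := T) (hv.cd.continuous.mul hw.cd.continuous)
    (fun t => ?_) (fun t ht => by rw [h3 t ht, zero_mul])
  rw [abs_mul]
  have := mul_le_mul (h1 t) (h1' t) (abs_nonneg _) (by positivity)
  rw [← exp_half_sq]; linarith

lemma adm_int_B {W : ℝ → ℝ} (hWm : Measurable W) (hW0 : ∀ t, 0 ≤ W t)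
    (hWi : Integrable (fun t => W t ^ ((3 : ℝ) / 2))) {v w : ℝ → ℝ} (hv : Adm v) (hw : Adm w) :
    Integrable (fun t => deriv v t * deriv w t + (1 / 4) * (v t * w t) - W t * (v t * w t)) :=
  ((adm_int_deriv_mul hv hw).add ((adm_int_mul hv hw).const_mul (1 / 4))).sub
    (adm_int_W_mul hWm hW0 hWi hv hw)

lemma adm_int_Q {W : ℝ → ℝ} (hWm : Measurable W) (hW0 : ∀ t, 0 ≤ W t)
    (hWi : Integrable (fun t => W t ^ ((3 : ℝ) / 2))) (κ : ℝ) {v : ℝ → ℝ} (hv : Adm v) :
    Integrable (fun t => (deriv v t) ^ 2 + κ ^ 2 * v t ^ 2 - W t * v t ^ 2) := by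
  have h := ((adm_int_deriv_mul hv hv).add ((adm_int_mul hv hv).const_mul (κ ^ 2))).sub
    (adm_int_W_mul hWm hW0 hWi hv hv)
  refine h.congr (Filter.Eventually.of_forall fun t => ?_)
  simp only [Pi.add_apply, Pi.sub_apply]
  ring

lemma B_add {W : ℝ → ℝ} (hWm : Measurable W) (hW0 : ∀ t, 0 ≤ W t)
    (hWi : Integrable (fun t => W t ^ ((3 : ℝ) / 2))) (A : Set ℝ) {v₀ v w : ℝ → ℝ} (h0 : Adm v₀)
    (hv : Adm v) (hw : Adm w) :
    B W A v₀ (fun t => v t + w t) = B W A v₀ v + B W A v₀ w := by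
  unfold B
  rw [← integral_add (adm_int_B hWm hW0 hWi h0 hv).integrableOn
    (adm_int_B hWm hW0 hWi h0 hw).integrableOn]
  refine integral_congr_ae (Filter.Eventually.of_forall fun t => ?_)
  simp only []
  rw [deriv_add' hv hw]
  ring

lemma B_const_mul {W : ℝ → ℝ} (A : Set ℝ) {v₀ v : ℝ → ℝ} (hv : Adm v) (c : ℝ) :
    B W A v₀ (fun t => c * v t) = c * B W A v₀ v := by
  unfold B
  rw [← integral_const_mul]
  refine integral_congr_ae (Filter.Eventually.of_forall fun t => ?_)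
  simp only []
  rw [((adm_diff hv t).hasDerivAt.const_mul c).deriv]
  ring

end

end Pool.Agent.CLR3.Cell
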