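import Pool.Agent.CLR3.Defs

/-! Basic facts on the rescaled test functions (part of T3). -/

open MeasureTheory Set Metric

namespace Pool.Agent.CLR3.Cell

open Pool.Agent.CLR3

noncomputable section

instance instFinσ : IsFiniteMeasure σ := by unfold σ; infer_instance

/-- `V u t x = resc u t x`, its `t`-derivative. -/
def Vt (u : E3 → ℝ) (t : ℝ) (x : E3) : ℝ := resc u t x / 2 + fderiv ℝ (resc u t) x x

section basic

variable {u : E3 → ℝ}

lemma hasFDerivAt_resc (hu : ContDiff ℝ 1 u) (t : ℝ) (x : E3) :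
    HasFDerivAt (resc u t) (Real.exp (t / 2) • (Real.exp t • fderiv ℝ u (Real.exp t • x))) x := by
  have h1 : HasFDerivAt u (fderiv ℝ u (Real.exp t • x)) (Real.exp t • x) :=
    ((hu.differentiable (by norm_num)) _).hasFDerivAt
  have h2 : HasFDerivAt (fun y : E3 => Real.exp t • y) (Real.exp t • ContinuousLinearMap.id ℝ E3) x :=
    (hasFDerivAt_id x).const_smul (Real.exp t)
  have h3 := (h1.comp x h2).const_mul (Real.exp (t / 2))
  refine h3.congr_fderiv ?_
  ext y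
  simp

lemma fderiv_resc (hu : ContDiff ℝ 1 u) (t : ℝ) (x : E3) :
    fderiv ℝ (resc u t) x = Real.exp (t / 2) • (Real.exp t • fderiv ℝ u (Real.exp t • x)) :=
  (hasFDerivAt_resc hu t x).fderiv

lemma contDiff_resc (hu : ContDiff ℝ 1 u) (t : ℝ) : ContDiff ℝ 1 (resc u t) := by
  unfold resc
  have h : ContDiff ℝ 1 (fun x : E3 => Real.exp t • x) := contDiff_id.const_smul (Real.exp t)
  exact contDiff_const.mul (hu.comp h)

lemma Vt_eq (hu : ContDiff ℝ 1 u) (t : ℝ) (x : E3) :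
    Vt u t x = Real.exp (t / 2) * (u (Real.exp t • x) / 2
      + Real.exp t * fderiv ℝ u (Real.exp t • x) x) := by
  unfold Vt
  rw [fderiv_resc hu]
  simp [resc]
  ring

lemma hasDerivAt_resc (hu : ContDiff ℝ 1 u) (t : ℝ) (x : E3) :
    HasDerivAt (fun s => resc u s x) (Vt u t x) t := by
  have h1 : HasFDerivAt u (fderiv ℝ u (Real.exp t • x)) (Real.exp t • x) :=
    ((hu.differentiable (by norm_num)) _).hasFDerivAt
  have h2 : HasDerivAt (fun s : ℝ => Real.exp s • x) (Real.exp t • x) t :=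
    (Real.hasDerivAt_exp t).smul_const x
  have h3 : HasDerivAt (fun s => u (Real.exp s • x)) (fderiv ℝ u (Real.exp t • x) (Real.exp t • x)) t :=
    h1.comp_hasDerivAt t h2
  have h4 : HasDerivAt (fun s : ℝ => Real.exp (s / 2)) (Real.exp (t / 2) * (1 / 2)) t :=
    ((hasDerivAt_id t).div_const 2).exp
  have h5 := h4.mul h3
  rw [Vt_eq hu]
  refine h5.congr_deriv ?_
  simp
  ring

lemma continuous_resc (hu : ContDiff ℝ 1 u) : Continuous (fun z : ℝ × E3 => resc u z.1 z.2) := by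
  unfold resc
  have := hu.continuous
  fun_prop

lemma continuous_fderiv_u (hu : ContDiff ℝ 1 u) : Continuous (fderiv ℝ u) :=
  hu.continuous_fderiv (by norm_num)

lemma continuous_Vt (hu : ContDiff ℝ 1 u) : Continuous (fun z : ℝ × E3 => Vt u z.1 z.2) := by
  have h : (fun z : ℝ × E3 => Vt u z.1 z.2) = fun z : ℝ × E3 =>
      Real.exp (z.1 / 2) * (u (Real.exp z.1 • z.2) / 2
      + Real.exp z.1 * fderiv ℝ u (Real.exp z.1 • z.2) z.2) := by
    ext z; exact Vt_eq hu z.1 z.2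
  rw [h]
  have h1 := hu.continuous
  have h2 := continuous_fderiv_u hu
  have h3 : Continuous (fun z : ℝ × E3 => fderiv ℝ u (Real.exp z.1 • z.2) z.2) :=
    (h2.comp (by fun_prop : Continuous fun z : ℝ × E3 => Real.exp z.1 • z.2)).clm_apply continuous_snd
  fun_prop

lemma tan2_resc (hu : ContDiff ℝ 1 u) (t : ℝ) (x : E3) :
    tan2 (resc u t) x = Real.exp t * Real.exp (2 * t) * tan2 u (Real.exp t • x) / Real.exp (2 * t) := by
  unfold tan2
  rw [fderiv_resc hu]
  have e1 : Real.exp (t / 2) ^ 2 = Real.exp t := by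
    rw [← Real.exp_nat_mul]; congr 1; push_cast; ring
  have e2 : Real.exp t ^ 2 = Real.exp (2 * t) := by
    rw [← Real.exp_nat_mul]; congr 1
  have e3 : Real.exp (2 * t) ≠ 0 := (Real.exp_pos _).ne'
  rw [eq_div_iff e3, ← e2, ← e1]
  simp only [norm_smul, Real.norm_eq_abs, abs_of_pos (Real.exp_pos _), smul_apply,
    smul_eq_mul, map_smul]
  ring

lemma continuous_tan2 (hu : ContDiff ℝ 1 u) :
    Continuous (fun z : ℝ × E3 => tan2 (resc u z.1) z.2) := by
  have h : (fun z : ℝ × E3 => tan2 (resc u z.1) z.2) = fun z : ℝ × E3 =>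
      ‖z.2‖ ^ 2 * ‖Real.exp (z.1 / 2) • (Real.exp z.1 • fderiv ℝ u (Real.exp z.1 • z.2))‖ ^ 2
       - (Real.exp (z.1 / 2) • (Real.exp z.1 • fderiv ℝ u (Real.exp z.1 • z.2))) z.2 ^ 2 := by
    ext z; unfold tan2; rw [fderiv_resc hu]
  rw [h]
  have h2 := continuous_fderiv_u hu
  have h4 : Continuous (fun z : ℝ × E3 =>
      Real.exp (z.1 / 2) • (Real.exp z.1 • fderiv ℝ u (Real.exp z.1 • z.2))) := by
    fun_prop
  have h3 := h4.clm_apply (continuous_snd (X := ℝ) (Y := E3))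
  fun_prop

lemma bounds (hu : ContDiff ℝ 1 u) (hc : HasCompactSupport u) :
    ∃ C T : ℝ, 0 ≤ C ∧ ∀ (t : ℝ) (ω : S2), |resc u t ω| ≤ C * Real.exp (t / 2) ∧
      |Vt u t ω| ≤ C * Real.exp (t / 2) ∧ |tan2 (resc u t) ω| ≤ C * Real.exp t ∧
      (T ≤ t → resc u t ω = 0 ∧ Vt u t ω = 0 ∧ tan2 (resc u t) ω = 0) := by
  obtain ⟨C₁, hC₁⟩ := hc.exists_bound_of_continuous hu.continuous
  obtain ⟨C₂, hC₂⟩ := (hc.fderiv (𝕜 := ℝ)).exists_bound_of_continuous (continuous_fderiv_u hu)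
  obtain ⟨R, hR⟩ := hc.isCompact.isBounded.subset_closedBall (0 : E3)
  have hC₁0 : 0 ≤ C₁ := (norm_nonneg _).trans (hC₁ 0)
  have hC₂0 : 0 ≤ C₂ := (norm_nonneg _).trans (hC₂ 0)
  have hz : ∀ (t : ℝ) (ω : S2), R < Real.exp t →
      u (Real.exp t • (ω : E3)) = 0 ∧ fderiv ℝ u (Real.exp t • (ω : E3)) = 0 := by
    intro t ω ht
    have hn : ‖Real.exp t • (ω : E3)‖ = Real.exp t := by
      rw [norm_smul, Real.norm_eq_abs, abs_of_pos (Real.exp_pos _)]
      have : ‖(ω : E3)‖ = 1 := by simp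
      rw [this, mul_one]
    have hns : Real.exp t • (ω : E3) ∉ tsupport u := by
      intro hmem
      have := hR hmem
      rw [mem_closedBall_zero_iff, hn] at this
      linarith
    refine ⟨image_eq_zero_of_notMem_tsupport hns, ?_⟩
    by_contra hne
    exact hns (support_fderiv_subset ℝ (Function.mem_support.2 hne))
  set R' := max R 0 with hR'
  have hR'0 : 0 ≤ R' := le_max_right _ _
  set C := C₁ + R' * C₂ + R' ^ 2 * C₂ ^ 2 with hC
  have hC0 : 0 ≤ C := by positivity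
  refine ⟨C, R', hC0, fun t ω => ?_⟩
  have hω : ‖(ω : E3)‖ = 1 := by simp
  have hV : |resc u t ω| ≤ C * Real.exp (t / 2) := by
    unfold resc
    rw [abs_mul, abs_of_pos (Real.exp_pos _), mul_comm]
    refine mul_le_mul_of_nonneg_right ?_ (Real.exp_pos _).le
    have := hC₁ (Real.exp t • (ω : E3))
    rw [Real.norm_eq_abs] at this
    have h2 : 0 ≤ R' * C₂ + R' ^ 2 * C₂ ^ 2 := by positivity
    linarith
  have htan0 : |tan2 (resc u t) ω| ≤ ‖fderiv ℝ (resc u t) (ω : E3)‖ ^ 2 := by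
    have h1 : |fderiv ℝ (resc u t) (ω : E3) (ω : E3)| ≤ ‖fderiv ℝ (resc u t) (ω : E3)‖ := by
      have := (fderiv ℝ (resc u t) (ω : E3)).le_opNorm (ω : E3)
      rwa [hω, mul_one, Real.norm_eq_abs] at this
    have h2 : (fderiv ℝ (resc u t) (ω : E3) (ω : E3)) ^ 2 ≤ ‖fderiv ℝ (resc u t) (ω : E3)‖ ^ 2 := by
      rw [← sq_abs]
      exact pow_le_pow_left₀ (abs_nonneg _) h1 2
    unfold tan2
    rw [hω, abs_le]
    constructor <;> nlinarith [sq_nonneg (fderiv ℝ (resc u t) (ω : E3) (ω : E3))]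
  have hfn : ‖fderiv ℝ (resc u t) (ω : E3)‖ =
      Real.exp (t / 2) * (Real.exp t * ‖fderiv ℝ u (Real.exp t • (ω : E3))‖) := by
    rw [fderiv_resc hu, norm_smul, norm_smul, Real.norm_eq_abs, Real.norm_eq_abs,
      abs_of_pos (Real.exp_pos _), abs_of_pos (Real.exp_pos _)]
  have hkey : Real.exp t * ‖fderiv ℝ u (Real.exp t • (ω : E3))‖ ≤ R' * C₂ := by
    by_cases h : R < Real.exp t
    · rw [(hz t ω h).2, norm_zero, mul_zero]; positivity
    · push Not at h
      exact mul_le_mul (h.trans (le_max_left _ _)) (hC₂ _) (norm_nonneg _) hR'0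
  have hkey0 : 0 ≤ Real.exp t * ‖fderiv ℝ u (Real.exp t • (ω : E3))‖ := by positivity
  have hVt : |Vt u t ω| ≤ C * Real.exp (t / 2) := by
    rw [Vt_eq hu, abs_mul, abs_of_pos (Real.exp_pos _), mul_comm]
    refine mul_le_mul_of_nonneg_right ?_ (Real.exp_pos _).le
    have h1 := hC₁ (Real.exp t • (ω : E3))
    rw [Real.norm_eq_abs] at h1
    have h2 : |Real.exp t * fderiv ℝ u (Real.exp t • (ω : E3)) (ω : E3)| ≤
        Real.exp t * ‖fderiv ℝ u (Real.exp t • (ω : E3))‖ := by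
      rw [abs_mul, abs_of_pos (Real.exp_pos _)]
      refine mul_le_mul_of_nonneg_left ?_ (Real.exp_pos _).le
      have := (fderiv ℝ u (Real.exp t • (ω : E3))).le_opNorm (ω : E3)
      rwa [hω, mul_one, Real.norm_eq_abs] at this
    have h3 := abs_add_le (u (Real.exp t • (ω : E3)) / 2)
      (Real.exp t * fderiv ℝ u (Real.exp t • (ω : E3)) (ω : E3))
    have h4 : |u (Real.exp t • (ω : E3)) / 2| ≤ C₁ := by
      rw [abs_div, abs_two]; linarith
    have h5 : 0 ≤ R' ^ 2 * C₂ ^ 2 := by positivity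
    linarith
  have htan : |tan2 (resc u t) ω| ≤ C * Real.exp t := by
    refine htan0.trans ?_
    rw [hfn, mul_pow, mul_comm]
    have e1 : Real.exp (t / 2) ^ 2 = Real.exp t := by
      rw [← Real.exp_nat_mul]; congr 1; push_cast; ring
    rw [e1]
    refine mul_le_mul_of_nonneg_right ?_ (Real.exp_pos _).le
    have h1 : (Real.exp t * ‖fderiv ℝ u (Real.exp t • (ω : E3))‖) ^ 2 ≤ (R' * C₂) ^ 2 :=
      pow_le_pow_left₀ hkey0 hkey 2
    have h2 : 0 ≤ C₁ + R' * C₂ := by positivity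
    nlinarith
  refine ⟨hV, hVt, htan, fun hT => ?_⟩
  have hlt : R < Real.exp t := by
    have h1 : t + 1 ≤ Real.exp t := Real.add_one_le_exp t
    have h2 : R ≤ R' := le_max_left _ _
    linarith
  obtain ⟨hz1, hz2⟩ := hz t ω hlt
  refine ⟨?_, ?_, ?_⟩
  · simp [resc, hz1]
  · rw [Vt_eq hu, hz1, hz2]; simp
  · have : |tan2 (resc u t) ω| ≤ 0 := by
      refine htan0.trans ?_
      rw [hfn, hz2]; simp
    exact abs_nonpos_iff.1 this

end basic

end

end Pool.Agent.CLR3.Cell
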