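import Pool.Agent.CLR3.CellAdm

/-! Coefficient functions on the sphere, Pythagoras (part of T3). -/

open MeasureTheory Set Metric

namespace Pool.Agent.CLR3.Cell

open Pool.Agent.CLR3

noncomputable section

lemma int_cont {f : S2 → ℝ} (hf : Continuous f) : Integrable f σ :=
  hf.integrable_of_hasCompactSupport (HasCompactSupport.of_compactSpace f)

lemma cont_param {f : ℝ → S2 → ℝ} (hf : Continuous (Function.uncurry f)) :
    Continuous (fun t => ∫ ω, f t ω ∂σ) := by
  have h := continuous_parametric_integral_of_continuous (μ := σ) hf (isCompact_univ (X := S2))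
  simpa [Measure.restrict_univ] using h

lemma abs_int_le {f : S2 → ℝ} {K : ℝ} (h : ∀ ω, |f ω| ≤ K) : |∫ ω, f ω ∂σ| ≤ K * σ.real univ := by
  have := norm_integral_le_of_norm_le_const (μ := σ) (f := f) (C := K)
    (Filter.Eventually.of_forall fun ω => by rw [Real.norm_eq_abs]; exact h ω)
  simpa [Real.norm_eq_abs] using this

section coef

variable {u : E3 → ℝ} (hu : ContDiff ℝ 1 u) (hc : HasCompactSupport u)

/-- coefficient of the rescaled function on the sphere -/
def coef (u : E3 → ℝ) (p : C(S2, ℝ)) (t : ℝ) : ℝ := ∫ ω : S2, resc u t ω * p ω ∂σ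

/-- its derivative -/
def coef' (u : E3 → ℝ) (p : C(S2, ℝ)) (t : ℝ) : ℝ := ∫ ω : S2, Vt u t ω * p ω ∂σ

include hu in
lemma cont_V2 : Continuous (fun z : ℝ × S2 => resc u z.1 z.2) :=
  (continuous_resc hu).comp (continuous_fst.prodMk (continuous_subtype_val.comp continuous_snd))

include hu in
lemma cont_Vt2 : Continuous (fun z : ℝ × S2 => Vt u z.1 z.2) :=
  (continuous_Vt hu).comp (continuous_fst.prodMk (continuous_subtype_val.comp continuous_snd))

include hu in
lemma cont_tan2 : Continuous (fun z : ℝ × S2 => tan2 (resc u z.1) z.2) := by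
  have h := (continuous_tan2 hu).comp (f := fun z : ℝ × S2 => ((z.1, (z.2 : E3)) : ℝ × E3))
    (continuous_fst.prodMk (continuous_subtype_val.comp continuous_snd))
  simpa only [Function.comp_def] using h

include hu in
lemma cont_V1 (t : ℝ) : Continuous (fun ω : S2 => resc u t ω) :=
  (cont_V2 hu).comp (continuous_const.prodMk continuous_id)

include hu in
lemma cont_Vt1 (t : ℝ) : Continuous (fun ω : S2 => Vt u t ω) :=
  (cont_Vt2 hu).comp (continuous_const.prodMk continuous_id)

include hu in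
lemma cont_tan1 (t : ℝ) : Continuous (fun ω : S2 => tan2 (resc u t) ω) := by
  have h := (cont_tan2 hu).comp (f := fun ω : S2 => ((t, ω) : ℝ × S2))
    (continuous_const.prodMk continuous_id)
  simpa only [Function.comp_def] using h

include hu hc in
lemma adm_V (ω : S2) : Adm (fun t => resc u t ω) := by
  obtain ⟨C, T, hC, h⟩ := bounds hu hc
  exact adm_of (v' := fun t => Vt u t ω) (C := C) (T := T) (fun t => hasDerivAt_resc hu t ω)
    ((cont_Vt2 hu).comp (continuous_id.prodMk continuous_const))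
    (fun t => (h t ω).1) (fun t => (h t ω).2.1) (fun t ht => ((h t ω).2.2.2 ht).1)

include hu in
lemma cont_coef' (p : C(S2, ℝ)) : Continuous (coef' u p) := by
  unfold coef'
  exact cont_param (f := fun t ω => Vt u t ω * p ω)
    ((cont_Vt2 hu).mul (p.continuous.comp continuous_snd))

include hu hc in
lemma hasDerivAt_coef (p : C(S2, ℝ)) (t : ℝ) : HasDerivAt (coef u p) (coef' u p t) t := by
  obtain ⟨C, T, hC, h⟩ := bounds hu hc
  have key := hasDerivAt_integral_of_dominated_loc_of_deriv_le (μ := σ) (𝕜 := ℝ) (s := ball t 1)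
    (x₀ := t) (F := fun s (ω : S2) => resc u s ω * p ω) (F' := fun s (ω : S2) => Vt u s ω * p ω)
    (bound := fun _ => C * Real.exp ((t + 1) / 2) * ‖p‖) (ball_mem_nhds t one_pos)
    (Filter.Eventually.of_forall fun s =>
      ((cont_V1 hu s).mul p.continuous).aestronglyMeasurable)
    (int_cont ((cont_V1 hu t).mul p.continuous))
    ((cont_Vt1 hu t).mul p.continuous).aestronglyMeasurable
    (Filter.Eventually.of_forall fun ω s hs => ?_) (integrable_const _)
    (Filter.Eventually.of_forall fun ω s hs => (hasDerivAt_resc hu s ω).mul_const (p ω))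
  · exact key.2
  · rw [norm_mul]
    have hs' : s ≤ t + 1 := by
      have := (Real.dist_eq s t) ▸ (mem_ball.1 hs)
      have := (abs_lt.1 this).2
      linarith
    refine mul_le_mul ?_ (p.norm_coe_le_norm ω) (norm_nonneg _) (by positivity)
    rw [Real.norm_eq_abs]
    refine ((h s ω).2.1).trans (mul_le_mul_of_nonneg_left ?_ hC)
    exact Real.exp_le_exp.2 (by linarith)

include hu hc in
lemma adm_coef (p : C(S2, ℝ)) : Adm (coef u p) := by
  obtain ⟨C, T, hC, h⟩ := bounds hu hc
  refine adm_of (v' := coef' u p) (C := C * ‖p‖ * σ.real univ) (T := T)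
    (fun t => hasDerivAt_coef hu hc p t) (cont_coef' hu p) (fun t => ?_) (fun t => ?_)
    (fun t ht => ?_)
  · have := abs_int_le (f := fun ω : S2 => resc u t ω * p ω) (K := C * Real.exp (t / 2) * ‖p‖)
      (fun ω => by
        rw [abs_mul]
        exact mul_le_mul (h t ω).1 (p.norm_coe_le_norm ω) (abs_nonneg _) (by positivity))
    unfold coef
    linarith
  · have := abs_int_le (f := fun ω : S2 => Vt u t ω * p ω) (K := C * Real.exp (t / 2) * ‖p‖)
      (fun ω => by
        rw [abs_mul]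
        exact mul_le_mul (h t ω).2.1 (p.norm_coe_le_norm ω) (abs_nonneg _) (by positivity))
    unfold coef'
    linarith
  · unfold coef
    have : (fun ω : S2 => resc u t ω * p ω) = fun _ => 0 := by
      ext ω; rw [((h t ω).2.2.2 ht).1, zero_mul]
    rw [this]; simp

include hu hc in
lemma deriv_coef (p : C(S2, ℝ)) (t : ℝ) : deriv (coef u p) t = coef' u p t :=
  (hasDerivAt_coef hu hc p t).deriv

/-- the remainder and its derivative -/
def G {M : ℕ} (u : E3 → ℝ) (p : Fin M → C(S2, ℝ)) (t : ℝ) (ω : S2) : ℝ :=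
  resc u t ω - ∑ i, coef u (p i) t * p i ω

def Gt {M : ℕ} (u : E3 → ℝ) (p : Fin M → C(S2, ℝ)) (t : ℝ) (ω : S2) : ℝ :=
  Vt u t ω - ∑ i, coef' u (p i) t * p i ω

variable {M : ℕ} (p : Fin M → C(S2, ℝ))

include hu hc in
lemma hasDerivAt_G (t : ℝ) (ω : S2) : HasDerivAt (fun s => G u p s ω) (Gt u p t ω) t := by
  unfold G Gt
  refine (hasDerivAt_resc hu t ω).sub ?_
  exact HasDerivAt.fun_sum fun i _ => (hasDerivAt_coef hu hc (p i) t).mul_const (p i ω)

include hu hc in
lemma adm_G (ω : S2) : Adm (fun t => G u p t ω) := by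
  have h1 := adm_V hu hc ω
  have h2 : Adm (fun t => ∑ i : Fin M, (-(p i ω)) * coef u (p i) t) :=
    adm_sum Finset.univ fun i _ => adm_cm (adm_coef hu hc (p i)) _
  have h3 := adm_add h1 h2
  convert h3 using 2 with t
  unfold G
  rw [sub_eq_add_neg, ← Finset.sum_neg_distrib]
  congr 1
  exact Finset.sum_congr rfl fun i _ => by ring

include hu hc in
lemma cont_G : Continuous (fun z : ℝ × S2 => G u p z.1 z.2) := by
  unfold G
  refine (cont_V2 hu).sub (continuous_finsetSum _ fun i _ => ?_)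
  exact ((adm_coef hu hc (p i)).cd.continuous.comp continuous_fst).mul
    ((p i).continuous.comp continuous_snd)

include hu in
lemma cont_Gt : Continuous (fun z : ℝ × S2 => Gt u p z.1 z.2) := by
  unfold Gt
  refine (cont_Vt2 hu).sub (continuous_finsetSum _ fun i _ => ?_)
  exact ((cont_coef' hu (p i)).comp continuous_fst).mul
    ((p i).continuous.comp continuous_snd)

include hu hc in
/-- uniform bounds for the remainder -/
lemma bounds_G : ∃ C T : ℝ, 0 ≤ C ∧ ∀ (t : ℝ) (ω : S2), |G u p t ω| ≤ C * Real.exp (t / 2) ∧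
      |Gt u p t ω| ≤ C * Real.exp (t / 2) ∧ (T ≤ t → G u p t ω = 0 ∧ Gt u p t ω = 0) := by
  obtain ⟨C, T, hC, h⟩ := bounds hu hc
  have hcb : ∀ (i : Fin M) (t : ℝ), |coef u (p i) t| ≤ C * Real.exp (t / 2) * ‖p i‖ * σ.real univ :=
    fun i t => abs_int_le (f := fun ω : S2 => resc u t ω * p i ω)
      (fun ω => by
        rw [abs_mul]
        exact mul_le_mul (h t ω).1 ((p i).norm_coe_le_norm ω) (abs_nonneg _) (by positivity))
  have hcb' : ∀ (i : Fin M) (t : ℝ), |coef' u (p i) t| ≤ C * Real.exp (t / 2) * ‖p i‖ * σ.real univ :=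
    fun i t => abs_int_le (f := fun ω : S2 => Vt u t ω * p i ω)
      (fun ω => by
        rw [abs_mul]
        exact mul_le_mul (h t ω).2.1 ((p i).norm_coe_le_norm ω) (abs_nonneg _) (by positivity))
  have hz : ∀ (i : Fin M) (t : ℝ), T ≤ t → coef u (p i) t = 0 ∧ coef' u (p i) t = 0 := by
    intro i t ht
    constructor
    · unfold coef
      have : (fun ω : S2 => resc u t ω * p i ω) = fun _ => 0 := by
        ext ω; rw [((h t ω).2.2.2 ht).1, zero_mul]
      rw [this]; simp
    · unfold coef'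
      have : (fun ω : S2 => Vt u t ω * p i ω) = fun _ => 0 := by
        ext ω; rw [((h t ω).2.2.2 ht).2.1, zero_mul]
      rw [this]; simp
  set K := ∑ i : Fin M, ‖p i‖ * σ.real univ * ‖p i‖ with hK
  have hK0 : 0 ≤ K := Finset.sum_nonneg fun i _ => by positivity
  refine ⟨C + C * K, T, by positivity, fun t ω => ⟨?_, ?_, fun ht => ⟨?_, ?_⟩⟩⟩
  · unfold G
    have h1 : |∑ i, coef u (p i) t * p i ω| ≤ C * Real.exp (t / 2) * K := by
      refine (Finset.abs_sum_le_sum_abs _ _).trans ?_
      rw [hK, Finset.mul_sum]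
      refine Finset.sum_le_sum fun i _ => ?_
      rw [abs_mul]
      refine (mul_le_mul (hcb i t) ((p i).norm_coe_le_norm ω) (abs_nonneg _) (by positivity)).trans
        (le_of_eq (by ring))
    have h2 := abs_sub (resc u t ω) (∑ i, coef u (p i) t * p i ω)
    have h3 := (h t ω).1
    nlinarith
  · unfold Gt
    have h1 : |∑ i, coef' u (p i) t * p i ω| ≤ C * Real.exp (t / 2) * K := by
      refine (Finset.abs_sum_le_sum_abs _ _).trans ?_
      rw [hK, Finset.mul_sum]
      refine Finset.sum_le_sum fun i _ => ?_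
      rw [abs_mul]
      refine (mul_le_mul (hcb' i t) ((p i).norm_coe_le_norm ω) (abs_nonneg _) (by positivity)).trans
        (le_of_eq (by ring))
    have h2 := abs_sub (Vt u t ω) (∑ i, coef' u (p i) t * p i ω)
    have h3 := (h t ω).2.1
    nlinarith
  · unfold G
    rw [((h t ω).2.2.2 ht).1]
    simp [(hz _ t ht).1]
  · unfold Gt
    rw [((h t ω).2.2.2 ht).2.1]
    simp [(hz _ t ht).2]

end coef

/-- Pythagoras -/
lemma pyth {M : ℕ} (p : Fin M → C(S2, ℝ))
    (hp : ∀ i j, ∫ ω, p i ω * p j ω ∂σ = if i = j then 1 else 0) {f : S2 → ℝ} (hf : Continuous f) :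
    ∫ ω, f ω ^ 2 ∂σ = ∑ i, (∫ ω, f ω * p i ω ∂σ) ^ 2 +
      ∫ ω, (f ω - ∑ i, (∫ ω', f ω' * p i ω' ∂σ) * p i ω) ^ 2 ∂σ := by
  set c : Fin M → ℝ := fun i => ∫ ω, f ω * p i ω ∂σ with hc
  have hfp : ∀ i, Integrable (fun ω => f ω * p i ω) σ := fun i => int_cont (hf.mul (p i).continuous)
  have hpp : ∀ i j, Integrable (fun ω => p i ω * p j ω) σ :=
    fun i j => int_cont ((p i).continuous.mul (p j).continuous)
  have e1 : ∫ ω, (∑ i, c i * (f ω * p i ω)) ∂σ = ∑ i, c i ^ 2 := by
    rw [integral_finsetSum _ fun i _ => (hfp i).const_mul (c i)]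
    refine Finset.sum_congr rfl fun i _ => ?_
    rw [integral_const_mul]
    simp only [hc]; ring
  have e2 : ∫ ω, (∑ i, ∑ j, c i * c j * (p i ω * p j ω)) ∂σ = ∑ i, c i ^ 2 := by
    rw [integral_finsetSum _ fun i _ => integrable_finsetSum _ fun j _ => (hpp i j).const_mul _]
    refine Finset.sum_congr rfl fun i _ => ?_
    rw [integral_finsetSum _ fun j _ => (hpp i j).const_mul _]
    rw [Finset.sum_eq_single i]
    · rw [integral_const_mul, hp]; simp; ring
    · intro j _ hj
      rw [integral_const_mul, hp, if_neg (Ne.symm hj), mul_zero]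
    · simp
  have e3 : ∀ ω, (f ω - ∑ i, c i * p i ω) ^ 2 = f ω ^ 2 - 2 * (∑ i, c i * (f ω * p i ω))
      + ∑ i, ∑ j, c i * c j * (p i ω * p j ω) := by
    intro ω
    have h1 : ∑ i, c i * (f ω * p i ω) = f ω * ∑ i, c i * p i ω := by
      rw [Finset.mul_sum]; exact Finset.sum_congr rfl fun i _ => by ring
    have h2 : ∑ i, ∑ j, c i * c j * (p i ω * p j ω) = (∑ i, c i * p i ω) * ∑ j, c j * p j ω := by
      rw [Finset.sum_mul_sum]
      exact Finset.sum_congr rfl fun i _ => Finset.sum_congr rfl fun j _ => by ring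
    rw [h1, h2]; ring
  have i1 : Integrable (fun ω => f ω ^ 2) σ := int_cont (hf.pow 2)
  have i2 : Integrable (fun ω => ∑ i, c i * (f ω * p i ω)) σ :=
    integrable_finsetSum _ fun i _ => (hfp i).const_mul (c i)
  have i3 : Integrable (fun ω => ∑ i, ∑ j, c i * c j * (p i ω * p j ω)) σ :=
    integrable_finsetSum _ fun i _ => integrable_finsetSum _ fun j _ => (hpp i j).const_mul _
  have e4 : ∫ ω, (f ω - ∑ i, c i * p i ω) ^ 2 ∂σ = ∫ ω, f ω ^ 2 ∂σ - 2 * ∑ i, c i ^ 2
      + ∑ i, c i ^ 2 := by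
    rw [integral_congr_ae (Filter.Eventually.of_forall e3)]
    have i12 : Integrable (fun ω => f ω ^ 2 - 2 * (∑ i, c i * (f ω * p i ω))) σ :=
      i1.sub (i2.const_mul 2)
    rw [integral_add i12 i3, integral_sub i1 (i2.const_mul 2), integral_const_mul, e1, e2]
  have e5 : ∑ i, (∫ ω, f ω * p i ω ∂σ) ^ 2 = ∑ i, c i ^ 2 := rfl
  rw [e5, e4]; ring

end

end Pool.Agent.CLR3.Cell
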