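import Mathlib

/-! Definitions for the sharp CLR bound for radial potentials in dimension three
(problem MP_efa090_mp). -/

open MeasureTheory Set Metric

namespace Pool.Agent.CLR3

noncomputable section

/-- Test functions on the line: C^1, of size at most `C exp (t/2)` together with the
derivative, vanishing for large `t`. -/
structure Adm (v : ℝ → ℝ) : Prop where
  cd : ContDiff ℝ 1 v
  bd : ∃ C T : ℝ, ∀ t, |v t| ≤ C * Real.exp (t / 2) ∧ |deriv v t| ≤ C * Real.exp (t / 2) ∧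
    (T ≤ t → v t = 0)

/-- The one-dimensional Schroedinger form on the set `A`, at energy `-κ^2`. -/
def Q (W : ℝ → ℝ) (κ : ℝ) (A : Set ℝ) (v : ℝ → ℝ) : ℝ :=
  ∫ t in A, ((deriv v t) ^ 2 + κ ^ 2 * v t ^ 2 - W t * v t ^ 2)

/-- The bilinear form belonging to `Q W (1/2) A`. -/
def B (W : ℝ → ℝ) (A : Set ℝ) (v w : ℝ → ℝ) : ℝ :=
  ∫ t in A, (deriv v t * deriv w t + (1 / 4) * (v t * w t) - W t * (v t * w t))

abbrev E3 := EuclideanSpace ℝ (Fin 3)
abbrev S2 := sphere (0 : E3) 1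

/-- Surface measure of the unit sphere. -/
def σ : Measure S2 := (volume : Measure E3).toSphere

/-- Squared length of the tangential part of the gradient of `F` at `x` (for `‖x‖ = 1`). -/
def tan2 (F : E3 → ℝ) (x : E3) : ℝ := ‖x‖ ^ 2 * ‖fderiv ℝ F x‖ ^ 2 - (fderiv ℝ F x x) ^ 2

/-- The rescaled function `x ↦ exp (t/2) u (exp t x)`. -/
def resc (u : E3 → ℝ) (t : ℝ) (x : E3) : ℝ := Real.exp (t / 2) * u (Real.exp t • x)

/-- Density in `t` of the transformed form. -/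
def dens (W : ℝ → ℝ) (u : E3 → ℝ) (t : ℝ) : ℝ :=
  ∫ ω : S2, ((resc u t ω / 2 + fderiv ℝ (resc u t) ω ω) ^ 2 + (1 / 4) * resc u t ω ^ 2
    + tan2 (resc u t) ω - W t * resc u t ω ^ 2) ∂σ

/-- The form over the set `A` of logarithmic radii. -/
def QQ (W : ℝ → ℝ) (A : Set ℝ) (u : E3 → ℝ) : ℝ := ∫ t in A, dens W u t

/-- On the finite dimensional space `S` the form `QQ W A` is nonnegative on a subspace cut out by
`F` linear conditions. -/
def Cod (W : ℝ → ℝ) (S : Submodule ℝ (E3 → ℝ)) (A : Set ℝ) (F : ℕ) : Prop :=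
  ∃ Λ : S →ₗ[ℝ] (Fin F → ℝ), ∀ u : S, Λ u = 0 → 0 ≤ QQ W A (u : E3 → ℝ)

/-- The logarithmic potential belonging to the radial potential `w ‖x‖`. -/
def logPot (w : ℝ → ℝ) (t : ℝ) : ℝ := Real.exp (2 * t) * w (Real.exp t)

end

end Pool.Agent.CLR3
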