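import Pool.Agent.CLR3.Node

/-! The greedy decomposition of the line. -/

open MeasureTheory Set Metric Filter Topology

namespace Pool.Agent.CLR3

noncomputable section

lemma nonzero_of_neg {W v : ℝ → ℝ} {κ : ℝ} {A : Set ℝ} (hA : MeasurableSet A)
    (hQ : Q W κ A v < 0) : ∃ t ∈ A, v t ≠ 0 := by
  by_contra hcon
  push Not at hcon
  have hq : 0 ≤ Q W κ A v := by
    unfold Q
    refine setIntegral_nonneg hA fun t ht => ?_
    rw [hcon t ht]
    have := sq_nonneg (deriv v t)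
    simpa using this
  linarith

section

variable {W : ℝ → ℝ} (hWm : Measurable W) (hW0 : ∀ t, 0 ≤ W t)
  (hWi : Integrable (fun t => W t ^ ((3 : ℝ) / 2)))

include hWm hW0 hWi

/-- Half-line bound, right. -/
lemma half_right {v : ℝ → ℝ} (hv : Adm v) {a κ : ℝ} (hκ : 0 < κ)
    (hQ : Q W κ (Ioi a) v < 0) :
    2 * κ ^ 2 ≤ CC * ∫ t in Ioi a, W t ^ ((3 : ℝ) / 2) := by
  obtain ⟨C, T, hC, hb⟩ := hv.bd'
  set b := max T (a + 1) with hbd
  have hab : a < b := lt_of_lt_of_le (by linarith) (le_max_right _ _)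
  obtain ⟨x, hx, hxm⟩ := (isCompact_Icc (a := a) (b := b)).exists_isMaxOn
    ⟨a, left_mem_Icc.2 hab.le⟩ (hv.cont.abs.continuousOn)
  have hvb : ∀ t, b ≤ t → v t = 0 := fun t ht =>
    ((hb t).2.2 (le_trans (le_max_left _ _) ht)).1
  have hmax : ∀ t ∈ Ioi a, |v t| ≤ |v x| := fun t ht => by
    rcases le_total t b with h | h
    · exact hxm ⟨le_of_lt ht, h⟩
    · rw [hvb t h, abs_zero]; exact abs_nonneg _
  have hx0 : v x ≠ 0 := by
    intro h
    obtain ⟨t, ht, hvt⟩ := nonzero_of_neg measurableSet_Ioi hQ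
    have := hmax t ht
    rw [h, abs_zero] at this
    exact hvt (abs_nonpos_iff.1 this)
  have hxy : uIoc x b ⊆ Ioi a := by
    intro t ht
    rw [uIoc_of_le hx.2] at ht
    exact lt_of_le_of_lt hx.1 ht.1
  have h1 := L1 hWm hW0 hWi hv measurableSet_Ioi hκ hQ x b hxy hmax hx0
  rw [hvb b le_rfl] at h1
  norm_num at h1
  linarith

/-- Half-line bound, left. -/
lemma half_left {v : ℝ → ℝ} (hv : Adm v) {m κ : ℝ} (hκ : 0 < κ)
    (hQ : Q W κ (Iic m) v < 0) :
    2 * κ ^ 2 ≤ CC * ∫ t in Iic m, W t ^ ((3 : ℝ) / 2) := by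
  have hpi := Real.pi_pos
  obtain ⟨C, T, hC, hb⟩ := hv.bd'
  obtain ⟨t0, ht0, hvt0⟩ := nonzero_of_neg measurableSet_Iic hQ
  have hlim : Tendsto (fun t : ℝ => C * Real.exp (t / 2)) atBot (𝓝 0) := by
    have h1 : Tendsto (fun t : ℝ => Real.exp (t / 2)) atBot (𝓝 0) :=
      Real.tendsto_exp_atBot.comp (tendsto_id.atBot_div_const (by norm_num))
    simpa using h1.const_mul C
  have hpos0 : 0 < |v t0| := abs_pos.2 hvt0
  obtain ⟨R, hR⟩ : ∃ R, ∀ t ≤ R, C * Real.exp (t / 2) < |v t0| := by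
    have := (hlim.eventually (gt_mem_nhds hpos0))
    exact eventually_atBot.1 this
  set R' := min R t0 with hR'
  have hR'm : R' ≤ m := le_trans (min_le_right _ _) ht0
  obtain ⟨x, hx, hxm⟩ := (isCompact_Icc (a := R') (b := m)).exists_isMaxOn
    ⟨m, right_mem_Icc.2 hR'm⟩ (hv.cont.abs.continuousOn)
  have hxt0 : |v t0| ≤ |v x| := hxm ⟨min_le_right _ _, ht0⟩
  have hmax : ∀ t ∈ Iic m, |v t| ≤ |v x| := fun t ht => by
    rcases le_total t R' with h | h
    · exact le_trans (hb t).1 (le_trans (hR t (le_trans h (min_le_left _ _))).le hxt0)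
    · exact hxm ⟨h, ht⟩
  have hx0 : v x ≠ 0 := abs_pos.1 (lt_of_lt_of_le hpos0 hxt0)
  have hx2 : 0 < v x ^ 2 := by positivity
  -- for every ε
  refine le_of_forall_pos_le_add fun ε hε => ?_
  -- choose y
  set δ := ε / (κ ^ 2 * (8 / Real.pi)) * v x ^ 2 with hδ
  have hδ0 : 0 < δ := by positivity
  have hlim2 : Tendsto (fun t : ℝ => (C * Real.exp (t / 2)) ^ 2) atBot (𝓝 0) := by
    simpa using hlim.pow 2
  obtain ⟨y, hy1, hy2⟩ : ∃ y, y ≤ x ∧ (C * Real.exp (y / 2)) ^ 2 < δ :=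
    ((eventually_le_atBot x).and (hlim2.eventually (gt_mem_nhds hδ0))).exists
  have hvy : v y ^ 2 ≤ δ := by
    refine le_trans ?_ hy2.le
    rw [← sq_abs]
    gcongr
    exact (hb y).1
  have hxy : uIoc x y ⊆ Iic m := by
    intro t ht
    rw [uIoc_comm, uIoc_of_le hy1] at ht
    exact le_trans ht.2 hx.2
  have h1 := L1 hWm hW0 hWi hv measurableSet_Iic hκ hQ x y hxy hmax hx0
  have h2 : κ ^ 2 * (8 / Real.pi * (v y ^ 2 / v x ^ 2)) ≤ ε := by
    calc κ ^ 2 * (8 / Real.pi * (v y ^ 2 / v x ^ 2)) ≤ κ ^ 2 * (8 / Real.pi * (δ / v x ^ 2)) := by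
          gcongr
      _ = ε := by rw [hδ]; field_simp
  have e : κ ^ 2 * (2 - 8 / Real.pi * (v y ^ 2 / v x ^ 2)) =
      2 * κ ^ 2 - κ ^ 2 * (8 / Real.pi * (v y ^ 2 / v x ^ 2)) := by ring
  rw [e] at h1
  linarith

/-- The second condition of a cell. -/
def Beta (W : ℝ → ℝ) (A : Set ℝ) : Prop :=
  ∃ v₀, Adm v₀ ∧ ∀ v, Adm v → B W A v₀ v = 0 → 0 ≤ Q W (1 / 2) A v

omit hWm hW0 hWi in
lemma beta_of_nonneg {A : Set ℝ} (h : ∀ v, Adm v → 0 ≤ Q W (1 / 2) A v) : Beta W A :=
  ⟨fun _ => 0, Adm.zero, fun v hv _ => h v hv⟩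

omit hWm hW0 hWi in
lemma beta_of_not_neg2 {a m : ℝ} (h : ¬ Neg2 W a m) : Beta W (Ioc a m) := by
  by_cases hne : ∃ v, Adm v ∧ Q W (1 / 2) (Ioc a m) v < 0
  · obtain ⟨v0, hv0, hQ0⟩ := hne
    refine ⟨v0, hv0, fun v hv hB => ?_⟩
    by_contra hcon
    push Not at hcon
    refine h ⟨v0, v, hv0, hv, hQ0, ?_⟩
    rw [hB]
    have := mul_pos_of_neg_of_neg hQ0 hcon
    linarith
  · push Not at hne
    exact beta_of_nonneg hne

omit hWm hW0 hWi in
/-- For test functions the half-line form is attained on a bounded interval. -/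
lemma Q_Ioi_eq {v : ℝ → ℝ} (κ : ℝ) {a T m : ℝ} (hT : ∀ t, T ≤ t → v t = 0 ∧ deriv v t = 0)
    (hm : T ≤ m) : Q W κ (Ioi a) v = Q W κ (Ioc a m) v := by
  unfold Q
  refine (setIntegral_eq_of_subset_of_forall_sdiff_eq_zero measurableSet_Ioi
    Ioc_subset_Ioi_self fun t ht => ?_)
  have htm : m < t := by
    by_contra hcon
    push Not at hcon
    exact ht.2 ⟨ht.1, hcon⟩
  obtain ⟨h1, h2⟩ := hT t (by linarith)
  rw [h1, h2]
  ring

omit hWm hW0 hWi in
lemma B_Ioi_eq {v w : ℝ → ℝ} {a T m : ℝ} (hT : ∀ t, T ≤ t → v t = 0 ∧ deriv v t = 0)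
    (hm : T ≤ m) : B W (Ioi a) v w = B W (Ioc a m) v w := by
  unfold B
  refine (setIntegral_eq_of_subset_of_forall_sdiff_eq_zero measurableSet_Ioi
    Ioc_subset_Ioi_self fun t ht => ?_)
  have htm : m < t := by
    by_contra hcon
    push Not at hcon
    exact ht.2 ⟨ht.1, hcon⟩
  obtain ⟨h1, h2⟩ := hT t (by linarith)
  rw [h1, h2]
  ring

/-- Right end cell. -/
lemma right_cell {a : ℝ} (h : ∀ m, a < m → ¬ Neg2 W a m) :
    ∃ J : ℕ, (∀ v, Adm v → 0 ≤ Q W (J + 1 / 2) (Ioi a) v) ∧ Beta W (Ioi a) ∧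
      (J : ℝ) ^ 2 ≤ CC * (∫ t in Ioi a, W t ^ ((3 : ℝ) / 2)) + 1 / 2 := by
  have hex : ∃ J : ℕ, ∀ v, Adm v → 0 ≤ Q W (J + 1 / 2) (Ioi a) v := by
    obtain ⟨n, hn⟩ := exists_nat_gt (CC * ∫ t in Ioi a, W t ^ ((3 : ℝ) / 2))
    refine ⟨n, fun v hv => ?_⟩
    by_contra hcon
    push Not at hcon
    have := half_right hWm hW0 hWi hv (by positivity) hcon
    nlinarith [sq_nonneg ((n : ℝ))]
  classical
  refine ⟨Nat.find hex, Nat.find_spec hex, ?_, ?_⟩
  · by_cases hne : ∃ v, Adm v ∧ Q W (1 / 2) (Ioi a) v < 0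
    · obtain ⟨v0, hv0, hQ0⟩ := hne
      refine ⟨v0, hv0, fun v hv hB => ?_⟩
      by_contra hcon
      push Not at hcon
      obtain ⟨C0, T0, -, hb0⟩ := hv0.bd'
      obtain ⟨C1, T1, -, hb1⟩ := hv.bd'
      set m := max (a + 1) (max T0 T1) with hm
      have ham : a < m := lt_of_lt_of_le (by linarith) (le_max_left _ _)
      have hm0 : T0 ≤ m := le_trans (le_max_left _ _) (le_max_right _ _)
      have hm1 : T1 ≤ m := le_trans (le_max_right _ _) (le_max_right _ _)
      refine h m ham ⟨v0, v, hv0, hv, ?_, ?_⟩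
      · rw [← Q_Ioi_eq (1 / 2) (fun t ht => (hb0 t).2.2 ht) hm0]; exact hQ0
      · rw [← Q_Ioi_eq (1 / 2) (fun t ht => (hb0 t).2.2 ht) hm0,
          ← Q_Ioi_eq (1 / 2) (fun t ht => (hb1 t).2.2 ht) hm1,
          ← B_Ioi_eq (fun t ht => (hb0 t).2.2 ht) hm0, hB]
        have := mul_pos_of_neg_of_neg hQ0 hcon
        linarith
    · push Not at hne
      exact beta_of_nonneg hne
  · have hnn : 0 ≤ CC * ∫ t in Ioi a, W t ^ ((3 : ℝ) / 2) :=
      mul_nonneg CC_pos.le (setIntegral_nonneg measurableSet_Ioi fun t _ => Real.rpow_nonneg (hW0 t) _)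
    rcases Nat.eq_zero_or_pos (Nat.find hex) with h0 | h0
    · rw [h0]; norm_num; linarith
    · have hlt : Nat.find hex - 1 < Nat.find hex := by omega
      have hnot := Nat.find_min hex hlt
      push Not at hnot
      obtain ⟨v, hv, hQ⟩ := hnot
      have hcast : ((Nat.find hex - 1 : ℕ) : ℝ) = (Nat.find hex : ℝ) - 1 := by
        rw [Nat.cast_sub h0]; norm_num
      have := half_right hWm hW0 hWi hv (κ := ((Nat.find hex - 1 : ℕ) : ℝ) + 1 / 2)
        (by positivity) hQ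
      rw [hcast] at this
      nlinarith [sq_nonneg ((Nat.find hex : ℝ) - 1)]

/-- Middle cell. -/
lemma mid_cell {a c : ℝ} (hac : a < c) (hn : ¬ Neg2 W a c)
    (hs : ∀ ε, 0 < ε → ∃ m, c ≤ m ∧ m < c + ε ∧ Neg2 W a m) :
    ∃ J : ℕ, (∀ v, Adm v → 0 ≤ Q W (J + 1 / 2) (Ioc a c) v) ∧ Beta W (Ioc a c) ∧
      (J : ℝ) ^ 2 ≤ CC * (∫ t in Ioc a c, W t ^ ((3 : ℝ) / 2)) ∧
      1 ≤ CC * (∫ t in Ioc a c, W t ^ ((3 : ℝ) / 2)) := by
  set F : ℝ → ℝ := fun z => ∫ t in Iic z, W t ^ ((3 : ℝ) / 2) with hF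
  have hFc : Continuous F := continuous_Iic hWi
  have hFm : ∀ x y, x ≤ y → ∫ t in Ioc x y, W t ^ ((3 : ℝ) / 2) = F y - F x := fun x y h =>
    setInt_Ioc hWi h
  have hone : 1 ≤ CC * (∫ t in Ioc a c, W t ^ ((3 : ℝ) / 2)) := by
    rw [hFm a c hac.le]
    by_contra hcon
    push Not at hcon
    have hcont : Continuous fun m => CC * (F m - F a) := by fun_prop
    obtain ⟨ε, hε, hball⟩ := Metric.mem_nhds_iff.1 (hcont.continuousAt.eventually (gt_mem_nhds hcon))
    obtain ⟨m, hm1, hm2, hneg⟩ := hs ε hε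
    have hmem : m ∈ Metric.ball c ε := by
      rw [Metric.mem_ball, Real.dist_eq, abs_of_nonneg (by linarith)]; linarith
    have h1 : CC * (F m - F a) < 1 := hball hmem
    have h2 := cost_one hWm hW0 hWi (by linarith) hneg
    rw [hFm a m (by linarith)] at h2
    linarith
  have hlen : 16 ≤ (c - a) ^ 2 * (∫ t in Ioc a c, W t ^ ((3 : ℝ) / 2)) := by
    rw [hFm a c hac.le]
    by_contra hcon
    push Not at hcon
    have hcont : Continuous fun m => (m - a) ^ 2 * (F m - F a) := by fun_prop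
    obtain ⟨ε, hε, hball⟩ := Metric.mem_nhds_iff.1 (hcont.continuousAt.eventually (gt_mem_nhds hcon))
    obtain ⟨m, hm1, hm2, hneg⟩ := hs ε hε
    have hmem : m ∈ Metric.ball c ε := by
      rw [Metric.mem_ball, Real.dist_eq, abs_of_nonneg (by linarith)]; linarith
    have h1 : (m - a) ^ 2 * (F m - F a) < 16 := hball hmem
    have h2 := cost_length hWm hW0 hWi (by linarith) hneg
    rw [hFm a m (by linarith)] at h2
    linarith
  have hex : ∃ J : ℕ, ∀ v, Adm v → 0 ≤ Q W (J + 1 / 2) (Ioc a c) v := by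
    obtain ⟨n, hn⟩ := exists_nat_gt
      (max (CC * ∫ t in Ioc a c, W t ^ ((3 : ℝ) / 2)) (29 / 10 / (c - a)))
    refine ⟨n, fun v hv => ?_⟩
    by_contra hcon
    push Not at hcon
    have h1 := lt_of_le_of_lt (le_max_left _ _) hn
    have h2 := lt_of_le_of_lt (le_max_right _ _) hn
    have hca : 0 < c - a := by linarith
    have h3 : 29 / 10 ≤ ((n : ℝ) + 1 / 2) * (c - a) := by
      rw [div_lt_iff₀ hca] at h2
      nlinarith
    have := long_interval hWm hW0 hWi hv hac (by positivity) h3 hcon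
    have hn0 : (0 : ℝ) ≤ n := Nat.cast_nonneg n
    nlinarith [sq_nonneg ((n : ℝ))]
  classical
  refine ⟨Nat.find hex, Nat.find_spec hex, beta_of_not_neg2 hn, ?_, hone⟩
  rcases Nat.lt_or_ge (Nat.find hex) 2 with h1 | h2
  · have : (Nat.find hex : ℝ) ≤ 1 := by
      have : Nat.find hex ≤ 1 := by omega
      exact_mod_cast this
    have h0 : (0 : ℝ) ≤ Nat.find hex := Nat.cast_nonneg _
    nlinarith
  · have hlt : Nat.find hex - 1 < Nat.find hex := by omega
    have hnot := Nat.find_min hex hlt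
    push Not at hnot
    obtain ⟨v, hv, hQ⟩ := hnot
    have hcast : ((Nat.find hex - 1 : ℕ) : ℝ) = (Nat.find hex : ℝ) - 1 := by
      rw [Nat.cast_sub (by omega)]; norm_num
    have hJ2 : (2 : ℝ) ≤ Nat.find hex := by exact_mod_cast h2
    set J : ℝ := (Nat.find hex : ℝ) with hJ
    set κ : ℝ := ((Nat.find hex - 1 : ℕ) : ℝ) + 1 / 2 with hκd
    have hκ : κ = J - 1 / 2 := by rw [hκd, hcast]; ring
    have hκ0 : 0 < κ := by rw [hκ]; linarith
    have hgoal : J ^ 2 ≤ 16 / 9 * κ ^ 2 := by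
      rw [hκ]
      nlinarith [mul_nonneg (show 0 ≤ J - 2 by linarith) (show 0 ≤ J by linarith)]
    refine le_trans hgoal ?_
    rcases le_total (29 / 10) (κ * (c - a)) with hl | hl
    · exact long_interval hWm hW0 hWi hv hac hκ0 hl hQ
    · set I := ∫ t in Ioc a c, W t ^ ((3 : ℝ) / 2) with hI
      have hca : 0 < c - a := by linarith
      have hκc : 0 < κ * (c - a) := mul_pos hκ0 hca
      have hsq : (κ * (c - a)) ^ 2 ≤ (29 / 10) ^ 2 := by gcongr
      have hI0 : 0 ≤ I := setIntegral_nonneg measurableSet_Ioc fun t _ => Real.rpow_nonneg (hW0 t) _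
      -- κ^2 * 16 ≤ (29/10)^2 * I
      have h3 : κ ^ 2 * 16 ≤ (29 / 10) ^ 2 * I := by
        calc κ ^ 2 * 16 ≤ κ ^ 2 * ((c - a) ^ 2 * I) := by gcongr
          _ = (κ * (c - a)) ^ 2 * I := by ring
          _ ≤ _ := by gcongr
      have hCC : 0.975 ≤ CC := by
        unfold CC
        have hs3' : Real.sqrt 3 ≤ 1.7321 := by
          rw [Real.sqrt_le_left (by norm_num)]; norm_num
        have hpi4 := Real.pi_lt_d2
        have hpi := Real.pi_pos
        rw [le_div_iff₀ (by positivity)]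
        have hs0 : 0 ≤ Real.sqrt 3 := Real.sqrt_nonneg 3
        have : Real.sqrt 3 * Real.pi ≤ 1.7321 * 3.15 := by gcongr
        nlinarith
      nlinarith [sq_nonneg κ]

/-- `Neg2` is an open condition in the end point (towards the left). -/
lemma neg2_open {a c : ℝ} (hac : a < c) (h : Neg2 W a c) :
    ∃ ε, 0 < ε ∧ ∀ m, a < m → c - ε < m → m ≤ c → Neg2 W a m := by
  obtain ⟨v, w, hv, hw, hQ, hB⟩ := h
  have iv := int_q hWm hW0 hWi hv (1 / 2)
  have iw := int_q hWm hW0 hWi hw (1 / 2)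
  have ib := int_b hWm hW0 hWi hv hw
  set q : ℝ → ℝ := fun m => (∫ t in Iic m, ((deriv v t) ^ 2 + (1 / 2) ^ 2 * v t ^ 2 - W t * v t ^ 2)) -
    ∫ t in Iic a, ((deriv v t) ^ 2 + (1 / 2) ^ 2 * v t ^ 2 - W t * v t ^ 2) with hq
  set r : ℝ → ℝ := fun m => (∫ t in Iic m, ((deriv w t) ^ 2 + (1 / 2) ^ 2 * w t ^ 2 - W t * w t ^ 2)) -
    ∫ t in Iic a, ((deriv w t) ^ 2 + (1 / 2) ^ 2 * w t ^ 2 - W t * w t ^ 2) with hr
  set b : ℝ → ℝ := fun m => (∫ t in Iic m, (deriv v t * deriv w t + (1 / 4) * (v t * w t) - W t * (v t * w t))) -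
    ∫ t in Iic a, (deriv v t * deriv w t + (1 / 4) * (v t * w t) - W t * (v t * w t)) with hb
  have hqe : ∀ m, a ≤ m → Q W (1 / 2) (Ioc a m) v = q m := fun m hm => setInt_Ioc iv hm
  have hre : ∀ m, a ≤ m → Q W (1 / 2) (Ioc a m) w = r m := fun m hm => setInt_Ioc iw hm
  have hbe : ∀ m, a ≤ m → B W (Ioc a m) v w = b m := fun m hm => setInt_Ioc ib hm
  have hqc : Continuous q := (continuous_Iic iv).sub continuous_const
  have hrc : Continuous r := (continuous_Iic iw).sub continuous_const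
  have hbc : Continuous b := (continuous_Iic ib).sub continuous_const
  rw [hqe c hac.le] at hQ
  rw [hqe c hac.le, hre c hac.le, hbe c hac.le] at hB
  have h1 : ∀ᶠ m in 𝓝 c, q m < 0 := hqc.continuousAt.eventually (gt_mem_nhds hQ)
  have h2 : ∀ᶠ m in 𝓝 c, 0 < q m * r m - b m ^ 2 := by
    have hc : Continuous fun m => q m * r m - b m ^ 2 := (hqc.mul hrc).sub (hbc.pow 2)
    exact hc.continuousAt.eventually (lt_mem_nhds (by linarith))
  obtain ⟨ε, hε, hball⟩ := Metric.mem_nhds_iff.1 (h1.and h2)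
  refine ⟨ε, hε, fun m ham hm1 hm2 => ?_⟩
  have hmem : m ∈ Metric.ball c ε := by
    rw [Metric.mem_ball, Real.dist_eq, abs_of_nonpos (by linarith)]; linarith
  obtain ⟨h3, h4⟩ := hball hmem
  refine ⟨v, w, hv, hw, ?_, ?_⟩
  · rw [hqe m ham.le]; exact h3
  · rw [hqe m ham.le, hre m ham.le, hbe m ham.le]; linarith

/-- Recursion on the right half line. -/
lemma greedy_right (Cd : Set ℝ → ℕ → Prop)
    (hU : ∀ (A A' : Set ℝ) (F G : ℕ), MeasurableSet A → MeasurableSet A' → Disjoint A A' →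
      Cd A F → Cd A' G → Cd (A ∪ A') (F + G))
    (hC : ∀ (A : Set ℝ) (J : ℕ), MeasurableSet A →
      (∀ v, Adm v → 0 ≤ Q W (J + 1 / 2) A v) → Beta W A → Cd A (J ^ 2)) (K : ℕ) :
    ∀ a : ℝ, CC * (∫ t in Ioi a, W t ^ ((3 : ℝ) / 2)) < K →
      ∃ N : ℕ, Cd (Ioi a) N ∧ (N : ℝ) ≤ CC * (∫ t in Ioi a, W t ^ ((3 : ℝ) / 2)) + 1 / 2 := by
  have hnn : ∀ a : ℝ, 0 ≤ CC * ∫ t in Ioi a, W t ^ ((3 : ℝ) / 2) := fun a =>
    mul_nonneg CC_pos.le (setIntegral_nonneg measurableSet_Ioi fun t _ => Real.rpow_nonneg (hW0 t) _)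
  induction K with
  | zero =>
    intro a ha
    have := hnn a
    norm_num at ha
    linarith
  | succ K ih =>
    intro a ha
    by_cases hne : ∃ m, a < m ∧ Neg2 W a m
    · set S : Set ℝ := {m | a < m ∧ Neg2 W a m} with hS
      have hSne : S.Nonempty := hne
      have hSbd : BddBelow S := ⟨a, fun m hm => hm.1.le⟩
      set c := sInf S with hc
      set F : ℝ → ℝ := fun z => ∫ t in Iic z, W t ^ ((3 : ℝ) / 2) with hF
      have hFc : Continuous F := continuous_Iic hWi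
      have hFm : ∀ x y, x ≤ y → ∫ t in Ioc x y, W t ^ ((3 : ℝ) / 2) = F y - F x := fun x y h =>
        setInt_Ioc hWi h
      have hac : a < c := by
        have hcont : Continuous fun m => CC * (F m - F a) := by fun_prop
        have h0 : (fun m => CC * (F m - F a)) a < 1 := by simp
        obtain ⟨ε, hε, hball⟩ :=
          Metric.mem_nhds_iff.1 (hcont.continuousAt.eventually (gt_mem_nhds h0))
        have : a + ε ≤ c := by
          refine le_csInf hSne fun m hm => ?_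
          by_contra hcon
          push Not at hcon
          have hmem : m ∈ Metric.ball a ε := by
            rw [Metric.mem_ball, Real.dist_eq, abs_of_nonneg (by linarith [hm.1])]; linarith
          have h1 : CC * (F m - F a) < 1 := hball hmem
          have h2 := cost_one hWm hW0 hWi hm.1 hm.2
          rw [hFm a m hm.1.le] at h2
          linarith
        linarith
      have hnot : ¬ Neg2 W a c := by
        intro h
        obtain ⟨ε, hε, hop⟩ := neg2_open hWm hW0 hWi hac h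
        set m := max ((a + c) / 2) (c - ε / 2) with hm
        have h1 : a < m := lt_of_lt_of_le (by linarith) (le_max_left _ _)
        have h2 : c - ε < m := lt_of_lt_of_le (by linarith) (le_max_right _ _)
        have h3 : m < c := max_lt (by linarith) (by linarith)
        have h4 := hop m h1 h2 h3.le
        have : c ≤ m := csInf_le hSbd ⟨h1, h4⟩
        linarith
      have hs : ∀ ε, 0 < ε → ∃ m, c ≤ m ∧ m < c + ε ∧ Neg2 W a m := by
        intro ε hε
        obtain ⟨m, hm, hmlt⟩ := exists_lt_of_csInf_lt hSne (show sInf S < c + ε by linarith)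
        exact ⟨m, csInf_le hSbd hm, hmlt, hm.2⟩
      obtain ⟨J, hα, hβ, hJ, hone⟩ := mid_cell hWm hW0 hWi hac hnot hs
      have hsplit : ∫ t in Ioi a, W t ^ ((3 : ℝ) / 2) =
          (∫ t in Ioc a c, W t ^ ((3 : ℝ) / 2)) + ∫ t in Ioi c, W t ^ ((3 : ℝ) / 2) := by
        rw [setInt_Ioi hWi, setInt_Ioi hWi, setInt_Ioc hWi hac.le]; ring
      have hlt : CC * (∫ t in Ioi c, W t ^ ((3 : ℝ) / 2)) < K := by
        rw [hsplit, mul_add] at ha
        push_cast at ha
        linarith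
      obtain ⟨N, hN, hNle⟩ := ih c hlt
      refine ⟨J ^ 2 + N, ?_, ?_⟩
      · have := hU (Ioc a c) (Ioi c) (J ^ 2) N measurableSet_Ioc measurableSet_Ioi
          (Ioc_disjoint_Ioi le_rfl) (hC _ J measurableSet_Ioc hα hβ) hN
        rwa [Ioc_union_Ioi_eq_Ioi hac.le] at this
      · rw [hsplit, mul_add]
        push_cast
        linarith
    · push Not at hne
      obtain ⟨J, hα, hβ, hJ⟩ := right_cell hWm hW0 hWi hne
      refine ⟨J ^ 2, hC _ J measurableSet_Ioi hα hβ, ?_⟩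
      push_cast
      exact hJ

end

/-- T1: the one dimensional partition theorem. -/
theorem oneD (W : ℝ → ℝ) (hWm : Measurable W) (hW0 : ∀ t, 0 ≤ W t)
    (hWi : Integrable (fun t => W t ^ ((3 : ℝ) / 2)))
    (Cd : Set ℝ → ℕ → Prop)
    (hU : ∀ (A A' : Set ℝ) (F G : ℕ), MeasurableSet A → MeasurableSet A' → Disjoint A A' →
      Cd A F → Cd A' G → Cd (A ∪ A') (F + G))
    (hC : ∀ (A : Set ℝ) (J : ℕ), MeasurableSet A →
      (∀ v, Adm v → 0 ≤ Q W (J + 1 / 2) A v) →
      (∃ v₀, Adm v₀ ∧ ∀ v, Adm v → B W A v₀ v = 0 → 0 ≤ Q W (1 / 2) A v) → Cd A (J ^ 2)) :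
    ∃ N : ℕ, Cd univ N ∧
      (N : ℝ) ≤ 16 / (3 * Real.sqrt 3 * Real.pi) * ∫ t, W t ^ ((3 : ℝ) / 2) := by
  set F : ℝ → ℝ := fun z => ∫ t in Iic z, W t ^ ((3 : ℝ) / 2) with hF
  have hFc : Continuous F := continuous_Iic hWi
  by_cases hne : ∃ m, ∃ v, Adm v ∧ Q W (1 / 2) (Iic m) v < 0
  · set S : Set ℝ := {m | ∃ v, Adm v ∧ Q W (1 / 2) (Iic m) v < 0} with hS
    have hSne : S.Nonempty := hne
    have hhalf : ∀ m ∈ S, 1 / 2 ≤ CC * F m := by
      rintro m ⟨v, hv, hQ⟩
      have := half_left hWm hW0 hWi hv (by norm_num) hQ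
      norm_num at this ⊢
      exact this
    have hlim : Tendsto (fun m => CC * F m) atBot (𝓝 0) := by
      have h1 : Tendsto F atBot (𝓝 0) :=
        tendsto_integral_Iic_zero (μ := volume) (f := fun t => W t ^ ((3 : ℝ) / 2)) tendsto_id
      simpa using h1.const_mul CC
    have hSbd : BddBelow S := by
      obtain ⟨R, hR⟩ := eventually_atBot.1 (hlim.eventually (gt_mem_nhds (show (0 : ℝ) < 1 / 2 by norm_num)))
      refine ⟨R, fun m hm => ?_⟩
      by_contra hcon
      push Not at hcon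
      have h1 := hhalf m hm
      have h2 := hR m hcon.le
      linarith
    set c := sInf S with hc
    have hnot : ∀ v, Adm v → 0 ≤ Q W (1 / 2) (Iic c) v := by
      intro v hv
      by_contra hcon
      push Not at hcon
      have hcont : Continuous fun m => Q W (1 / 2) (Iic m) v :=
        continuous_Iic (int_q hWm hW0 hWi hv (1 / 2))
      obtain ⟨ε, hε, hball⟩ :=
        Metric.mem_nhds_iff.1 (hcont.continuousAt.eventually (gt_mem_nhds hcon))
      have hmem : c - ε / 2 ∈ Metric.ball c ε := by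
        rw [Metric.mem_ball, Real.dist_eq, abs_of_nonpos (by linarith)]; linarith
      have h1 : Q W (1 / 2) (Iic (c - ε / 2)) v < 0 := hball hmem
      have : c ≤ c - ε / 2 := csInf_le hSbd ⟨v, hv, h1⟩
      linarith
    have hcost : 1 / 2 ≤ CC * F c := by
      by_contra hcon
      push Not at hcon
      have hcont : Continuous fun m => CC * F m := by fun_prop
      obtain ⟨ε, hε, hball⟩ :=
        Metric.mem_nhds_iff.1 (hcont.continuousAt.eventually (gt_mem_nhds hcon))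
      obtain ⟨m, hm, hmlt⟩ := exists_lt_of_csInf_lt hSne (show sInf S < c + ε by linarith)
      have hcm : c ≤ m := csInf_le hSbd hm
      have hmem : m ∈ Metric.ball c ε := by
        rw [Metric.mem_ball, Real.dist_eq, abs_of_nonneg (by linarith)]; linarith
      have h1 : CC * F m < 1 / 2 := hball hmem
      have h2 := hhalf m hm
      linarith
    obtain ⟨K, hK⟩ := exists_nat_gt (CC * ∫ t in Ioi c, W t ^ ((3 : ℝ) / 2))
    obtain ⟨N, hN, hNle⟩ := greedy_right hWm hW0 hWi Cd hU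
      (fun A J hA hα hβ => hC A J hA hα hβ) K c hK
    refine ⟨0 + N, ?_, ?_⟩
    · have h0 : Cd (Iic c) (0 ^ 2) := hC (Iic c) 0 measurableSet_Iic
        (fun v hv => by simpa using hnot v hv) (beta_of_nonneg hnot)
      have := hU (Iic c) (Ioi c) 0 N measurableSet_Iic measurableSet_Ioi
        (by rw [← compl_Iic]; exact disjoint_compl_right) (by simpa using h0) hN
      rwa [Iic_union_Ioi] at this
    · have hsum : CC * (∫ t in Ioi c, W t ^ ((3 : ℝ) / 2)) + CC * F c =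
          CC * ∫ t, W t ^ ((3 : ℝ) / 2) := by
        rw [setInt_Ioi hWi]; ring
      rw [zero_add]
      change (N : ℝ) ≤ CC * _
      linarith
  · push Not at hne
    have hall : ∀ v, Adm v → 0 ≤ Q W (1 / 2) univ v := by
      intro v hv
      obtain ⟨C, T, -, hb⟩ := hv.bd'
      have : Q W (1 / 2) univ v = Q W (1 / 2) (Iic T) v := by
        unfold Q
        refine (setIntegral_eq_of_subset_of_forall_sdiff_eq_zero MeasurableSet.univ
          (subset_univ _) fun t ht => ?_)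
        have htT : T ≤ t := by
          by_contra hcon
          push Not at hcon
          exact ht.2 hcon.le
        obtain ⟨h1, h2⟩ := (hb t).2.2 htT
        rw [h1, h2]
        ring
      rw [this]
      exact hne T v hv
    refine ⟨0 ^ 2, hC univ 0 MeasurableSet.univ (fun v hv => by simpa using hall v hv)
      (beta_of_nonneg hall), ?_⟩
    norm_num
    have : 0 ≤ ∫ t, W t ^ ((3 : ℝ) / 2) := integral_nonneg fun t => Real.rpow_nonneg (hW0 t) _
    positivity

end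

end Pool.Agent.CLR3
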