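import Pool.Agent.CLR3.Path

/-! Lower bound for a long Neumann interval. -/

open MeasureTheory Set Metric

namespace Pool.Agent.CLR3

noncomputable section

/-- The comparison function. -/
def hc (m M : ℝ) (s : ℝ) : ℝ :=
  Real.sqrt ((s - m) * (M - s)) * ((4 - 2 * s / (m + M)) / Real.sqrt 3)

lemma hc_cont (m M : ℝ) : Continuous (hc m M) := by
  unfold hc
  fun_prop

lemma int_odd : ∫ τ in (-1 : ℝ)..1, τ * Real.sqrt (1 - τ ^ 2) = 0 := by
  have h := intervalIntegral.integral_comp_neg (a := (-1 : ℝ)) (b := 1)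
      (fun τ : ℝ => τ * Real.sqrt (1 - τ ^ 2))
  simp only [neg_neg, neg_mul, even_two, Even.neg_pow, intervalIntegral.integral_neg] at h
  linarith

lemma int_hc (m M : ℝ) (hm : 0 < m) (hmM : m ≤ M) :
    ∫ s in m..M, hc m M s = Real.sqrt 3 * Real.pi / 8 * (M - m) ^ 2 := by
  have hsub := intervalIntegral.mul_integral_comp_mul_add (a := (-1 : ℝ)) (b := 1)
    (f := hc m M) ((M - m) / 2) ((m + M) / 2)
  have e1 : (M - m) / 2 * (-1) + (m + M) / 2 = m := by ring
  have e2 : (M - m) / 2 * 1 + (m + M) / 2 = M := by ring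
  rw [e1, e2] at hsub
  rw [← hsub]
  have hd : 0 ≤ (M - m) / 2 := by linarith
  have hM : 0 < m + M := by linarith
  have e3 : ∀ τ : ℝ, hc m M ((M - m) / 2 * τ + (m + M) / 2) =
      (M - m) / 2 * (3 / Real.sqrt 3) * Real.sqrt (1 - τ ^ 2) -
        (M - m) / 2 * ((M - m) / (m + M) / Real.sqrt 3) * (τ * Real.sqrt (1 - τ ^ 2)) := by
    intro τ
    unfold hc
    have : ((M - m) / 2 * τ + (m + M) / 2 - m) * (M - ((M - m) / 2 * τ + (m + M) / 2)) =
        ((M - m) / 2) ^ 2 * (1 - τ ^ 2) := by ring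
    rw [this, Real.sqrt_mul (sq_nonneg _), Real.sqrt_sq hd]
    have e4 : (4 - 2 * ((M - m) / 2 * τ + (m + M) / 2) / (m + M)) = 3 - (M - m) / (m + M) * τ := by
      field_simp
      ring
    rw [e4]
    ring
  simp only [e3]
  have hi1 : IntervalIntegrable (fun τ : ℝ => (M - m) / 2 * (3 / Real.sqrt 3) *
      Real.sqrt (1 - τ ^ 2)) volume (-1) 1 := by
    apply Continuous.intervalIntegrable; fun_prop
  have hi2 : IntervalIntegrable (fun τ : ℝ => (M - m) / 2 * ((M - m) / (m + M) / Real.sqrt 3) *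
      (τ * Real.sqrt (1 - τ ^ 2))) volume (-1) 1 := by
    apply Continuous.intervalIntegrable; fun_prop
  rw [intervalIntegral.integral_sub hi1 hi2, intervalIntegral.integral_const_mul,
    intervalIntegral.integral_const_mul, int_odd, integral_sqrt_one_sub_sq]
  have h3 : (3 : ℝ) / Real.sqrt 3 = Real.sqrt 3 := Real.div_sqrt
  rw [h3]
  ring

lemma tangent (x : ℝ) (hx1 : x ≤ 1) : x * (4 - 2 * x) ^ 2 ≤ 3 * (x + 1) := by
  nlinarith [mul_nonneg (sq_nonneg (2 * x - 1)) (show 0 ≤ 3 - x by linarith)]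

section

variable {W : ℝ → ℝ} (hWm : Measurable W) (hW0 : ∀ t, 0 ≤ W t)
  (hWi : Integrable (fun t => W t ^ ((3 : ℝ) / 2)))

include hWm hW0 hWi

/-- Bound for an interval on which `v` is comparable with its maximum. -/
lemma L2 {v : ℝ → ℝ} (hv : Adm v) {a c : ℝ} (hac : a < c) {κ : ℝ} (hκ : 0 < κ)
    (hQ : Q W κ (Ioc a c) v < 0) (x y : ℝ) (hx : x ∈ Icc a c) (hy : y ∈ Icc a c)
    (hmax : ∀ t ∈ Icc a c, |v t| ≤ |v x|) (hmin : ∀ t ∈ Icc a c, |v y| ≤ |v t|)
    (hy0 : v y ≠ 0) (m M : ℝ) (hm : 0 < m) (hM : 0 < M) (hρ : m * v x ^ 2 = M * v y ^ 2)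
    (hell : m ^ 2 + m * M + M ^ 2 = 1) :
    κ ^ 2 * ((8 / Real.pi) * (κ * (c - a) * (m * M * (m + M))) + Real.sqrt 3 * (M - m) ^ 2)
      ≤ CC * ∫ t in Ioc a c, W t ^ ((3 : ℝ) / 2) := by
  have hpi := Real.pi_pos
  have hx0 : v x ≠ 0 := by
    intro h
    have := hmin x hx
    rw [h, abs_zero] at this
    exact hy0 (abs_nonpos_iff.1 this)
  have hx2 : 0 < v x ^ 2 := by positivity
  have hy2 : 0 < v y ^ 2 := by positivity
  set μ := M / v x ^ 2 with hμd
  have hμ : 0 < μ := by positivity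
  have hμx : μ * v x ^ 2 = M := by rw [hμd]; field_simp
  have hμy : μ * v y ^ 2 = m := by
    rw [hμd, div_mul_eq_mul_div, div_eq_iff hx2.ne']; linarith
  have hyx : v y ^ 2 ≤ v x ^ 2 := sq_le_sq.2 (hmax y hy)
  have hmM : m ≤ M := by rw [← hμx, ← hμy]; gcongr
  have hxy : uIoc x y ⊆ Ioc a c := by
    intro t ht
    rcases mem_uIoc.1 ht with h | h
    · exact ⟨lt_of_le_of_lt hx.1 h.1, le_trans h.2 hy.2⟩
    · exact ⟨lt_of_le_of_lt hy.1 h.1, le_trans h.2 hx.2⟩
  have hs3 : 0 < Real.sqrt 3 := by positivity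
  have h33 : Real.sqrt 3 ^ 2 = 3 := Real.sq_sqrt (by norm_num)
  have hb := base_path hWm hW0 hWi hv measurableSet_Ioc hκ hμ hQ
    (fun _ => κ ^ 2 * (m * M * (m + M))) (by
      rw [integrableOn_const_iff]; right; simp)
    (hc m M) (hc_cont m M) x y hxy ?_
  · refine le_trans ?_ hb
    rw [hμx, hμy, intervalIntegral.integral_symm, abs_neg, int_hc m M hm hmM,
      abs_of_nonneg (by positivity)]
    simp only [integral_const, MeasurableSet.univ, measureReal_restrict_apply, univ_inter,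
      Real.volume_real_Ioc_of_le hac.le, smul_eq_mul]
    refine le_of_eq ?_
    field_simp
  · intro t ht
    have htI : t ∈ Icc a c := ⟨ht.1.le, ht.2⟩
    set s := μ * v t ^ 2 with hs
    have hsM : s ≤ M := by
      rw [hs, ← hμx]
      exact mul_le_mul_of_nonneg_left (sq_le_sq.2 (hmax t htI)) hμ.le
    have hms : m ≤ s := by
      rw [hs, ← hμy]
      exact mul_le_mul_of_nonneg_left (sq_le_sq.2 (hmin t htI)) hμ.le
    have hs0 : 0 < s := lt_of_lt_of_le hm hms
    have hcc : 0 < m + M := by linarith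
    have hpos : 0 ≤ (s - m) * (M - s) := mul_nonneg (by linarith) (by linarith)
    have hx1 : s / (m + M) ≤ 1 := by rw [div_le_one hcc]; linarith
    have hlin : 0 ≤ 4 - 2 * s / (m + M) := by
      have : 2 * s / (m + M) = 2 * (s / (m + M)) := by ring
      rw [this]; linarith
    have hh0 : 0 ≤ hc m M s := by
      unfold hc; positivity
    have hfac : s - s ^ 3 = m * M * (m + M) + (s - m) * (M - s) * (s + (m + M)) := by
      have : s = s * (m ^ 2 + m * M + M ^ 2) := by rw [hell, mul_one]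
      nth_rewrite 1 [this]
      ring
    have hP0 : 0 ≤ (s - m) * (M - s) * (s + (m + M)) := by positivity
    -- key comparison s * hc^2 ≤ (s-m)(M-s)(s+c)
    have hkey : s * hc m M s ^ 2 ≤ (s - m) * (M - s) * (s + (m + M)) := by
      unfold hc
      rw [mul_pow, Real.sq_sqrt hpos, div_pow, h33]
      have ht := tangent (s / (m + M)) hx1
      have e : s * ((s - m) * (M - s) * ((4 - 2 * s / (m + M)) ^ 2 / 3)) =
          ((s - m) * (M - s)) * ((m + M) * (s / (m + M) * (4 - 2 * (s / (m + M))) ^ 2) / 3) := by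
        field_simp
      rw [e]
      have h4 : (m + M) * (s / (m + M) * (4 - 2 * (s / (m + M))) ^ 2) / 3 ≤ s + (m + M) := by
        have h5 := mul_le_mul_of_nonneg_left ht hcc.le
        have e5 : (m + M) * (3 * (s / (m + M) + 1)) = 3 * (s + (m + M)) := by
          field_simp
        rw [e5] at h5
        linarith
      exact mul_le_mul_of_nonneg_left h4 hpos
    rw [abs_of_nonneg hh0]
    have hR : 0 ≤ μ * (deriv v t) ^ 2 + κ ^ 2 * ((s - m) * (M - s) * (s + (m + M))) := by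
      positivity
    have hle : κ * (|2 * μ * v t * deriv v t| * hc m M s) ≤
        μ * (deriv v t) ^ 2 + κ ^ 2 * ((s - m) * (M - s) * (s + (m + M))) := by
      refine le_trans (le_abs_self _) (abs_le_of_sq_le_sq ?_ hR)
      have e3 : (κ * (|2 * μ * v t * deriv v t| * hc m M s)) ^ 2 =
          4 * (μ * (deriv v t) ^ 2) * (κ ^ 2 * (s * hc m M s ^ 2)) := by
        rw [mul_pow, mul_pow, sq_abs, hs]
        ring
      rw [e3]
      have h6 : 4 * (μ * (deriv v t) ^ 2) * (κ ^ 2 * (s * hc m M s ^ 2)) ≤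
          4 * (μ * (deriv v t) ^ 2) * (κ ^ 2 * ((s - m) * (M - s) * (s + (m + M)))) := by
        gcongr
      exact le_trans h6 (four_mul_le_sq_add _ _)
    rw [hfac]
    linarith

/-- Long Neumann interval. -/
lemma long_interval {v : ℝ → ℝ} (hv : Adm v) {a c : ℝ} (hac : a < c) {κ : ℝ} (hκ : 0 < κ)
    (hl : 29 / 10 ≤ κ * (c - a)) (hQ : Q W κ (Ioc a c) v < 0) :
    16 / 9 * κ ^ 2 ≤ CC * ∫ t in Ioc a c, W t ^ ((3 : ℝ) / 2) := by
  have hpi := Real.pi_pos
  have hpi3 := Real.pi_gt_three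
  have hpi4 := Real.pi_lt_d2
  obtain ⟨x, hx, hxm⟩ := (isCompact_Icc (a := a) (b := c)).exists_isMaxOn
    ⟨a, left_mem_Icc.2 hac.le⟩ (hv.cont.abs.continuousOn)
  obtain ⟨y, hy, hym⟩ := (isCompact_Icc (a := a) (b := c)).exists_isMinOn
    ⟨a, left_mem_Icc.2 hac.le⟩ (hv.cont.abs.continuousOn)
  have hmax : ∀ t ∈ Icc a c, |v t| ≤ |v x| := fun t ht => hxm ht
  have hmin : ∀ t ∈ Icc a c, |v y| ≤ |v t| := fun t ht => hym ht
  have hx0 : v x ≠ 0 := by
    intro h
    have hz : ∀ t ∈ Ioc a c, v t = 0 := fun t ht => by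
      have := hmax t ⟨ht.1.le, ht.2⟩
      rw [h, abs_zero] at this
      exact abs_nonpos_iff.1 this
    have hq : 0 ≤ Q W κ (Ioc a c) v := by
      unfold Q
      refine setIntegral_nonneg measurableSet_Ioc fun t ht => ?_
      rw [hz t ht]
      have := sq_nonneg (deriv v t)
      simpa using this
    linarith
  have hx2 : 0 < v x ^ 2 := by positivity
  have hxy : uIoc x y ⊆ Ioc a c := by
    intro t ht
    rcases mem_uIoc.1 ht with h | h
    · exact ⟨lt_of_le_of_lt hx.1 h.1, le_trans h.2 hy.2⟩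
    · exact ⟨lt_of_le_of_lt hy.1 h.1, le_trans h.2 hx.2⟩
  set ρ := v y ^ 2 / v x ^ 2 with hρd
  have hρ0 : 0 ≤ ρ := by positivity
  have hρ1 : ρ ≤ 1 := by
    rw [hρd, div_le_one hx2]; exact sq_le_sq.2 (hmax y hy)
  by_cases hρ : ρ ≤ 1 / 20
  · have h1 := L1 hWm hW0 hWi hv measurableSet_Ioc hκ hQ x y hxy
      (fun t ht => hmax t ⟨ht.1.le, ht.2⟩) hx0
    rw [← hρd] at h1
    refine le_trans ?_ h1
    have h2 : 8 / Real.pi * ρ ≤ 8 / 3 * (1 / 20) := by
      gcongr
    rw [mul_comm]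
    exact mul_le_mul_of_nonneg_left (by linarith) (sq_nonneg κ)
  · push Not at hρ
    have hy0 : v y ≠ 0 := by
      intro h
      rw [hρd, h] at hρ
      norm_num at hρ
    set M := 1 / Real.sqrt (1 + ρ + ρ ^ 2) with hMd
    have hden : 0 < 1 + ρ + ρ ^ 2 := by positivity
    have hM : 0 < M := by positivity
    have hM2 : M ^ 2 = 1 / (1 + ρ + ρ ^ 2) := by
      rw [hMd, div_pow, one_pow, Real.sq_sqrt hden.le]
    have hm : 0 < ρ * M := by positivity
    have hell : (ρ * M) ^ 2 + ρ * M * M + M ^ 2 = 1 := by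
      have : (ρ * M) ^ 2 + ρ * M * M + M ^ 2 = M ^ 2 * (1 + ρ + ρ ^ 2) := by ring
      rw [this, hM2]; field_simp
    have hrel : ρ * M * v x ^ 2 = M * v y ^ 2 := by
      rw [hρd]; field_simp
    have h2 := L2 hWm hW0 hWi hv hac hκ hQ x y hx hy hmax hmin hy0 (ρ * M) M hm hM hrel hell
    refine le_trans ?_ h2
    set q := ρ * M * M with hq
    have hqv : q = ρ / (1 + ρ + ρ ^ 2) := by
      rw [hq, mul_assoc, ← pow_two, hM2]; ring
    have hq1 : 1 / 22 ≤ q := by
      rw [hqv, le_div_iff₀ hden]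
      have : ρ ^ 2 ≤ ρ := by rw [pow_two]; exact mul_le_of_le_one_left hρ0 hρ1
      linarith
    have hq3 : q ≤ 1 / 3 := by
      rw [hqv, div_le_iff₀ hden]
      nlinarith [sq_nonneg (1 - ρ)]
    have hsum : 1 ≤ ρ * M + M := by
      have h5 : (ρ * M + M) ^ 2 = 1 + q := by
        have : (ρ * M + M) ^ 2 = ((ρ * M) ^ 2 + ρ * M * M + M ^ 2) + ρ * M * M := by ring
        rw [this, hell]
      have h6 : 0 < ρ * M + M := by positivity
      have h7 : 1 ^ 2 ≤ (ρ * M + M) ^ 2 := by rw [h5]; linarith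
      exact (abs_le_of_sq_le_sq h7 h6.le) |> fun h => le_trans (le_abs_self _) (by simpa using h)
    have hdiff : (M - ρ * M) ^ 2 = 1 - 3 * q := by
      have : (M - ρ * M) ^ 2 = ((ρ * M) ^ 2 + ρ * M * M + M ^ 2) - 3 * (ρ * M * M) := by ring
      rw [this, hell]
    rw [hdiff]
    have hs3 : 1.732 ≤ Real.sqrt 3 := by
      apply Real.le_sqrt_of_sq_le; norm_num
    have hs3' : Real.sqrt 3 ≤ 1.7321 := by
      rw [Real.sqrt_le_left (by norm_num)]; norm_num
    have h7 : (8 / 3.15) * (29 / 10 * q) ≤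
        (8 / Real.pi) * (κ * (c - a) * (q * (ρ * M + M))) := by
      have h8 : 8 / 3.15 ≤ 8 / Real.pi := by
        gcongr
      have h9 : 29 / 10 * q ≤ κ * (c - a) * (q * (ρ * M + M)) := by
        have h10 : q ≤ q * (ρ * M + M) := le_mul_of_one_le_right (by linarith) hsum
        calc 29 / 10 * q ≤ 29 / 10 * (q * (ρ * M + M)) := by gcongr
          _ ≤ _ := by
            have : 0 ≤ q * (ρ * M + M) := by positivity
            gcongr
      calc (8 / 3.15) * (29 / 10 * q) ≤ (8 / Real.pi) * (29 / 10 * q) := by gcongr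
        _ ≤ _ := by gcongr
    have h11 : (16 : ℝ) / 9 ≤ (8 / Real.pi) * (κ * (c - a) * (q * (ρ * M + M)))
        + Real.sqrt 3 * (1 - 3 * q) := by
      have h12 : Real.sqrt 3 * (1 - 3 * q) ≥ 1.732 - 1.7321 * 3 * q := by
        have h13 : Real.sqrt 3 * q ≤ 1.7321 * q := mul_le_mul_of_nonneg_right hs3' (by linarith)
        have h14 : Real.sqrt 3 * (1 - 3 * q) = Real.sqrt 3 - 3 * (Real.sqrt 3 * q) := by ring
        rw [h14]
        linarith
      norm_num at h7 h12 ⊢
      linarith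
    rw [mul_comm]
    exact mul_le_mul_of_nonneg_left h11 (sq_nonneg κ)

end

end

end Pool.Agent.CLR3
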