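import Pool.Agent.CLR3.Interval

/-! Lower bounds from a node. -/

open MeasureTheory Set Metric

namespace Pool.Agent.CLR3

noncomputable section

lemma cs_interval (f : ℝ → ℝ) (hf : Continuous f) {x y : ℝ} (hxy : x ≤ y) :
    (∫ t in x..y, f t) ^ 2 ≤ (y - x) * ∫ t in x..y, f t ^ 2 := by
  rcases eq_or_lt_of_le hxy with h | h
  · subst h; simp
  · have hi : IntervalIntegrable f volume x y := hf.intervalIntegrable _ _
    have hi2 : IntervalIntegrable (fun t => f t ^ 2) volume x y := (hf.pow 2).intervalIntegrable _ _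
    set I := ∫ t in x..y, f t with hI
    set l := I / (y - x) with hl
    have h0 : 0 ≤ ∫ t in x..y, (f t - l) ^ 2 :=
      intervalIntegral.integral_nonneg hxy fun t _ => sq_nonneg _
    have e : ∫ t in x..y, (f t - l) ^ 2 = (∫ t in x..y, f t ^ 2) - 2 * l * I + l ^ 2 * (y - x) := by
      have e1 : ∀ t, (f t - l) ^ 2 = f t ^ 2 - 2 * l * f t + l ^ 2 := fun t => by ring
      simp only [e1]
      rw [intervalIntegral.integral_add (hi2.sub (hi.const_mul _)) (by simp),
        intervalIntegral.integral_sub hi2 (hi.const_mul _), intervalIntegral.integral_const_mul]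
      simp
      ring
    rw [e] at h0
    have hp : 0 < y - x := by linarith
    have h1 := mul_nonneg hp.le h0
    have e2 : (y - x) * ((∫ t in x..y, f t ^ 2) - 2 * l * I + l ^ 2 * (y - x)) =
        (y - x) * (∫ t in x..y, f t ^ 2) - I ^ 2 := by
      rw [hl]; field_simp; ring
    rw [e2] at h1
    linarith

lemma int_cube_left {a c : ℝ} (h : a ≤ c) : ∫ t in Ioc a c, |t - c| ^ 3 = (c - a) ^ 4 / 4 := by
  have e : ∫ t in Ioc a c, |t - c| ^ 3 = ∫ t in a..c, (c - t) ^ 3 := by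
    rw [intervalIntegral.integral_of_le h]
    refine setIntegral_congr_fun measurableSet_Ioc fun t ht => ?_
    show |t - c| ^ 3 = (c - t) ^ 3
    rw [abs_of_nonpos (by linarith [ht.2])]
    ring
  rw [e, intervalIntegral.integral_comp_sub_left (fun t => t ^ 3) c]
  simp [integral_pow]
  norm_num

lemma int_cube_right {a c : ℝ} (h : a ≤ c) : ∫ t in Ioc a c, |t - a| ^ 3 = (c - a) ^ 4 / 4 := by
  have e : ∫ t in Ioc a c, |t - a| ^ 3 = ∫ t in a..c, (t - a) ^ 3 := by
    rw [intervalIntegral.integral_of_le h]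
    refine setIntegral_congr_fun measurableSet_Ioc fun t ht => ?_
    show |t - a| ^ 3 = (t - a) ^ 3
    rw [abs_of_nonneg (by linarith [ht.1])]
  rw [e, intervalIntegral.integral_comp_sub_right (fun t => t ^ 3) a]
  simp [integral_pow]
  norm_num

section

variable {W : ℝ → ℝ} (hWm : Measurable W) (hW0 : ∀ t, 0 ≤ W t)
  (hWi : Integrable (fun t => W t ^ ((3 : ℝ) / 2)))

include hWm hW0 hWi

/-- Cauchy-Schwarz node bound. -/
lemma node_cs {v : ℝ → ℝ} (hv : Adm v) {a c : ℝ} (hac : a < c) {κ : ℝ}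
    (hQ : Q W κ (Ioc a c) v < 0) {z : ℝ} (hz : z = a ∨ z = c) (hvz : v z = 0) :
    2 ≤ (c - a) ^ 2 * ∫ t in Ioc a c, W t ^ ((3 : ℝ) / 2) := by
  have hzI : z ∈ Icc a c := by
    rcases hz with h | h
    · rw [h]; exact left_mem_Icc.2 hac.le
    · rw [h]; exact right_mem_Icc.2 hac.le
  have i1 : IntegrableOn (fun t => W t * v t ^ 2) (Ioc a c) := (int_Wsq hWm hW0 hWi hv).integrableOn
  have i3 : IntegrableOn (fun t => (deriv v t) ^ 2) (Ioc a c) := hv.int_dsq.integrableOn
  have i4 : IntegrableOn (fun t => v t ^ 2) (Ioc a c) := hv.int_sq.integrableOn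
  have iW : IntegrableOn (fun t => W t ^ ((3 : ℝ) / 2)) (Ioc a c) := hWi.integrableOn
  set D := ∫ t in Ioc a c, (deriv v t) ^ 2 with hD
  have hD0 : 0 ≤ D := setIntegral_nonneg measurableSet_Ioc fun t _ => sq_nonneg _
  have hl : 0 < c - a := by linarith
  have hpt : ∀ t ∈ Ioc a c, v t ^ 2 ≤ |t - z| * D := by
    intro t ht
    have hftc : ∀ x y : ℝ, ∫ s in x..y, deriv v s = v y - v x := fun x y =>
      intervalIntegral.integral_deriv_eq_sub (fun s _ => hv.diff s)
        (hv.contd.intervalIntegrable _ _)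
    have hsub : ∀ x y : ℝ, x ≤ y → a ≤ x → y ≤ c → ∫ s in x..y, (deriv v s) ^ 2 ≤ D := by
      intro x y hxy hax hyc
      rw [intervalIntegral.integral_of_le hxy]
      exact setIntegral_mono_set i3 (Filter.Eventually.of_forall fun s => sq_nonneg _)
        (Filter.Eventually.of_forall (Ioc_subset_Ioc hax hyc))
    rcases le_total t z with h | h
    · have h1 := cs_interval (deriv v) hv.contd h
      rw [hftc, hvz] at h1
      have h2 := hsub t z h ht.1.le hzI.2
      rw [abs_of_nonpos (by linarith)]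
      have h3 : (z - t) * ∫ s in t..z, (deriv v s) ^ 2 ≤ (z - t) * D :=
        mul_le_mul_of_nonneg_left h2 (by linarith)
      nlinarith
    · have h1 := cs_interval (deriv v) hv.contd h
      rw [hftc, hvz] at h1
      have h2 := hsub z t h hzI.1 ht.2
      rw [abs_of_nonneg (by linarith)]
      have h3 : (t - z) * ∫ s in z..t, (deriv v s) ^ 2 ≤ (t - z) * D :=
        mul_le_mul_of_nonneg_left h2 (by linarith)
      nlinarith
  have hcube : ∫ t in Ioc a c, |t - z| ^ 3 = (c - a) ^ 4 / 4 := by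
    rcases hz with h | h
    · rw [h]; exact int_cube_right hac.le
    · rw [h]; exact int_cube_left hac.le
  have icube : IntegrableOn (fun t => |t - z| ^ 3) (Ioc a c) := by
    have : Continuous fun t : ℝ => |t - z| ^ 3 := by fun_prop
    exact (this.integrableOn_Icc (a := a) (b := c)).mono_set Ioc_subset_Icc_self
  set l := (c - a) ^ 2 / 2 with hld
  have hl0 : 0 < l := by positivity
  have hy : ∀ t, W t * |t - z| ≤ (2 * l / 3) * W t ^ ((3 : ℝ) / 2) + |t - z| ^ 3 / (3 * l ^ 2) :=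
    fun t => young_l _ _ _ (abs_nonneg _) (hW0 t) hl0
  have iyr : IntegrableOn (fun t => (2 * l / 3) * W t ^ ((3 : ℝ) / 2) + |t - z| ^ 3 / (3 * l ^ 2))
      (Ioc a c) := (iW.const_mul _).add (icube.div_const _)
  have iWz : IntegrableOn (fun t => W t * |t - z|) (Ioc a c) := by
    refine Integrable.mono' iyr ?_ ?_
    · exact (hWm.mul (by fun_prop)).aestronglyMeasurable
    · refine Filter.Eventually.of_forall fun t => ?_
      rw [Real.norm_eq_abs, abs_of_nonneg (mul_nonneg (hW0 t) (abs_nonneg _))]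
      exact hy t
  set K := ∫ t in Ioc a c, W t * |t - z| with hK
  have hK2 : K ≤ (2 * l / 3) * (∫ t in Ioc a c, W t ^ ((3 : ℝ) / 2)) + ((c - a) ^ 4 / 4) / (3 * l ^ 2) := by
    rw [← hcube, ← integral_const_mul, ← integral_div, ← integral_add (iW.const_mul _) (icube.div_const _)]
    exact setIntegral_mono iWz iyr hy
  have hWv : ∫ t in Ioc a c, W t * v t ^ 2 ≤ D * K := by
    rw [hK, ← integral_const_mul]
    refine setIntegral_mono_on i1 (iWz.const_mul _) measurableSet_Ioc fun t ht => ?_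
    have := mul_le_mul_of_nonneg_left (hpt t ht) (hW0 t)
    linarith
  have hQ2 : Q W κ (Ioc a c) v = D + κ ^ 2 * (∫ t in Ioc a c, v t ^ 2)
      - ∫ t in Ioc a c, W t * v t ^ 2 := by
    unfold Q
    have i34 : IntegrableOn (fun t => (deriv v t) ^ 2 + κ ^ 2 * v t ^ 2) (Ioc a c) :=
      i3.add (i4.const_mul _)
    rw [integral_sub i34 i1, integral_add i3 (i4.const_mul _), integral_const_mul]
  have hv2 : 0 ≤ κ ^ 2 * ∫ t in Ioc a c, v t ^ 2 :=
    mul_nonneg (sq_nonneg _) (setIntegral_nonneg measurableSet_Ioc fun t _ => sq_nonneg _)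
  have hDK : D < D * K := by linarith
  have hK1 : 1 < K := by
    by_contra hcon
    push Not at hcon
    nlinarith
  have e : ((c - a) ^ 4 / 4) / (3 * l ^ 2) = 1 / 3 := by
    rw [hld]; field_simp; norm_num
  rw [e, hld] at hK2
  linarith

/-- Soliton bound for an interval with a node. -/
lemma node_soliton {v : ℝ → ℝ} (hv : Adm v) {a c : ℝ} (hac : a < c) {κ : ℝ} (hκ : 0 < κ)
    (hQ : Q W κ (Ioc a c) v < 0) {z : ℝ} (hz : z ∈ Icc a c) (hvz : v z = 0) :
    2 * κ ^ 2 ≤ CC * ∫ t in Ioc a c, W t ^ ((3 : ℝ) / 2) := by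
  obtain ⟨x, hx, hxm⟩ := (isCompact_Icc (a := a) (b := c)).exists_isMaxOn
    ⟨a, left_mem_Icc.2 hac.le⟩ (hv.cont.abs.continuousOn)
  have hmax : ∀ t ∈ Icc a c, |v t| ≤ |v x| := fun t ht => hxm ht
  have hx0 : v x ≠ 0 := by
    intro h
    have hz : ∀ t ∈ Ioc a c, v t = 0 := fun t ht => by
      have := hmax t ⟨ht.1.le, ht.2⟩
      rw [h, abs_zero] at this
      exact abs_nonpos_iff.1 this
    have hq : 0 ≤ Q W κ (Ioc a c) v := by
      unfold Q
      refine setIntegral_nonneg measurableSet_Ioc fun t ht => ?_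
      rw [hz t ht]
      have := sq_nonneg (deriv v t)
      simpa using this
    linarith
  have hxy : uIoc x z ⊆ Ioc a c := by
    intro t ht
    rcases mem_uIoc.1 ht with h | h
    · exact ⟨lt_of_le_of_lt hx.1 h.1, le_trans h.2 hz.2⟩
    · exact ⟨lt_of_le_of_lt hz.1 h.1, le_trans h.2 hx.2⟩
  have h1 := L1 hWm hW0 hWi hv measurableSet_Ioc hκ hQ x z hxy
    (fun t ht => hmax t ⟨ht.1.le, ht.2⟩) hx0
  rw [hvz] at h1
  norm_num at h1
  linarith

/-- Two test functions spanning a negative space on `(a, m]`. -/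
def Neg2 (W : ℝ → ℝ) (a m : ℝ) : Prop :=
  ∃ v w : ℝ → ℝ, Adm v ∧ Adm w ∧ Q W (1 / 2) (Ioc a m) v < 0 ∧
    B W (Ioc a m) v w ^ 2 < Q W (1 / 2) (Ioc a m) v * Q W (1 / 2) (Ioc a m) w

lemma neg_with_node {a m : ℝ} (h : Neg2 W a m) (z : ℝ) :
    ∃ u, Adm u ∧ u z = 0 ∧ Q W (1 / 2) (Ioc a m) u < 0 := by
  obtain ⟨v, w, hv, hw, hQ, hB⟩ := h
  by_cases hvz : v z = 0
  · exact ⟨v, hv, hvz, hQ⟩
  · refine ⟨fun t => w z * v t + (-v z) * w t, hv.comb hw _ _, by ring, ?_⟩
    rw [Q_comb hWm hW0 hWi hv hw]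
    set q := Q W (1 / 2) (Ioc a m) v
    set r := Q W (1 / 2) (Ioc a m) w
    set b := B W (Ioc a m) v w
    have hvz2 : 0 < v z ^ 2 := by positivity
    have h1 : 0 < q * (w z ^ 2 * q + 2 * (w z * -v z) * b + (-v z) ^ 2 * r) := by
      have e : q * (w z ^ 2 * q + 2 * (w z * -v z) * b + (-v z) ^ 2 * r) =
          (w z * q - v z * b) ^ 2 + v z ^ 2 * (q * r - b ^ 2) := by ring
      rw [e]
      have := mul_pos hvz2 (sub_pos.2 hB)
      nlinarith [sq_nonneg (w z * q - v z * b)]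
    by_contra hcon
    push Not at hcon
    nlinarith

lemma Q_split {v : ℝ → ℝ} (hv : Adm v) (κ : ℝ) {a z m : ℝ} (h1 : a ≤ z) (h2 : z ≤ m) :
    Q W κ (Ioc a m) v = Q W κ (Ioc a z) v + Q W κ (Ioc z m) v := by
  unfold Q
  have hi := int_q hWm hW0 hWi hv κ
  rw [setInt_Ioc hi (h1.trans h2), setInt_Ioc hi h1, setInt_Ioc hi h2]
  ring

/-- (5a) -/
lemma cost_one {a m : ℝ} (ham : a < m) (h : Neg2 W a m) :
    1 ≤ CC * ∫ t in Ioc a m, W t ^ ((3 : ℝ) / 2) := by
  -- choose z halving the cost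
  set F : ℝ → ℝ := fun z => ∫ t in Iic z, W t ^ ((3 : ℝ) / 2) with hF
  have hFc : Continuous F := continuous_Iic hWi
  have hFm : ∀ x y, x ≤ y → ∫ t in Ioc x y, W t ^ ((3 : ℝ) / 2) = F y - F x := fun x y h =>
    setInt_Ioc hWi h
  have hpos : ∀ x y, 0 ≤ ∫ t in Ioc x y, W t ^ ((3 : ℝ) / 2) := fun x y =>
    setIntegral_nonneg measurableSet_Ioc fun t _ => Real.rpow_nonneg (hW0 t) _
  have hmono : F a ≤ F m := by
    have := hpos a m; rw [hFm a m ham.le] at this; linarith
  obtain ⟨z, hz, hzF⟩ : (F a + F m) / 2 ∈ F '' Icc a m :=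
    intermediate_value_Icc ham.le hFc.continuousOn ⟨by linarith, by linarith⟩
  obtain ⟨u, hu, huz, huQ⟩ := neg_with_node hWm hW0 hWi h z
  rw [Q_split hWm hW0 hWi hu _ hz.1 hz.2] at huQ
  have e1 := hFm a z hz.1
  have e2 := hFm z m hz.2
  have e3 := hFm a m ham.le
  rw [e3]
  rcases lt_or_ge (Q W (1 / 2) (Ioc a z) u) 0 with hneg | hneg
  · have haz : a < z := by
      rcases eq_or_lt_of_le hz.1 with h | h
      · rw [← h] at hneg; simp [Q] at hneg
      · exact h
    have h2 := node_soliton hWm hW0 hWi hu haz (by norm_num) hneg (right_mem_Icc.2 haz.le) huz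
    rw [e1, hzF] at h2
    linarith
  · have hneg2 : Q W (1 / 2) (Ioc z m) u < 0 := by linarith
    have hzm : z < m := by
      rcases eq_or_lt_of_le hz.2 with h | h
      · rw [h] at hneg2; simp [Q] at hneg2
      · exact h
    have h2 := node_soliton hWm hW0 hWi hu hzm (by norm_num) hneg2 (left_mem_Icc.2 hzm.le) huz
    rw [e2, hzF] at h2
    linarith

/-- (5b) -/
lemma cost_length {a m : ℝ} (ham : a < m) (h : Neg2 W a m) :
    16 ≤ (m - a) ^ 2 * ∫ t in Ioc a m, W t ^ ((3 : ℝ) / 2) := by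
  set F : ℝ → ℝ := fun z => ∫ t in Iic z, W t ^ ((3 : ℝ) / 2) with hF
  have hFc : Continuous F := continuous_Iic hWi
  have hFm : ∀ x y, x ≤ y → ∫ t in Ioc x y, W t ^ ((3 : ℝ) / 2) = F y - F x := fun x y h =>
    setInt_Ioc hWi h
  have hpos : ∀ x y, 0 ≤ ∫ t in Ioc x y, W t ^ ((3 : ℝ) / 2) := fun x y =>
    setIntegral_nonneg measurableSet_Ioc fun t _ => Real.rpow_nonneg (hW0 t) _
  have hmono : F a ≤ F m := by
    have := hpos a m; rw [hFm a m ham.le] at this; linarith
  set G : ℝ → ℝ := fun z => (z - a) ^ 2 * (F z - F a) - (m - z) ^ 2 * (F m - F z) with hG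
  have hGc : Continuous G := by
    rw [hG]
    fun_prop
  have hGa : G a ≤ 0 := by
    simp only [hG]
    have : 0 ≤ (m - a) ^ 2 * (F m - F a) := mul_nonneg (sq_nonneg _) (by linarith)
    nlinarith
  have hGm : 0 ≤ G m := by
    simp only [hG]
    have : 0 ≤ (m - a) ^ 2 * (F m - F a) := mul_nonneg (sq_nonneg _) (by linarith)
    nlinarith
  obtain ⟨z, hz, hzG⟩ : (0 : ℝ) ∈ G '' Icc a m :=
    intermediate_value_Icc ham.le hGc.continuousOn ⟨hGa, hGm⟩
  obtain ⟨u, hu, huz, huQ⟩ := neg_with_node hWm hW0 hWi h z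
  rw [Q_split hWm hW0 hWi hu _ hz.1 hz.2] at huQ
  have e1 := hFm a z hz.1
  have e2 := hFm z m hz.2
  have e3 := hFm a m ham.le
  have hzG' : (z - a) ^ 2 * (F z - F a) = (m - z) ^ 2 * (F m - F z) := by
    have : G z = 0 := hzG
    simp only [hG] at this
    linarith
  -- both sides are at least 2
  have hboth : 2 ≤ (z - a) ^ 2 * (F z - F a) := by
    rcases lt_or_ge (Q W (1 / 2) (Ioc a z) u) 0 with hneg | hneg
    · have haz : a < z := by
        rcases eq_or_lt_of_le hz.1 with h | h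
        · rw [← h] at hneg; simp [Q] at hneg
        · exact h
      have h2 := node_cs hWm hW0 hWi hu haz hneg (Or.inr rfl) huz
      rw [e1] at h2
      exact h2
    · have hneg2 : Q W (1 / 2) (Ioc z m) u < 0 := by linarith
      have hzm : z < m := by
        rcases eq_or_lt_of_le hz.2 with h | h
        · rw [h] at hneg2; simp [Q] at hneg2
        · exact h
      have h2 := node_cs hWm hW0 hWi hu hzm hneg2 (Or.inl rfl) huz
      rw [e2] at h2
      rw [hzG']
      exact h2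
  have hboth2 : 2 ≤ (m - z) ^ 2 * (F m - F z) := by rw [← hzG']; exact hboth
  have hp : 0 < z - a := by
    rcases eq_or_lt_of_le hz.1 with h | h
    · rw [← h] at hboth; norm_num at hboth
    · linarith
  have hq : 0 < m - z := by
    rcases eq_or_lt_of_le hz.2 with h | h
    · rw [h] at hboth2; norm_num at hboth2
    · linarith
  rw [e3]
  set p := z - a
  set q := m - z
  have hX : 2 / p ^ 2 ≤ F z - F a := by
    rw [div_le_iff₀ (by positivity)]; linarith
  have hY : 2 / q ^ 2 ≤ F m - F z := by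
    rw [div_le_iff₀ (by positivity)]; linarith
  have hma : m - a = p + q := by simp only [p, q]; ring
  rw [hma]
  have hXY : F m - F a = (F z - F a) + (F m - F z) := by ring
  rw [hXY]
  have h1 : (p + q) ^ 2 * (2 / p ^ 2 + 2 / q ^ 2) ≤ (p + q) ^ 2 * ((F z - F a) + (F m - F z)) :=
    mul_le_mul_of_nonneg_left (add_le_add hX hY) (sq_nonneg _)
  refine le_trans ?_ h1
  have e : (p + q) ^ 2 * (2 / p ^ 2 + 2 / q ^ 2) = 2 * ((p + q) ^ 2 * (p ^ 2 + q ^ 2)) / (p ^ 2 * q ^ 2) := by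
    field_simp
    ring
  rw [e, le_div_iff₀ (by positivity)]
  have h2 : (p + q) ^ 2 ≥ 4 * (p * q) := by nlinarith [sq_nonneg (p - q)]
  have h3 : p ^ 2 + q ^ 2 ≥ 2 * (p * q) := by nlinarith [sq_nonneg (p - q)]
  have hpq : 0 < p * q := mul_pos hp hq
  have h4 : (p + q) ^ 2 * (p ^ 2 + q ^ 2) ≥ (4 * (p * q)) * (2 * (p * q)) := by
    apply mul_le_mul h2 h3 <;> positivity
  nlinarith

end

end

end Pool.Agent.CLR3
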