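import Pool.Agent.CLR3.Basic2

/-! One-soliton lower bounds for the potential. -/

open MeasureTheory Set Metric

namespace Pool.Agent.CLR3

noncomputable section

lemma continuous_sqrt_one_sub : Continuous fun s : ℝ => Real.sqrt (1 - s ^ 2) := by fun_prop

lemma int_quarter : ∫ s in (0 : ℝ)..1, Real.sqrt (1 - s ^ 2) = Real.pi / 4 := by
  have h := integral_sqrt_one_sub_sq
  have hi : ∀ a b : ℝ, IntervalIntegrable (fun s : ℝ => Real.sqrt (1 - s ^ 2)) volume a b :=
    fun a b => continuous_sqrt_one_sub.intervalIntegrable a b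
  have h1 := intervalIntegral.integral_add_adjacent_intervals (hi (-1) 0) (hi 0 1)
  have h2 : ∫ s in (-1 : ℝ)..0, Real.sqrt (1 - s ^ 2) = ∫ s in (0 : ℝ)..1, Real.sqrt (1 - s ^ 2) := by
    have := intervalIntegral.integral_comp_neg (a := (-1 : ℝ)) (b := 0)
      (fun s : ℝ => Real.sqrt (1 - s ^ 2))
    simpa using this
  rw [h2] at h1
  linarith

lemma int_rho (ρ : ℝ) (h0 : 0 ≤ ρ) :
    Real.pi / 4 - ρ ≤ |∫ s in (1 : ℝ)..ρ, Real.sqrt (1 - s ^ 2)| := by
  have hi : ∀ a b : ℝ, IntervalIntegrable (fun s : ℝ => Real.sqrt (1 - s ^ 2)) volume a b :=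
    fun a b => continuous_sqrt_one_sub.intervalIntegrable a b
  have h2 := intervalIntegral.integral_add_adjacent_intervals (hi 0 ρ) (hi ρ 1)
  rw [int_quarter] at h2
  have h3 : ∫ s in (0 : ℝ)..ρ, Real.sqrt (1 - s ^ 2) ≤ ρ := by
    calc ∫ s in (0 : ℝ)..ρ, Real.sqrt (1 - s ^ 2) ≤ ∫ s in (0 : ℝ)..ρ, (1 : ℝ) := by
          refine intervalIntegral.integral_mono_on h0 (hi 0 ρ) (by simp) fun s hs => ?_
          exact Real.sqrt_le_one.2 (by nlinarith [sq_nonneg s])
      _ = ρ := by simp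
  rw [intervalIntegral.integral_symm, abs_neg]
  refine le_trans ?_ (le_abs_self _)
  linarith

/-- Substitution bound. -/
lemma path_bound (s s' : ℝ → ℝ) (hs : ∀ t, HasDerivAt s (s' t) t) (hs' : Continuous s')
    (h : ℝ → ℝ) (hh : Continuous h) (x y : ℝ) :
    |∫ r in s x..s y, h r| ≤ ∫ t in uIoc x y, |s' t| * |h (s t)| := by
  have e := intervalIntegral.integral_comp_mul_deriv (a := x) (b := y) (fun t _ => hs t)
    hs'.continuousOn hh
  rw [← e, ← Real.norm_eq_abs]
  refine le_trans (intervalIntegral.norm_integral_le_integral_norm_uIoc) (le_of_eq ?_)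
  refine setIntegral_congr_fun measurableSet_uIoc fun t _ => ?_
  simp only [Function.comp, norm_mul, Real.norm_eq_abs]
  ring

section

variable {W : ℝ → ℝ} (hWm : Measurable W) (hW0 : ∀ t, 0 ≤ W t)
  (hWi : Integrable (fun t => W t ^ ((3 : ℝ) / 2)))

include hWm hW0 hWi

/-- Basic inequality obtained from the sharp Young inequality. -/
lemma base {v : ℝ → ℝ} (hv : Adm v) {A : Set ℝ} {κ μ : ℝ} (hκ : 0 < κ) (hμ : 0 < μ)
    (hQ : Q W κ A v < 0) :
    (8 * κ / Real.pi) * ∫ t in A, (μ * (deriv v t) ^ 2 + κ ^ 2 * (μ * v t ^ 2 - (μ * v t ^ 2) ^ 3))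
      ≤ CC * ∫ t in A, W t ^ ((3 : ℝ) / 2) := by
  have hpi := Real.pi_pos
  have i1 : Integrable (fun t => W t * v t ^ 2) (volume.restrict A) := (int_Wsq hWm hW0 hWi hv).integrableOn
  have i2 : Integrable (fun t => (v t ^ 2) ^ 3) (volume.restrict A) := hv.int_six.integrableOn
  have i3 : Integrable (fun t => (deriv v t) ^ 2) (volume.restrict A) := hv.int_dsq.integrableOn
  have i4 : Integrable (fun t => v t ^ 2) (volume.restrict A) := hv.int_sq.integrableOn
  have hQ2 : Q W κ A v = (∫ t in A, (deriv v t) ^ 2) + κ ^ 2 * (∫ t in A, v t ^ 2)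
      - ∫ t in A, W t * v t ^ 2 := by
    unfold Q
    have i34 : Integrable (fun t => (deriv v t) ^ 2 + κ ^ 2 * v t ^ 2) (volume.restrict A) :=
      i3.add (i4.const_mul _)
    rw [integral_sub i34 i1, integral_add i3 (i4.const_mul _), integral_const_mul]
  have hle : (8 * κ / Real.pi * μ) * (∫ t in A, W t * v t ^ 2)
      - (8 * κ ^ 3 / Real.pi * μ ^ 3) * (∫ t in A, (v t ^ 2) ^ 3)
      ≤ CC * ∫ t in A, W t ^ ((3 : ℝ) / 2) := by
    rw [← integral_const_mul, ← integral_const_mul, ← integral_const_mul,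
      ← integral_sub (i1.const_mul _) (i2.const_mul _)]
    refine integral_mono ((i1.const_mul _).sub (i2.const_mul _))
      (hWi.const_mul _).integrableOn fun t => ?_
    have := young_sharp (8 * κ / Real.pi * μ * v t ^ 2) (W t) (by positivity) (hW0 t)
    simp only
    have e : Real.pi ^ 2 / 64 * (8 * κ / Real.pi * μ * v t ^ 2) ^ 3 =
        8 * κ ^ 3 / Real.pi * μ ^ 3 * (v t ^ 2) ^ 3 := by
      field_simp
      ring
    rw [e] at this
    linarith
  have hsplit : ∫ t in A, (μ * (deriv v t) ^ 2 + κ ^ 2 * (μ * v t ^ 2 - (μ * v t ^ 2) ^ 3)) =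
      μ * (∫ t in A, (deriv v t) ^ 2) + κ ^ 2 * μ * (∫ t in A, v t ^ 2)
        - κ ^ 2 * μ ^ 3 * ∫ t in A, (v t ^ 2) ^ 3 := by
    have i34 : Integrable (fun t => μ * (deriv v t) ^ 2 + κ ^ 2 * μ * v t ^ 2)
        (volume.restrict A) := (i3.const_mul _).add (i4.const_mul _)
    rw [← integral_const_mul, ← integral_const_mul, ← integral_const_mul,
      ← integral_add (i3.const_mul _) (i4.const_mul _), ← integral_sub i34 (i2.const_mul _)]
    refine integral_congr_ae (Filter.Eventually.of_forall fun t => ?_)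
    simp only
    ring
  rw [hsplit]
  rw [hQ2] at hQ
  have hc : 0 < 8 * κ / Real.pi * μ := by positivity
  have h3 := mul_lt_mul_of_pos_left (show (∫ t in A, (deriv v t) ^ 2) + κ ^ 2 * (∫ t in A, v t ^ 2)
      < ∫ t in A, W t * v t ^ 2 by linarith) hc
  have e1 : 8 * κ / Real.pi * (μ * (∫ t in A, (deriv v t) ^ 2) + κ ^ 2 * μ * (∫ t in A, v t ^ 2)
        - κ ^ 2 * μ ^ 3 * ∫ t in A, (v t ^ 2) ^ 3) =
      8 * κ / Real.pi * μ * ((∫ t in A, (deriv v t) ^ 2) + κ ^ 2 * (∫ t in A, v t ^ 2))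
        - 8 * κ ^ 3 / Real.pi * μ ^ 3 * ∫ t in A, (v t ^ 2) ^ 3 := by
    ring
  rw [e1]
  linarith

/-- General lower bound: if on `A` the density is at least `E + κ |s'| |h(s)|`. -/
lemma base_path {v : ℝ → ℝ} (hv : Adm v) {A : Set ℝ} (hA : MeasurableSet A) {κ μ : ℝ}
    (hκ : 0 < κ) (hμ : 0 < μ) (hQ : Q W κ A v < 0) (g : ℝ → ℝ) (hgi : IntegrableOn g A)
    (h : ℝ → ℝ) (hh : Continuous h) (x y : ℝ) (hxy : uIoc x y ⊆ A)
    (hpt : ∀ t ∈ A, g t + κ * (|2 * μ * v t * deriv v t| * |h (μ * v t ^ 2)|) ≤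
      μ * (deriv v t) ^ 2 + κ ^ 2 * (μ * v t ^ 2 - (μ * v t ^ 2) ^ 3)) :
    (8 * κ / Real.pi) * ((∫ t in A, g t) + κ * |∫ r in (μ * v x ^ 2)..(μ * v y ^ 2), h r|)
      ≤ CC * ∫ t in A, W t ^ ((3 : ℝ) / 2) := by
  refine le_trans ?_ (base hWm hW0 hWi hv hκ hμ hQ)
  have hpi := Real.pi_pos
  refine mul_le_mul_of_nonneg_left ?_ (by positivity)
  have hder : ∀ t, HasDerivAt (fun t => μ * v t ^ 2) (2 * μ * v t * deriv v t) t := by
    intro t
    have := ((hv.diff t).hasDerivAt.pow 2).const_mul μ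
    refine this.congr_deriv ?_
    push_cast
    ring
  have hcs : Continuous fun t => 2 * μ * v t * deriv v t :=
    (continuous_const.mul hv.cont).mul hv.contd
  have hp := path_bound (fun t => μ * v t ^ 2) (fun t => 2 * μ * v t * deriv v t) hder hcs h hh x y
  have hcont : Continuous fun t => |2 * μ * v t * deriv v t| * |h (μ * v t ^ 2)| :=
    hcs.abs.mul (hh.comp (continuous_const.mul (hv.cont.pow 2))).abs
  have hiI : IntegrableOn (fun t => |2 * μ * v t * deriv v t| * |h (μ * v t ^ 2)|) (uIoc x y) := by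
    have := hcont.intervalIntegrable (μ := volume) x y
    exact intervalIntegrable_iff.1 this
  have i1 : IntegrableOn (fun t => μ * (deriv v t) ^ 2 + κ ^ 2 * (μ * v t ^ 2 - (μ * v t ^ 2) ^ 3)) A := by
    refine ((hv.int_dsq.const_mul _).add ((((hv.int_sq.const_mul _)).sub ?_).const_mul _)).integrableOn
    have := hv.int_six.const_mul (μ ^ 3)
    refine this.congr (Filter.Eventually.of_forall fun t => ?_)
    simp only
    ring
  -- indicator form
  have key : ∫ t in A, (g t + κ * (uIoc x y).indicator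
      (fun t => |2 * μ * v t * deriv v t| * |h (μ * v t ^ 2)|) t) ≤
      ∫ t in A, (μ * (deriv v t) ^ 2 + κ ^ 2 * (μ * v t ^ 2 - (μ * v t ^ 2) ^ 3)) := by
    refine setIntegral_mono_on ?_ i1 hA fun t ht => ?_
    · refine hgi.add (Integrable.const_mul ?_ _)
      exact ((integrable_indicator_iff measurableSet_uIoc).2 hiI).integrableOn
    · refine le_trans ?_ (hpt t ht)
      have h1 : (uIoc x y).indicator (fun t => |2 * μ * v t * deriv v t| * |h (μ * v t ^ 2)|) t ≤
          |2 * μ * v t * deriv v t| * |h (μ * v t ^ 2)| := by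
        refine indicator_le_self' (fun _ _ => by positivity) t
      have := mul_le_mul_of_nonneg_left h1 hκ.le
      linarith
  refine le_trans ?_ key
  rw [integral_add hgi (Integrable.const_mul
    (((integrable_indicator_iff measurableSet_uIoc).2 hiI).integrableOn) _), integral_const_mul,
    setIntegral_indicator measurableSet_uIoc, inter_eq_self_of_subset_right hxy]
  have := mul_le_mul_of_nonneg_left hp hκ.le
  linarith

/-- One-soliton bound. -/
lemma L1 {v : ℝ → ℝ} (hv : Adm v) {A : Set ℝ} (hA : MeasurableSet A) {κ : ℝ} (hκ : 0 < κ)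
    (hQ : Q W κ A v < 0) (x y : ℝ) (hxy : uIoc x y ⊆ A) (hmax : ∀ t ∈ A, |v t| ≤ |v x|)
    (hx : v x ≠ 0) :
    κ ^ 2 * (2 - 8 / Real.pi * (v y ^ 2 / v x ^ 2)) ≤ CC * ∫ t in A, W t ^ ((3 : ℝ) / 2) := by
  have hpi := Real.pi_pos
  have hx2 : 0 < v x ^ 2 := by positivity
  have hμ : 0 < 1 / v x ^ 2 := by positivity
  have hb := base_path hWm hW0 hWi hv hA hκ hμ hQ (fun _ => 0) integrableOn_zero
    (fun s => Real.sqrt (1 - s ^ 2)) continuous_sqrt_one_sub x y hxy ?_
  · refine le_trans ?_ hb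
    have e1 : 1 / v x ^ 2 * v x ^ 2 = 1 := by field_simp
    have e2 : 1 / v x ^ 2 * v y ^ 2 = v y ^ 2 / v x ^ 2 := by ring
    rw [e1, e2]
    have := int_rho (v y ^ 2 / v x ^ 2) (by positivity)
    simp only [integral_zero, zero_add]
    have h2 : (8 * κ / Real.pi) * (κ * (Real.pi / 4 - v y ^ 2 / v x ^ 2)) ≤
        (8 * κ / Real.pi) * (κ * |∫ s in (1 : ℝ)..(v y ^ 2 / v x ^ 2), Real.sqrt (1 - s ^ 2)|) := by
      gcongr
    refine le_trans (le_of_eq ?_) h2
    field_simp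
    ring
  · intro t ht
    set m := 1 / v x ^ 2 with hm
    have hs1 : m * v t ^ 2 ≤ 1 := by
      have h1 : v t ^ 2 ≤ v x ^ 2 := by
        have := hmax t ht
        exact sq_le_sq.2 this
      rw [hm, one_div, inv_mul_le_iff₀ hx2]
      linarith
    have hs0 : 0 ≤ m * v t ^ 2 := by positivity
    set s := m * v t ^ 2 with hs
    have hsq : 0 ≤ 1 - s ^ 2 := by nlinarith
    rw [zero_add, abs_of_nonneg (Real.sqrt_nonneg (1 - s ^ 2))]
    have hR : 0 ≤ m * (deriv v t) ^ 2 + κ ^ 2 * (s - s ^ 3) := by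
      have : 0 ≤ s - s ^ 3 := by
        have : s - s ^ 3 = s * (1 - s ^ 2) := by ring
        rw [this]; positivity
      positivity
    refine le_trans (le_abs_self _) (abs_le_of_sq_le_sq ?_ hR)
    have e3 : (κ * (|2 * m * v t * deriv v t| * Real.sqrt (1 - s ^ 2))) ^ 2 =
        4 * (m * (deriv v t) ^ 2) * (κ ^ 2 * (s * (1 - s ^ 2))) := by
      rw [mul_pow, mul_pow, sq_abs, Real.sq_sqrt hsq]
      rw [hs]
      ring
    rw [e3]
    have e4 : s - s ^ 3 = s * (1 - s ^ 2) := by ring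
    rw [e4]
    exact four_mul_le_sq_add _ _

end

end

end Pool.Agent.CLR3
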