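import Pool.Agent.CLR3.Defs

/-! Polar coordinates in logarithmic form for `EuclideanSpace ℝ (Fin 3)`. -/

open MeasureTheory Set Metric Filter Topology

namespace Pool.Agent.CLR3

noncomputable section

/-- The exponential map onto the positive reals. -/
def expI (t : ℝ) : Ioi (0 : ℝ) := ⟨Real.exp t, Real.exp_pos t⟩

/-- The measure `exp (3 t) dt` on the line. -/
def ν3 : Measure ℝ := volume.withDensity fun t : ℝ => ENNReal.ofReal (Real.exp (3 * t))

theorem measurable_expI : Measurable expI :=
  Real.measurable_exp.subtype_mk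

theorem mp_exp : MeasurePreserving expI ν3 (Measure.volumeIoiPow 2) := by
  refine ⟨measurable_expI, ?_⟩
  ext s hs
  rw [Measure.map_apply measurable_expI hs, Measure.volumeIoiPow, withDensity_apply _ hs,
    setLIntegral_subtype measurableSet_Ioi s (fun a : ℝ => ENNReal.ofReal (a ^ 2)), ν3,
    withDensity_apply _ (measurable_expI hs)]
  have himg : Subtype.val '' s = Real.exp '' (expI ⁻¹' s) := by
    ext x
    constructor
    · rintro ⟨y, hy, rfl⟩
      refine ⟨Real.log y, ?_, Real.exp_log y.2⟩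
      change expI (Real.log y) ∈ s
      have : expI (Real.log y) = y := Subtype.ext (Real.exp_log y.2)
      rwa [this]
    · rintro ⟨t, ht, rfl⟩
      exact ⟨expI t, ht, rfl⟩
  rw [himg, lintegral_image_eq_lintegral_abs_deriv_mul (measurable_expI hs)
    (fun x _ => (Real.hasDerivAt_exp x).hasDerivWithinAt) (Real.exp_injective.injOn)]
  refine lintegral_congr fun t => ?_
  rw [abs_of_pos (Real.exp_pos t), ← ENNReal.ofReal_mul (Real.exp_pos t).le, ← Real.exp_nat_mul,
    ← Real.exp_add]
  congr 2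
  push_cast
  ring

/-- Logarithmic polar coordinates. -/
def pol (p : S2 × ℝ) : E3 := Real.exp p.2 • (p.1 : E3)

theorem continuous_pol : Continuous pol :=
  (Real.continuous_exp.comp continuous_snd).smul (continuous_subtype_val.comp continuous_fst)

instance : SFinite ν3 := by unfold ν3; infer_instance

theorem finrank_E3 : Module.finrank ℝ E3 = 3 := by simp

theorem mp_pol : MeasurePreserving pol (σ.prod ν3) (volume : Measure E3) := by
  have h1 : MeasurePreserving (Prod.map (id : S2 → S2) expI) (σ.prod ν3)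
      (σ.prod (Measure.volumeIoiPow 2)) := by
    have : SFinite σ := by unfold σ; infer_instance
    exact (MeasurePreserving.id σ).prod mp_exp
  have h2 := (volume : Measure E3).measurePreserving_homeomorphUnitSphereProd
  rw [finrank_E3] at h2
  have h3 : MeasurePreserving (homeomorphUnitSphereProd E3).symm (σ.prod (Measure.volumeIoiPow 2))
      ((volume : Measure E3).comap (Subtype.val : ({(0 : E3)}ᶜ : Set E3) → E3)) :=
    MeasurePreserving.symm (homeomorphUnitSphereProd E3).toMeasurableEquiv h2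
  have h4 : MeasurePreserving (Subtype.val : ({(0 : E3)}ᶜ : Set E3) → E3)
      ((volume : Measure E3).comap (Subtype.val : ({(0 : E3)}ᶜ : Set E3) → E3))
      ((volume : Measure E3).restrict {(0 : E3)}ᶜ) :=
    measurePreserving_subtype_coe (measurableSet_singleton _).compl
  rw [restrict_compl_singleton] at h4
  exact h4.comp (h3.comp h1)

theorem injective_pol : Function.Injective pol := by
  rintro ⟨ω, t⟩ ⟨ω', t'⟩ h
  simp only [pol] at h
  have h1 : ‖(ω : E3)‖ = 1 := by simp
  have h2 : ‖(ω' : E3)‖ = 1 := by simp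
  have h3 : Real.exp t = Real.exp t' := by
    have := congrArg norm h
    rw [norm_smul, norm_smul, h1, h2, mul_one, mul_one, Real.norm_of_nonneg (Real.exp_pos t).le,
      Real.norm_of_nonneg (Real.exp_pos t').le] at this
    exact this
  have h4 : t = t' := Real.exp_injective h3
  subst h4
  have h5 : (ω : E3) = ω' := smul_right_injective E3 (Real.exp_pos t).ne' h
  rw [Subtype.ext h5]

theorem me_pol : MeasurableEmbedding pol :=
  continuous_pol.measurableEmbedding injective_pol

theorem measurable_dens3 : Measurable fun t : ℝ => Real.toNNReal (Real.exp (3 * t)) := by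
  fun_prop

theorem ν3_eq : ν3 = volume.withDensity fun t : ℝ => ((Real.toNNReal (Real.exp (3 * t)) : NNReal) :
    ENNReal) := rfl

/-- Polar coordinates. -/
theorem polar (f : E3 → ℝ) (hf : Integrable f) :
    Integrable (fun t : ℝ => Real.exp (3 * t) * ∫ ω : S2, f (Real.exp t • (ω : E3)) ∂σ) ∧
    ∫ x, f x = ∫ t : ℝ, Real.exp (3 * t) * ∫ ω : S2, f (Real.exp t • (ω : E3)) ∂σ := by
  have : SFinite σ := by unfold σ; infer_instance
  have h1 : Integrable (f ∘ pol) (σ.prod ν3) := (mp_pol.integrable_comp_emb me_pol).mpr hf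
  have h2 : ∫ x, f x = ∫ p, f (pol p) ∂(σ.prod ν3) := (mp_pol.integral_comp me_pol f).symm
  have h3 := h1.integral_prod_right
  constructor
  · rw [ν3_eq, integrable_withDensity_iff_integrable_smul measurable_dens3] at h3
    refine h3.congr (Eventually.of_forall fun t => ?_)
    simp only [NNReal.smul_def, Real.coe_toNNReal _ (Real.exp_pos _).le, smul_eq_mul, pol,
      Function.comp]
  · rw [h2]
    rw [show (fun p => f (pol p)) = f ∘ pol from rfl, integral_prod_symm _ h1]
    conv_lhs => rw [ν3_eq]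
    rw [integral_withDensity_eq_integral_smul measurable_dens3]
    refine integral_congr_ae (Eventually.of_forall fun t => ?_)
    simp only [NNReal.smul_def, Real.coe_toNNReal _ (Real.exp_pos _).le, smul_eq_mul, pol,
      Function.comp]

/-! ### The form -/

instance : IsFiniteMeasure σ := by unfold σ; infer_instance

theorem norm_S2 (ω : S2) : ‖(ω : E3)‖ = 1 := by simp

theorem hasFDerivAt_resc {u : E3 → ℝ} (hu : ContDiff ℝ 1 u) (t : ℝ) (x : E3) :
    HasFDerivAt (resc u t) (Real.exp (3 * t / 2) • fderiv ℝ u (Real.exp t • x)) x := by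
  have h1 : HasFDerivAt u (fderiv ℝ u (Real.exp t • x)) (Real.exp t • x) :=
    (hu.differentiable one_ne_zero _).hasFDerivAt
  have h2 : HasFDerivAt (fun y : E3 => Real.exp t • y)
      (Real.exp t • ContinuousLinearMap.id ℝ E3) x :=
    (hasFDerivAt_id x).const_smul (Real.exp t)
  have h3 := (h1.comp x h2).const_mul (Real.exp (t / 2))
  refine h3.congr_fderiv ?_
  ext y
  simp only [_root_.smul_apply, ContinuousLinearMap.comp_apply,
    ContinuousLinearMap.id_apply, smul_eq_mul, map_smul]
  rw [← mul_assoc, ← Real.exp_add]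
  congr 2
  ring

theorem fderiv_resc {u : E3 → ℝ} (hu : ContDiff ℝ 1 u) (t : ℝ) (x : E3) :
    fderiv ℝ (resc u t) x = Real.exp (3 * t / 2) • fderiv ℝ u (Real.exp t • x) :=
  (hasFDerivAt_resc hu t x).fderiv

/-- The function `v v_t`. -/
def gg (u : E3 → ℝ) (t : ℝ) (x : E3) : ℝ :=
  (Real.exp (t / 2) * u (Real.exp t • x)) * (Real.exp (t / 2) * u (Real.exp t • x) / 2 +
    Real.exp (3 * t / 2) * fderiv ℝ u (Real.exp t • x) x)

theorem hasDerivAt_resc {u : E3 → ℝ} (hu : ContDiff ℝ 1 u) (t : ℝ) (x : E3) :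
    HasDerivAt (fun t => Real.exp (t / 2) * u (Real.exp t • x))
      (Real.exp (t / 2) * u (Real.exp t • x) / 2 +
        Real.exp (3 * t / 2) * fderiv ℝ u (Real.exp t • x) x) t := by
  have h1 : HasFDerivAt u (fderiv ℝ u (Real.exp t • x)) (Real.exp t • x) :=
    (hu.differentiable one_ne_zero _).hasFDerivAt
  have h2 : HasDerivAt (fun t : ℝ => Real.exp t • x) (Real.exp t • x) t :=
    (Real.hasDerivAt_exp t).smul_const x
  have h3 : HasDerivAt (fun t : ℝ => u (Real.exp t • x))
      (fderiv ℝ u (Real.exp t • x) (Real.exp t • x)) t := h1.comp_hasDerivAt t h2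
  have h4 : HasDerivAt (fun t : ℝ => Real.exp (t / 2)) (Real.exp (t / 2) * (1 / 2)) t :=
    ((hasDerivAt_id t).div_const 2).exp
  refine (h4.mul h3).congr_deriv ?_
  rw [map_smul, smul_eq_mul, show (3 * t / 2 : ℝ) = t / 2 + t by ring, Real.exp_add]
  ring

theorem dens_eq {u : E3 → ℝ} (hu : ContDiff ℝ 1 u) (w : ℝ → ℝ) (t : ℝ) :
    dens (logPot w) u t = (∫ ω : S2, gg u t ω ∂σ) + Real.exp (3 * t) *
      ∫ ω : S2, (‖fderiv ℝ u (Real.exp t • (ω : E3))‖ ^ 2
        - w ‖Real.exp t • (ω : E3)‖ * u (Real.exp t • (ω : E3)) ^ 2) ∂σ := by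
  have hfd : Continuous (fderiv ℝ u) := hu.continuous_fderiv one_ne_zero
  have hc : Continuous fun ω : S2 => Real.exp t • (ω : E3) := by fun_prop
  have i1 : Integrable (fun ω : S2 => gg u t ω) σ := by
    apply Continuous.integrable_of_hasCompactSupport
    · unfold gg
      have := hu.continuous
      have h5 : Continuous fun ω : S2 => fderiv ℝ u (Real.exp t • (ω : E3)) (ω : E3) :=
        (hfd.comp hc).clm_apply continuous_subtype_val
      fun_prop
    · exact HasCompactSupport.of_compactSpace _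
  have i2 : Integrable (fun ω : S2 => Real.exp (3 * t) *
      (‖fderiv ℝ u (Real.exp t • (ω : E3))‖ ^ 2
        - w ‖Real.exp t • (ω : E3)‖ * u (Real.exp t • (ω : E3)) ^ 2)) σ := by
    apply Continuous.integrable_of_hasCompactSupport
    · have e : ∀ ω : S2, ‖Real.exp t • (ω : E3)‖ = Real.exp t := by
        intro ω
        rw [norm_smul, norm_S2, mul_one, Real.norm_of_nonneg (Real.exp_pos t).le]
      simp only [e]
      have := hu.continuous
      fun_prop
    · exact HasCompactSupport.of_compactSpace _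
  rw [← integral_const_mul, ← integral_add i1 i2]
  refine integral_congr_ae (Eventually.of_forall fun ω => ?_)
  simp only
  rw [tan2, fderiv_resc hu, norm_smul, norm_smul, norm_S2]
  simp only [_root_.smul_apply, smul_eq_mul, resc, gg, logPot,
    Real.norm_of_nonneg (Real.exp_pos _).le, mul_one]
  have e1 : Real.exp (3 * t) = Real.exp (t / 2) ^ 6 := by
    rw [← Real.exp_nat_mul]; congr 1; push_cast; ring
  have e2 : Real.exp (3 * t / 2) = Real.exp (t / 2) ^ 3 := by
    rw [← Real.exp_nat_mul]; congr 1; push_cast; ring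
  have e3 : Real.exp (2 * t) = Real.exp (t / 2) ^ 4 := by
    rw [← Real.exp_nat_mul]; congr 1; push_cast; ring
  rw [e1, e2, e3]
  ring

/-- Bounds for a compactly supported function. -/
theorem exists_bounds {u : E3 → ℝ} (hu : ContDiff ℝ 1 u) (hc : HasCompactSupport u) :
    ∃ M T : ℝ, 0 ≤ M ∧ (∀ x, |u x| ≤ M) ∧ (∀ x, ‖fderiv ℝ u x‖ ≤ M) ∧
      ∀ t, T ≤ t → ∀ ω : S2, u (Real.exp t • (ω : E3)) = 0 := by
  obtain ⟨M1, hM1⟩ := hc.exists_bound_of_continuous hu.continuous
  obtain ⟨M2, hM2⟩ := (hc.fderiv (𝕜 := ℝ)).exists_bound_of_continuous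
    (hu.continuous_fderiv one_ne_zero)
  obtain ⟨R, hR⟩ := hc.isCompact.isBounded.exists_norm_le
  refine ⟨max 0 (max M1 M2), Real.log (max 1 (R + 1)), le_max_left _ _, fun x => ?_, fun x => ?_,
    fun t ht ω => ?_⟩
  · exact (hM1 x).trans ((le_max_left _ _).trans (le_max_right _ _))
  · exact (hM2 x).trans ((le_max_right _ _).trans (le_max_right _ _))
  · apply image_eq_zero_of_notMem_tsupport
    intro hmem
    have h1 := hR _ hmem
    rw [norm_smul, norm_S2, mul_one, Real.norm_of_nonneg (Real.exp_pos t).le] at h1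
    have h2 : max 1 (R + 1) ≤ Real.exp t := by
      have h3 : (0 : ℝ) < max 1 (R + 1) := lt_of_lt_of_le one_pos (le_max_left _ _)
      calc max 1 (R + 1) = Real.exp (Real.log (max 1 (R + 1))) := (Real.exp_log h3).symm
        _ ≤ Real.exp t := Real.exp_le_exp.mpr ht
    have := (le_max_right 1 (R + 1)).trans h2
    linarith

theorem gg_bound {u : E3 → ℝ} (hu : ContDiff ℝ 1 u) (hc : HasCompactSupport u) :
    ∃ b : ℝ → ℝ, Integrable b ∧ ∀ t (ω : S2), |gg u t ω| ≤ b t := by
  obtain ⟨M, T, hM, h1, h2, h3⟩ := exists_bounds hu hc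
  refine ⟨(Iic T).indicator fun t => M * (M / 2 + Real.exp T * M) * Real.exp t, ?_, ?_⟩
  · rw [integrable_indicator_iff measurableSet_Iic]
    exact (integrableOn_exp_Iic T).const_mul _
  · intro t ω
    by_cases ht : t ≤ T
    · rw [indicator_of_mem (show t ∈ Iic T from ht)]
      have hD : |fderiv ℝ u (Real.exp t • (ω : E3)) (ω : E3)| ≤ M := by
        have := (fderiv ℝ u (Real.exp t • (ω : E3))).le_opNorm (ω : E3)
        rw [norm_S2, mul_one] at this
        exact this.trans (h2 _)
      have e1 : Real.exp t = Real.exp (t / 2) * Real.exp (t / 2) := by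
        rw [← Real.exp_add]; congr 1; ring
      have e2 : Real.exp (3 * t / 2) = Real.exp (t / 2) * Real.exp t := by
        rw [← Real.exp_add]; congr 1; ring
      have ha := Real.exp_pos (t / 2)
      have hb : Real.exp t ≤ Real.exp T := Real.exp_le_exp.mpr ht
      have hbp := Real.exp_pos t
      unfold gg
      rw [abs_mul, e2]
      have f1 : |Real.exp (t / 2) * u (Real.exp t • (ω : E3))| ≤ Real.exp (t / 2) * M := by
        rw [abs_mul, abs_of_pos ha]
        exact mul_le_mul_of_nonneg_left (h1 _) ha.le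
      have f2 : |Real.exp (t / 2) * u (Real.exp t • (ω : E3)) / 2 +
          Real.exp (t / 2) * Real.exp t * fderiv ℝ u (Real.exp t • (ω : E3)) (ω : E3)| ≤
          Real.exp (t / 2) * (M / 2 + Real.exp T * M) := by
        refine (abs_add_le _ _).trans ?_
        rw [abs_div, abs_mul (Real.exp (t / 2) * Real.exp t), abs_of_pos (mul_pos ha hbp),
          abs_of_pos (two_pos : (0 : ℝ) < 2)]
        have g1 : |Real.exp (t / 2) * u (Real.exp t • (ω : E3))| / 2 ≤
            Real.exp (t / 2) * M / 2 := by linarith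
        have g2 : Real.exp (t / 2) * Real.exp t *
            |fderiv ℝ u (Real.exp t • (ω : E3)) (ω : E3)| ≤
            Real.exp (t / 2) * Real.exp T * M := by
          gcongr
        calc _ ≤ Real.exp (t / 2) * M / 2 + Real.exp (t / 2) * Real.exp T * M := add_le_add g1 g2
          _ = _ := by ring
      calc _ ≤ Real.exp (t / 2) * M * (Real.exp (t / 2) * (M / 2 + Real.exp T * M)) :=
            mul_le_mul f1 f2 (abs_nonneg _) (by positivity)
        _ = _ := by rw [e1]; ring
    · rw [indicator_of_notMem (show t ∉ Iic T from ht)]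
      unfold gg
      rw [h3 t (le_of_lt (not_le.mp ht)) ω]
      simp

theorem continuous_gg {u : E3 → ℝ} (hu : ContDiff ℝ 1 u) :
    Continuous fun p : ℝ × S2 => gg u p.1 p.2 := by
  have hfd : Continuous (fderiv ℝ u) := hu.continuous_fderiv one_ne_zero
  have hc : Continuous fun p : ℝ × S2 => Real.exp p.1 • (p.2 : E3) := by fun_prop
  have h5 : Continuous fun p : ℝ × S2 => fderiv ℝ u (Real.exp p.1 • (p.2 : E3)) (p.2 : E3) :=
    (hfd.comp hc).clm_apply (continuous_subtype_val.comp continuous_snd)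
  have := hu.continuous
  unfold gg
  fun_prop

theorem gg_integrable {u : E3 → ℝ} (hu : ContDiff ℝ 1 u) (hc : HasCompactSupport u) :
    Integrable (fun p : ℝ × S2 => gg u p.1 p.2) (volume.prod σ) := by
  obtain ⟨b, hb, hle⟩ := gg_bound hu hc
  refine (hb.comp_fst σ).mono' (continuous_gg hu).aestronglyMeasurable ?_
  exact Eventually.of_forall fun p => hle p.1 p.2

theorem gg_integral_zero {u : E3 → ℝ} (hu : ContDiff ℝ 1 u) (hc : HasCompactSupport u) (ω : S2) :
    ∫ t, gg u t ω = 0 := by
  obtain ⟨b, hb, hle⟩ := gg_bound hu hc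
  obtain ⟨M, T, hM, h1, h2, h3⟩ := exists_bounds hu hc
  have hi : Integrable fun t => gg u t ω := by
    refine hb.mono' ?_ (Eventually.of_forall fun t => hle t ω)
    exact ((continuous_gg hu).comp (by fun_prop : Continuous fun t : ℝ => (t, ω))).aestronglyMeasurable
  have hd : ∀ t, HasDerivAt (fun t => (Real.exp (t / 2) * u (Real.exp t • (ω : E3))) ^ 2 / 2)
      (gg u t ω) t := by
    intro t
    refine (((hasDerivAt_resc hu t (ω : E3)).pow 2).div_const 2).congr_deriv ?_
    unfold gg
    simp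
    ring
  have hbot : Tendsto (fun t => (Real.exp (t / 2) * u (Real.exp t • (ω : E3))) ^ 2 / 2) atBot
      (𝓝 0) := by
    refine squeeze_zero (fun t => by positivity) (g := fun t => Real.exp t * (M ^ 2 / 2)) ?_ ?_
    · intro t
      have e1 : Real.exp t = Real.exp (t / 2) ^ 2 := by
        rw [← Real.exp_nat_mul]; congr 1; push_cast; ring
      have : u (Real.exp t • (ω : E3)) ^ 2 ≤ M ^ 2 := by
        rw [← sq_abs]
        exact pow_le_pow_left₀ (abs_nonneg _) (h1 _) 2
      rw [mul_pow, ← e1]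
      have := mul_le_mul_of_nonneg_left this (Real.exp_pos t).le
      linarith
    · have := Real.tendsto_exp_atBot.mul_const (M ^ 2 / 2)
      rwa [zero_mul] at this
  have htop : Tendsto (fun t => (Real.exp (t / 2) * u (Real.exp t • (ω : E3))) ^ 2 / 2) atTop
      (𝓝 0) := by
    refine tendsto_const_nhds.congr' ?_
    filter_upwards [eventually_ge_atTop T] with t ht
    rw [h3 t ht ω]
    simp
  rw [integral_of_hasDerivAt_of_tendsto hd hi hbot htop, sub_zero]

theorem gg_total {u : E3 → ℝ} (hu : ContDiff ℝ 1 u) (hc : HasCompactSupport u) :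
    Integrable (fun t => ∫ ω : S2, gg u t ω ∂σ) ∧ ∫ t, ∫ ω : S2, gg u t ω ∂σ = 0 := by
  have h := gg_integrable hu hc
  refine ⟨h.integral_prod_left, ?_⟩
  rw [integral_integral_swap (f := fun (t : ℝ) (ω : S2) => gg u t ω) h]
  simp only [gg_integral_zero hu hc, integral_zero]

/-- T4 (polar coordinates for the form). -/
theorem form_polar (w : ℝ → ℝ) (hw : Measurable w) (hw0 : ∀ r, 0 ≤ w r)
    (hint : Integrable (fun x : E3 => w ‖x‖ ^ ((3 : ℝ) / 2)))
    (u : E3 → ℝ) (hu : ContDiff ℝ ((⊤ : ℕ∞) : WithTop ℕ∞) u) (hc : HasCompactSupport u) :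
    (∫ x, ‖fderiv ℝ u x‖ ^ 2) - ∫ x, w ‖x‖ * u x ^ 2 = QQ (logPot w) univ u := by
  have hu1 : ContDiff ℝ 1 u := hu.of_le (by exact_mod_cast le_top)
  obtain ⟨M, T, hM, h1, h2, h3⟩ := exists_bounds hu1 hc
  have i1 : Integrable fun x : E3 => ‖fderiv ℝ u x‖ ^ 2 := by
    apply Continuous.integrable_of_hasCompactSupport
    · have := hu1.continuous_fderiv one_ne_zero
      fun_prop
    · have := (hc.fderiv (𝕜 := ℝ)).norm
      exact this.comp_left (g := fun y : ℝ => y ^ 2) (by simp)
  have i0 : Integrable fun x : E3 => u x ^ 2 := by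
    apply Continuous.integrable_of_hasCompactSupport
    · have := hu1.continuous
      fun_prop
    · exact hc.comp_left (g := fun y : ℝ => y ^ 2) (by simp)
  have i2 : Integrable fun x : E3 => w ‖x‖ * u x ^ 2 := by
    refine (i0.add (hint.const_mul (M ^ 2))).mono' ?_ (Eventually.of_forall fun x => ?_)
    · exact ((hw.comp measurable_norm).aestronglyMeasurable).mul
        (hu1.continuous.pow 2).aestronglyMeasurable
    · have hM2 : u x ^ 2 ≤ M ^ 2 := by
        rw [← sq_abs]
        exact pow_le_pow_left₀ (abs_nonneg _) (h1 _) 2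
      have hw1 : w ‖x‖ ≤ 1 + w ‖x‖ ^ ((3 : ℝ) / 2) := by
        rcases le_or_gt (w ‖x‖) 1 with h | h
        · have := Real.rpow_nonneg (hw0 ‖x‖) ((3 : ℝ) / 2)
          linarith
        · have := Real.rpow_le_rpow_of_exponent_le h.le (show (1 : ℝ) ≤ 3 / 2 by norm_num)
          rw [Real.rpow_one] at this
          linarith
      rw [Real.norm_of_nonneg (mul_nonneg (hw0 _) (sq_nonneg _))]
      have hr := Real.rpow_nonneg (hw0 ‖x‖) ((3 : ℝ) / 2)
      calc w ‖x‖ * u x ^ 2 ≤ (1 + w ‖x‖ ^ ((3 : ℝ) / 2)) * u x ^ 2 :=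
            mul_le_mul_of_nonneg_right hw1 (sq_nonneg _)
        _ = u x ^ 2 + w ‖x‖ ^ ((3 : ℝ) / 2) * u x ^ 2 := by ring
        _ ≤ u x ^ 2 + w ‖x‖ ^ ((3 : ℝ) / 2) * M ^ 2 := by gcongr
        _ = _ := by simp only [Pi.add_apply]; ring
  obtain ⟨j1, j2⟩ := polar (fun x => ‖fderiv ℝ u x‖ ^ 2 - w ‖x‖ * u x ^ 2) (i1.sub i2)
  obtain ⟨k1, k2⟩ := gg_total hu1 hc
  rw [← integral_sub i1 i2, j2, QQ, Measure.restrict_univ]
  simp only [dens_eq hu1]
  rw [integral_add k1 j1, k2, zero_add]

/-- T4' (polar coordinates for the potential). -/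
theorem pot_polar (w : ℝ → ℝ) (hw : Measurable w) (hw0 : ∀ r, 0 ≤ w r)
    (hint : Integrable (fun x : E3 => w ‖x‖ ^ ((3 : ℝ) / 2))) :
    Measurable (logPot w) ∧ (∀ t, 0 ≤ logPot w t) ∧
    Integrable (fun t => logPot w t ^ ((3 : ℝ) / 2)) ∧
    ∫ x : E3, w ‖x‖ ^ ((3 : ℝ) / 2) = 4 * Real.pi * ∫ t, logPot w t ^ ((3 : ℝ) / 2) := by
  have key : ∀ t, logPot w t ^ ((3 : ℝ) / 2) =
      |Real.exp t| • (Real.exp t ^ 2 • w (Real.exp t) ^ ((3 : ℝ) / 2)) := by
    intro t
    rw [logPot, Real.mul_rpow (Real.exp_pos _).le (hw0 _), ← Real.exp_mul, abs_of_pos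
      (Real.exp_pos t), smul_eq_mul, smul_eq_mul, ← mul_assoc, ← Real.exp_nat_mul, ← Real.exp_add]
    congr 2
    push_cast
    ring
  have himg : Real.exp '' univ = Ioi 0 := by rw [image_univ, Real.range_exp]
  refine ⟨?_, fun t => mul_nonneg (Real.exp_pos _).le (hw0 _), ?_, ?_⟩
  · unfold logPot
    exact (by fun_prop : Measurable fun t : ℝ => Real.exp (2 * t)).mul
      (hw.comp Real.measurable_exp)
  · have h1 := (integrable_fun_norm_addHaar (volume : Measure E3)
      (f := fun r => w r ^ ((3 : ℝ) / 2))).mp hint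
    rw [finrank_E3, ← himg, integrableOn_image_iff_integrableOn_abs_deriv_smul MeasurableSet.univ
      (fun x _ => (Real.hasDerivAt_exp x).hasDerivWithinAt) (Real.exp_injective.injOn),
      integrableOn_univ] at h1
    refine h1.congr (Eventually.of_forall fun t => ?_)
    simp only [key]
  · rw [integral_fun_norm_addHaar (volume : Measure E3) (fun r => w r ^ ((3 : ℝ) / 2)),
      finrank_E3, ← himg, integral_image_eq_integral_abs_deriv_smul MeasurableSet.univ
      (fun x _ => (Real.hasDerivAt_exp x).hasDerivWithinAt) (Real.exp_injective.injOn),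
      Measure.restrict_univ]
    simp only [key]
    rw [Measure.real, EuclideanSpace.volume_ball_fin_three]
    simp only [ENNReal.ofReal_one, one_pow, one_mul, smul_eq_mul, nsmul_eq_mul]
    rw [ENNReal.toReal_ofReal (by positivity)]
    push_cast
    ring

end

end Pool.Agent.CLR3
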