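import Pool.Agent.CLR3.Polar

/-! Sharpness of the constant: the Aubin-Talenti profile. -/

open MeasureTheory Set Metric Filter Topology

namespace Pool.Agent.CLR3

noncomputable section

/-! ### Two integrals on the half line -/

theorem hasDerivAt_g1 (y : ℝ) :
    HasDerivAt (fun y : ℝ => (Real.arctan y + y * (y ^ 2 - 1) / (1 + y ^ 2) ^ 2) / 8)
      (y ^ 2 * ((1 + y ^ 2) ^ 3)⁻¹) y := by
  have h0 : (1 + y ^ 2 : ℝ) ≠ 0 := by positivity
  have h1 : HasDerivAt (fun y : ℝ => y * (y ^ 2 - 1)) (1 * (y ^ 2 - 1) + y * (2 * y)) y := by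
    have := (hasDerivAt_id' y).fun_mul (((hasDerivAt_pow 2 y)).sub_const 1)
    simpa using this
  have h2 : HasDerivAt (fun y : ℝ => (1 + y ^ 2) ^ 2) (2 * (1 + y ^ 2) * (2 * y)) y := by
    have := ((hasDerivAt_pow 2 y).const_add 1).fun_pow 2
    simpa using this
  have h3 := ((Real.hasDerivAt_arctan y).add (h1.div h2 (by positivity))).div_const 8
  refine h3.congr_deriv ?_
  field_simp
  ring

theorem hasDerivAt_g2 (y : ℝ) :
    HasDerivAt (fun y : ℝ => (3 * Real.arctan y - y * (5 * y ^ 2 + 3) / (1 + y ^ 2) ^ 2) / 8)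
      (y ^ 4 * ((1 + y ^ 2) ^ 3)⁻¹) y := by
  have h0 : (1 + y ^ 2 : ℝ) ≠ 0 := by positivity
  have h1 : HasDerivAt (fun y : ℝ => y * (5 * y ^ 2 + 3))
      (1 * (5 * y ^ 2 + 3) + y * (5 * (2 * y))) y := by
    have := (hasDerivAt_id' y).fun_mul (((hasDerivAt_pow 2 y).const_mul 5).add_const 3)
    simpa using this
  have h2 : HasDerivAt (fun y : ℝ => (1 + y ^ 2) ^ 2) (2 * (1 + y ^ 2) * (2 * y)) y := by
    have := ((hasDerivAt_pow 2 y).const_add 1).fun_pow 2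
    simpa using this
  have h3 := (((Real.hasDerivAt_arctan y).const_mul 3).sub (h1.div h2 (by positivity))).div_const 8
  refine h3.congr_deriv ?_
  field_simp
  ring

theorem tendsto_arctan : Tendsto Real.arctan atTop (𝓝 (Real.pi / 2)) :=
  (Real.tendsto_arctan_atTop).mono_right nhdsWithin_le_nhds

theorem tendsto_g1 : Tendsto (fun y : ℝ => (Real.arctan y + y * (y ^ 2 - 1) / (1 + y ^ 2) ^ 2) / 8)
    atTop (𝓝 (Real.pi / 16)) := by
  have h1 : Tendsto (fun y : ℝ => y * (y ^ 2 - 1) / (1 + y ^ 2) ^ 2) atTop (𝓝 0) := by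
    refine squeeze_zero_norm' ?_ tendsto_inv_atTop_zero
    filter_upwards [eventually_gt_atTop (0 : ℝ)] with y hy
    rw [Real.norm_eq_abs, abs_div, abs_mul, abs_of_pos hy, abs_of_pos (by positivity :
      0 < (1 + y ^ 2) ^ 2), div_le_iff₀ (by positivity)]
    have h2 : |y ^ 2 - 1| ≤ y ^ 2 + 1 := by rw [abs_le]; constructor <;> nlinarith [sq_nonneg y]
    have h3 : y⁻¹ * (1 + y ^ 2) ^ 2 = y * ((y ^ 2 + 1) * ((1 + y ^ 2) / y ^ 2)) := by
      field_simp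
      ring
    rw [h3]
    refine mul_le_mul_of_nonneg_left ?_ hy.le
    have h4 : 1 ≤ (1 + y ^ 2) / y ^ 2 := by rw [le_div_iff₀ (by positivity)]; linarith
    nlinarith [sq_nonneg y]
  have h2 := (tendsto_arctan.add h1).div_const 8
  have h3 : (Real.pi / 2 + 0) / 8 = Real.pi / 16 := by ring
  rwa [h3] at h2

theorem tendsto_g2 :
    Tendsto (fun y : ℝ => (3 * Real.arctan y - y * (5 * y ^ 2 + 3) / (1 + y ^ 2) ^ 2) / 8)
    atTop (𝓝 (3 * Real.pi / 16)) := by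
  have h1 : Tendsto (fun y : ℝ => y * (5 * y ^ 2 + 3) / (1 + y ^ 2) ^ 2) atTop (𝓝 0) := by
    have h5 : Tendsto (fun y : ℝ => 5 * y⁻¹) atTop (𝓝 0) := by
      simpa using tendsto_inv_atTop_zero.const_mul (5 : ℝ)
    refine squeeze_zero_norm' ?_ h5
    filter_upwards [eventually_gt_atTop (0 : ℝ)] with y hy
    rw [Real.norm_eq_abs, abs_of_nonneg (by positivity), div_le_iff₀ (by positivity)]
    have h3 : 5 * y⁻¹ * (1 + y ^ 2) ^ 2 = y * ((5 * y ^ 2 + 5) * ((1 + y ^ 2) / y ^ 2)) := by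
      field_simp
      ring
    rw [h3]
    refine mul_le_mul_of_nonneg_left ?_ hy.le
    have h4 : 1 ≤ (1 + y ^ 2) / y ^ 2 := by rw [le_div_iff₀ (by positivity)]; linarith
    nlinarith [sq_nonneg y]
  have h2 := ((tendsto_arctan.const_mul 3).sub h1).div_const 8
  have h3 : (3 * (Real.pi / 2) - 0) / 8 = 3 * Real.pi / 16 := by ring
  rwa [h3] at h2

theorem int_g1 : IntegrableOn (fun y : ℝ => y ^ 2 * ((1 + y ^ 2) ^ 3)⁻¹) (Ioi 0) ∧
    ∫ y in Ioi (0 : ℝ), y ^ 2 * ((1 + y ^ 2) ^ 3)⁻¹ = Real.pi / 16 := by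
  constructor
  · exact integrableOn_Ioi_deriv_of_nonneg' (fun x _ => hasDerivAt_g1 x)
      (fun x _ => by positivity) tendsto_g1
  · rw [integral_Ioi_of_hasDerivAt_of_nonneg' (fun x _ => hasDerivAt_g1 x)
      (fun x _ => by positivity) tendsto_g1]
    simp

theorem int_g2 : IntegrableOn (fun y : ℝ => y ^ 4 * ((1 + y ^ 2) ^ 3)⁻¹) (Ioi 0) ∧
    ∫ y in Ioi (0 : ℝ), y ^ 4 * ((1 + y ^ 2) ^ 3)⁻¹ = 3 * Real.pi / 16 := by
  constructor
  · exact integrableOn_Ioi_deriv_of_nonneg' (fun x _ => hasDerivAt_g2 x)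
      (fun x _ => by positivity) tendsto_g2
  · rw [integral_Ioi_of_hasDerivAt_of_nonneg' (fun x _ => hasDerivAt_g2 x)
      (fun x _ => by positivity) tendsto_g2]
    simp

/-! ### Integrals over the space -/

theorem ball_real : (volume : Measure E3).real (ball 0 1) = Real.pi * 4 / 3 := by
  rw [Measure.real, EuclideanSpace.volume_ball_fin_three]
  simp only [ENNReal.ofReal_one, one_pow, one_mul]
  rw [ENNReal.toReal_ofReal (by positivity)]

/-- `∫ (1 + |x|^2)^(-3) = π^2 / 4`. -/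
theorem int_bSh : Integrable (fun x : E3 => ((1 + ‖x‖ ^ 2) ^ 3)⁻¹) ∧
    ∫ x : E3, ((1 + ‖x‖ ^ 2) ^ 3)⁻¹ = Real.pi ^ 2 / 4 := by
  constructor
  · rw [integrable_fun_norm_addHaar (volume : Measure E3) (f := fun y : ℝ => ((1 + y ^ 2) ^ 3)⁻¹),
      finrank_E3]
    exact int_g1.1
  · rw [integral_fun_norm_addHaar (volume : Measure E3) (fun y : ℝ => ((1 + y ^ 2) ^ 3)⁻¹),
      finrank_E3, ball_real]
    have h : ∫ y in Ioi (0 : ℝ), y ^ (3 - 1) • ((1 + y ^ 2) ^ 3)⁻¹ = Real.pi / 16 := int_g1.2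
    rw [h]
    simp only [nsmul_eq_mul, smul_eq_mul]
    push_cast
    ring

/-- `∫ |x|^2 (1 + |x|^2)^(-3) = 3 π^2 / 4`. -/
theorem int_c : Integrable (fun x : E3 => ‖x‖ ^ 2 * ((1 + ‖x‖ ^ 2) ^ 3)⁻¹) ∧
    ∫ x : E3, ‖x‖ ^ 2 * ((1 + ‖x‖ ^ 2) ^ 3)⁻¹ = 3 * Real.pi ^ 2 / 4 := by
  have e : ∀ y : ℝ, y ^ (3 - 1) • (y ^ 2 * ((1 + y ^ 2) ^ 3)⁻¹) = y ^ 4 * ((1 + y ^ 2) ^ 3)⁻¹ := by
    intro y
    simp only [smul_eq_mul]
    ring
  constructor
  · rw [integrable_fun_norm_addHaar (volume : Measure E3)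
      (f := fun y : ℝ => y ^ 2 * ((1 + y ^ 2) ^ 3)⁻¹), finrank_E3]
    simp only [e]
    exact int_g2.1
  · rw [integral_fun_norm_addHaar (volume : Measure E3)
      (fun y : ℝ => y ^ 2 * ((1 + y ^ 2) ^ 3)⁻¹), finrank_E3, ball_real]
    simp only [e]
    rw [int_g2.2]
    simp only [nsmul_eq_mul, smul_eq_mul]
    push_cast
    ring

theorem int_a : Integrable (fun x : E3 => ((1 + ‖x‖ ^ 2) ^ 2)⁻¹) := by
  have h := integrable_rpow_neg_one_add_norm_sq (E := E3) (μ := volume) (r := 4)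
    (by rw [finrank_E3]; norm_num)
  refine h.congr (Eventually.of_forall fun x => ?_)
  have h0 : (0 : ℝ) ≤ 1 + ‖x‖ ^ 2 := by positivity
  change (1 + ‖x‖ ^ 2) ^ (-(4 : ℝ) / 2) = ((1 + ‖x‖ ^ 2) ^ 2)⁻¹
  rw [show (-(4 : ℝ) / 2) = -((2 : ℕ) : ℝ) by norm_num, Real.rpow_neg h0, Real.rpow_natCast]

/-! ### The truncation -/

/-- The smooth truncation function, with derivative between `0` and `1`. -/
def trF (t : ℝ) : ℝ := ∫ s in (0 : ℝ)..t, Real.smoothTransition (s - 1)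

theorem cont_trS : Continuous fun s : ℝ => Real.smoothTransition (s - 1) :=
  Real.smoothTransition.continuous.comp (continuous_id.sub continuous_const)

theorem hasDerivAt_trF (t : ℝ) : HasDerivAt trF (Real.smoothTransition (t - 1)) t :=
  intervalIntegral.integral_hasDerivAt_right (cont_trS.intervalIntegrable _ _)
    (cont_trS.stronglyMeasurableAtFilter _ _) cont_trS.continuousAt

theorem deriv_trF : deriv trF = fun t : ℝ => Real.smoothTransition (t - 1) :=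
  funext fun t => (hasDerivAt_trF t).deriv

theorem contDiff_trF : ContDiff ℝ ((⊤ : ℕ∞) : WithTop ℕ∞) trF := by
  rw [contDiff_infty_iff_deriv]
  refine ⟨fun t => (hasDerivAt_trF t).differentiableAt, ?_⟩
  rw [deriv_trF]
  exact Real.smoothTransition.contDiff.comp (contDiff_id.sub contDiff_const)

theorem trF_zero {t : ℝ} (ht : t ≤ 1) : trF t = 0 := by
  rw [trF]
  refine intervalIntegral.integral_zero_ae (Eventually.of_forall fun s hs => ?_)
  refine Real.smoothTransition.zero_of_nonpos ?_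
  rcases mem_uIoc.1 hs with h | h
  · linarith [h.2]
  · linarith [h.2]

theorem trF_mono : Monotone trF := by
  refine monotone_of_deriv_nonneg (fun t => (hasDerivAt_trF t).differentiableAt) fun t => ?_
  rw [deriv_trF]
  exact Real.smoothTransition.nonneg _

theorem trF_nonneg (t : ℝ) : 0 ≤ trF t := by
  by_cases ht : t ≤ 1
  · rw [trF_zero ht]
  · rw [← trF_zero (le_refl (1 : ℝ))]
    exact trF_mono (le_of_not_ge ht)

theorem trF_ge (t : ℝ) : t - 2 ≤ trF t := by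
  by_cases ht : t ≤ 2
  · exact le_trans (by linarith) (trF_nonneg t)
  · rw [not_le] at ht
    have h1 : trF t = trF 2 + ∫ s in (2 : ℝ)..t, Real.smoothTransition (s - 1) := by
      rw [trF, trF, intervalIntegral.integral_add_adjacent_intervals
        (cont_trS.intervalIntegrable _ _) (cont_trS.intervalIntegrable _ _)]
    have h2 : ∫ s in (2 : ℝ)..t, Real.smoothTransition (s - 1) = ∫ s in (2 : ℝ)..t, (1 : ℝ) := by
      refine intervalIntegral.integral_congr fun s hs => ?_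
      rw [uIcc_of_le ht.le] at hs
      exact Real.smoothTransition.one_of_one_le (by linarith [hs.1])
    rw [h1, h2, intervalIntegral.integral_const, smul_eq_mul, mul_one]
    linarith [trF_nonneg 2]

/-! ### The profile -/

/-- The profile `(1 + |x|^2)^(-1/2)`. -/
def prof (x : E3) : ℝ := (Real.sqrt (1 + ‖x‖ ^ 2))⁻¹

theorem prof_pos (x : E3) : 0 < prof x := by
  have : 0 < 1 + ‖x‖ ^ 2 := by positivity
  exact inv_pos.2 (Real.sqrt_pos.2 this)

theorem prof_sq (x : E3) : prof x ^ 2 = (1 + ‖x‖ ^ 2)⁻¹ := by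
  rw [prof, inv_pow, Real.sq_sqrt (by positivity)]

theorem prof_le_one (x : E3) : prof x ≤ 1 := by
  rw [prof]
  refine inv_le_one_of_one_le₀ ?_
  rw [Real.one_le_sqrt]
  nlinarith [sq_nonneg ‖x‖]

theorem contDiff_prof : ContDiff ℝ ((⊤ : ℕ∞) : WithTop ℕ∞) prof := by
  have h1 : ContDiff ℝ ((⊤ : ℕ∞) : WithTop ℕ∞) fun x : E3 => 1 + ‖x‖ ^ 2 :=
    contDiff_const.add (contDiff_norm_sq ℝ)
  have h2 : ∀ x : E3, 1 + ‖x‖ ^ 2 ≠ 0 := fun x => by positivity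
  exact (h1.sqrt h2).inv fun x => (Real.sqrt_pos.2 (by positivity)).ne'

theorem norm_fderiv_prof (x : E3) : ‖fderiv ℝ prof x‖ ^ 2 = ‖x‖ ^ 2 * ((1 + ‖x‖ ^ 2) ^ 3)⁻¹ := by
  have h0 : (1 + ‖x‖ ^ 2 : ℝ) ≠ 0 := by positivity
  have hs : Real.sqrt (1 + ‖x‖ ^ 2) ≠ 0 := (Real.sqrt_pos.2 (by positivity)).ne'
  have h1 : HasFDerivAt (fun x : E3 => 1 + ‖x‖ ^ 2) (2 • innerSL ℝ x) x :=
    (hasStrictFDerivAt_norm_sq x).hasFDerivAt.const_add 1
  have h2 : HasDerivAt (fun s : ℝ => (Real.sqrt s)⁻¹)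
      (-(1 / (2 * Real.sqrt (1 + ‖x‖ ^ 2))) / Real.sqrt (1 + ‖x‖ ^ 2) ^ 2) (1 + ‖x‖ ^ 2) :=
    (Real.hasDerivAt_sqrt h0).inv hs
  have h3 := h2.comp_hasFDerivAt x h1
  have h4 : fderiv ℝ prof x = (-(1 / (2 * Real.sqrt (1 + ‖x‖ ^ 2))) /
      Real.sqrt (1 + ‖x‖ ^ 2) ^ 2) • (2 • innerSL ℝ x) := h3.fderiv
  have h5 : ‖(2 • innerSL ℝ x : E3 →L[ℝ] ℝ)‖ = 2 * ‖x‖ := by
    rw [← Nat.cast_smul_eq_nsmul ℝ, norm_smul, innerSL_apply_norm]
    norm_num
  rw [h4, norm_smul, h5, mul_pow, Real.norm_eq_abs, sq_abs, Real.sq_sqrt (by positivity)]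
  rw [div_pow, neg_sq, div_pow, mul_pow, Real.sq_sqrt (by positivity)]
  field_simp

/-- The truncated profile. -/
def tprof (δ : ℝ) (x : E3) : ℝ := δ * trF (prof x / δ)

theorem contDiff_tprof (δ : ℝ) : ContDiff ℝ ((⊤ : ℕ∞) : WithTop ℕ∞) (tprof δ) :=
  contDiff_const.mul (contDiff_trF.comp (contDiff_prof.div_const δ))

theorem hcs_tprof {δ : ℝ} (hδ : 0 < δ) : HasCompactSupport (tprof δ) := by
  refine HasCompactSupport.intro (isCompact_closedBall (0 : E3) (1 / δ)) fun x hx => ?_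
  rw [mem_closedBall_zero_iff, not_le] at hx
  rw [tprof, trF_zero, mul_zero]
  rw [div_le_one hδ, prof]
  have h1 : 1 / δ ≤ Real.sqrt (1 + ‖x‖ ^ 2) := by
    refine Real.le_sqrt_of_sq_le ?_
    have : 0 < 1 / δ := by positivity
    nlinarith
  rw [inv_le_comm₀ (Real.sqrt_pos.2 (by positivity)) hδ, inv_eq_one_div]
  exact h1

theorem norm_fderiv_tprof {δ : ℝ} (hδ : 0 < δ) (x : E3) :
    ‖fderiv ℝ (tprof δ) x‖ ^ 2 ≤ ‖x‖ ^ 2 * ((1 + ‖x‖ ^ 2) ^ 3)⁻¹ := by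
  have h1 : HasFDerivAt prof (fderiv ℝ prof x) x :=
    (contDiff_prof.differentiable (by simp) x).hasFDerivAt
  have h2 : HasDerivAt (fun s : ℝ => δ * trF (s / δ))
      (δ * (Real.smoothTransition (prof x / δ - 1) * (1 / δ))) (prof x) := by
    have := ((hasDerivAt_trF (prof x / δ)).comp (prof x) ((hasDerivAt_id (prof x)).div_const δ))
    exact this.const_mul δ
  have h3 : fderiv ℝ (tprof δ) x =
      (δ * (Real.smoothTransition (prof x / δ - 1) * (1 / δ))) • fderiv ℝ prof x :=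
    (h2.comp_hasFDerivAt x h1).fderiv
  have h4 : δ * (Real.smoothTransition (prof x / δ - 1) * (1 / δ)) =
      Real.smoothTransition (prof x / δ - 1) := by field_simp
  rw [h3, h4, norm_smul, mul_pow, ← norm_fderiv_prof, Real.norm_eq_abs, sq_abs]
  refine mul_le_of_le_one_left (by positivity) ?_
  exact pow_le_one₀ (Real.smoothTransition.nonneg _) (Real.smoothTransition.le_one _)

theorem tprof_sq {δ : ℝ} (hδ : 0 < δ) (x : E3) :
    (1 + ‖x‖ ^ 2)⁻¹ - 4 * δ ≤ tprof δ x ^ 2 := by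
  rw [← prof_sq]
  have h1 : prof x - 2 * δ ≤ tprof δ x := by
    have := mul_le_mul_of_nonneg_left (trF_ge (prof x / δ)) hδ.le
    have e : δ * (prof x / δ - 2) = prof x - 2 * δ := by field_simp
    rw [e] at this
    exact this
  have h2 := prof_le_one x
  have h3 := prof_pos x
  by_cases h : 2 * δ ≤ prof x
  · have h4 : (prof x - 2 * δ) ^ 2 ≤ tprof δ x ^ 2 := pow_le_pow_left₀ (by linarith) h1 2
    nlinarith
  · rw [not_le] at h
    have : 0 ≤ tprof δ x ^ 2 := sq_nonneg _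
    nlinarith

/-! ### The constant -/

theorem three_rpow : (3 : ℝ) ^ ((3 : ℝ) / 2) = 3 * Real.sqrt 3 := by
  rw [show ((3 : ℝ) / 2) = 1 + 1 / 2 by norm_num, Real.rpow_add (by norm_num), Real.rpow_one,
    Real.sqrt_eq_rpow]

theorem exists_eps (r : ℝ) (hr : r < 4 / (3 * Real.sqrt 3 * Real.pi ^ 2)) :
    ∃ ε : ℝ, 0 < ε ∧ r < 1 / ((3 * (1 + ε)) ^ ((3 : ℝ) / 2) * (Real.pi ^ 2 / 4)) := by
  have h1 : ContinuousAt (fun ε : ℝ => 1 / ((3 * (1 + ε)) ^ ((3 : ℝ) / 2) * (Real.pi ^ 2 / 4)))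
      0 := by
    refine ContinuousAt.div continuousAt_const (ContinuousAt.mul ?_ continuousAt_const) ?_
    · exact ContinuousAt.rpow_const (by fun_prop) (Or.inl (by norm_num))
    · have : 0 < (3 * (1 + (0 : ℝ))) ^ ((3 : ℝ) / 2) := by positivity
      have := Real.pi_pos
      positivity
  have h2 : (fun ε : ℝ => 1 / ((3 * (1 + ε)) ^ ((3 : ℝ) / 2) * (Real.pi ^ 2 / 4))) 0 =
      4 / (3 * Real.sqrt 3 * Real.pi ^ 2) := by
    simp only [add_zero, mul_one]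
    rw [three_rpow]
    have := Real.pi_pos
    field_simp
  have h3 : ∀ᶠ ε in 𝓝 (0 : ℝ), r < 1 / ((3 * (1 + ε)) ^ ((3 : ℝ) / 2) * (Real.pi ^ 2 / 4)) :=
    h1.eventually (lt_mem_nhds (by rw [h2]; exact hr))
  have h4 : ∀ᶠ ε in 𝓝[>] (0 : ℝ), 0 < ε := eventually_mem_nhdsWithin
  obtain ⟨ε, h5, h6⟩ := ((h3.filter_mono nhdsWithin_le_nhds).and h4).exists
  exact ⟨ε, h6, h5⟩

/-- The constant cannot be lowered, already for one bound state. -/
theorem radial_sharp (r : ℝ) (hr : r < 4 / (3 * Real.sqrt 3 * Real.pi ^ 2)) :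
    ∃ (w : ℝ → ℝ) (S : Submodule ℝ (E3 → ℝ)),
      Measurable w ∧ (∀ ρ, 0 ≤ w ρ) ∧
      Integrable (fun x : E3 => w ‖x‖ ^ ((3 : ℝ) / 2)) ∧
      0 < ∫ x : E3, w ‖x‖ ^ ((3 : ℝ) / 2) ∧
      FiniteDimensional ℝ S ∧
      (∀ u ∈ S, ContDiff ℝ ((⊤ : ℕ∞) : WithTop ℕ∞) u ∧ HasCompactSupport u) ∧
      (∀ u ∈ S, u ≠ 0 → ∫ x, ‖fderiv ℝ u x‖ ^ 2 < ∫ x, w ‖x‖ * u x ^ 2) ∧
      r < (Module.finrank ℝ S : ℝ) / ∫ x : E3, w ‖x‖ ^ ((3 : ℝ) / 2) := by
  obtain ⟨ε, hε, hr'⟩ := exists_eps r hr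
  have hpi := Real.pi_pos
  set a : ℝ := ∫ x : E3, ((1 + ‖x‖ ^ 2) ^ 2)⁻¹ with ha
  have ha0 : 0 ≤ a := integral_nonneg fun x => by positivity
  obtain ⟨δ, hδ, hδa⟩ : ∃ δ : ℝ, 0 < δ ∧ (1 + ε) * (4 * δ * a) < ε * (Real.pi ^ 2 / 4) := by
    refine ⟨ε * Real.pi ^ 2 / (32 * (1 + ε) * (a + 1)), by positivity, ?_⟩
    have e : (1 + ε) * (4 * (ε * Real.pi ^ 2 / (32 * (1 + ε) * (a + 1))) * a) =
        ε * (Real.pi ^ 2 / 4) * (a / (a + 1) / 2) := by
      field_simp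
      ring
    rw [e]
    have h1 : a / (a + 1) / 2 < 1 := by
      rw [div_div, div_lt_one (by positivity)]
      linarith
    have h2 : 0 < ε * (Real.pi ^ 2 / 4) := by positivity
    nlinarith
  let w : ℝ → ℝ := fun ρ => 3 * (1 + ε) * ((1 + ρ ^ 2) ^ 2)⁻¹
  have hw0 : ∀ ρ, 0 ≤ w ρ := fun ρ => by positivity
  have hwm : Continuous w := by
    refine continuous_const.mul (Continuous.inv₀ (by fun_prop) fun ρ => by positivity)
  have hwr : ∀ x : E3, w ‖x‖ ^ ((3 : ℝ) / 2) =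
      (3 * (1 + ε)) ^ ((3 : ℝ) / 2) * ((1 + ‖x‖ ^ 2) ^ 3)⁻¹ := by
    intro x
    have h0 : (0 : ℝ) ≤ 1 + ‖x‖ ^ 2 := by positivity
    change (3 * (1 + ε) * ((1 + ‖x‖ ^ 2) ^ 2)⁻¹) ^ ((3 : ℝ) / 2) = _
    rw [Real.mul_rpow (by positivity) (by positivity), Real.inv_rpow (by positivity)]
    congr 2
    generalize 1 + ‖x‖ ^ 2 = z at h0
    rw [← Real.rpow_natCast z 2, ← Real.rpow_natCast z 3, ← Real.rpow_mul h0]
    norm_num
  have hu := contDiff_tprof δ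
  have hcs := hcs_tprof hδ
  set u : E3 → ℝ := tprof δ with hudef
  have hI : ∫ x : E3, w ‖x‖ ^ ((3 : ℝ) / 2) = (3 * (1 + ε)) ^ ((3 : ℝ) / 2) * (Real.pi ^ 2 / 4) := by
    simp only [hwr]
    rw [integral_const_mul, int_bSh.2]
  have hkin : ∫ x, ‖fderiv ℝ u x‖ ^ 2 ≤ 3 * Real.pi ^ 2 / 4 := by
    rw [← int_c.2]
    refine integral_mono_of_nonneg (Eventually.of_forall fun x => by positivity) int_c.1
      (Eventually.of_forall fun x => norm_fderiv_tprof hδ x)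
  have hcontu : Continuous u := hu.continuous
  have hpotint : Integrable fun x : E3 => w ‖x‖ * u x ^ 2 := by
    refine Continuous.integrable_of_hasCompactSupport ?_ ?_
    · exact (hwm.comp continuous_norm).mul (hcontu.pow 2)
    · refine HasCompactSupport.mul_left ?_
      exact hcs.comp_left (g := fun t : ℝ => t ^ 2) (by norm_num)
  have hpot : 3 * (1 + ε) * (Real.pi ^ 2 / 4 - 4 * δ * a) ≤ ∫ x, w ‖x‖ * u x ^ 2 := by
    have h1 : 3 * (1 + ε) * (Real.pi ^ 2 / 4 - 4 * δ * a) =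
        ∫ x : E3, 3 * (1 + ε) * (((1 + ‖x‖ ^ 2) ^ 3)⁻¹ - 4 * δ * ((1 + ‖x‖ ^ 2) ^ 2)⁻¹) := by
      rw [integral_const_mul, integral_sub int_bSh.1 (int_a.const_mul _), int_bSh.2,
        integral_const_mul]
    rw [h1]
    refine integral_mono ((int_bSh.1.sub (int_a.const_mul _)).const_mul _) hpotint fun x => ?_
    have h2 := tprof_sq hδ x
    have h3 : (0 : ℝ) ≤ ((1 + ‖x‖ ^ 2) ^ 2)⁻¹ := by positivity
    have h4 := mul_le_mul_of_nonneg_left h2 h3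
    have h5 : ((1 + ‖x‖ ^ 2) ^ 3)⁻¹ = ((1 + ‖x‖ ^ 2) ^ 2)⁻¹ * (1 + ‖x‖ ^ 2)⁻¹ := by
      rw [← mul_inv, ← pow_succ]
    have h6 : w ‖x‖ * u x ^ 2 = 3 * (1 + ε) * (((1 + ‖x‖ ^ 2) ^ 2)⁻¹ * tprof δ x ^ 2) := by
      change 3 * (1 + ε) * ((1 + ‖x‖ ^ 2) ^ 2)⁻¹ * tprof δ x ^ 2 = _
      ring
    rw [h6]
    refine mul_le_mul_of_nonneg_left ?_ (by positivity)
    rw [h5]
    linarith
  have hstrict : ∫ x, ‖fderiv ℝ u x‖ ^ 2 < ∫ x, w ‖x‖ * u x ^ 2 := by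
    refine lt_of_le_of_lt hkin (lt_of_lt_of_le ?_ hpot)
    nlinarith
  have hune : u ≠ 0 := by
    intro h0
    rw [h0] at hstrict
    simp at hstrict
  refine ⟨w, Submodule.span ℝ {u}, hwm.measurable, hw0, ?_, ?_, inferInstance, ?_, ?_, ?_⟩
  · simp only [hwr]
    exact int_bSh.1.const_mul _
  · rw [hI]
    have : 0 < (3 * (1 + ε)) ^ ((3 : ℝ) / 2) := by positivity
    positivity
  · intro v hv
    obtain ⟨c, rfl⟩ := Submodule.mem_span_singleton.1 hv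
    refine ⟨contDiff_const.smul hu, ?_⟩
    exact HasCompactSupport.smul_left (f := fun _ : E3 => c) hcs
  · intro v hv hv0
    obtain ⟨c, rfl⟩ := Submodule.mem_span_singleton.1 hv
    have hc : c ≠ 0 := by
      rintro rfl
      exact hv0 (zero_smul _ _)
    have h1 : ∀ x, ‖fderiv ℝ (c • u) x‖ ^ 2 = c ^ 2 * ‖fderiv ℝ u x‖ ^ 2 := by
      intro x
      rw [fderiv_const_smul (hu.differentiable (by simp) x), norm_smul, mul_pow,
        Real.norm_eq_abs, sq_abs]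
    have h2 : ∀ x : E3, w ‖x‖ * (c • u) x ^ 2 = c ^ 2 * (w ‖x‖ * u x ^ 2) := by
      intro x
      simp only [Pi.smul_apply, smul_eq_mul]
      ring
    simp only [h1, h2]
    rw [integral_const_mul, integral_const_mul]
    exact mul_lt_mul_of_pos_left hstrict (by positivity)
  · rw [finrank_span_singleton hune, hI]
    simpa using hr'

end

end Pool.Agent.CLR3
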