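import Pool.Agent.CLR3.Greedy
import Pool.Agent.CLR3.Angular
import Pool.Agent.CLR3.Cell
import Pool.Agent.CLR3.Polar
import Pool.Agent.CLR3.Sharp

/-! The Cwikel-Lieb-Rozenblum inequality for radial potentials in dimension three, with the
sharp constant `L^(1)_{0,3} = 4 / (3 sqrt 3 pi^2)`, and the values of the constants. -/

open MeasureTheory Set

namespace Pool.Agent.CLR3

theorem radial_clr (w : ℝ → ℝ) (hw : Measurable w) (hw0 : ∀ r, 0 ≤ w r)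
    (hint : Integrable (fun x : E3 => w ‖x‖ ^ ((3 : ℝ) / 2)))
    (S : Submodule ℝ (E3 → ℝ)) [FiniteDimensional ℝ S]
    (hS : ∀ u ∈ S, ContDiff ℝ ((⊤ : ℕ∞) : WithTop ℕ∞) u ∧ HasCompactSupport u)
    (hneg : ∀ u ∈ S, u ≠ 0 → ∫ x, ‖fderiv ℝ u x‖ ^ 2 < ∫ x, w ‖x‖ * u x ^ 2) :
    (Module.finrank ℝ S : ℝ) ≤
      4 / (3 * Real.sqrt 3 * Real.pi ^ 2) * ∫ x : E3, w ‖x‖ ^ ((3 : ℝ) / 2) := by
  obtain ⟨hm, h0, hi, he⟩ := pot_polar w hw hw0 hint
  obtain ⟨N, hN, hle⟩ := oneD (logPot w) hm h0 hi (Cod (logPot w) S)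
    (fun A A' F G hA hA' hd h1 h2 => Cell.union_of (logPot w) hm h0 hi S hS A A' F G hA' hd h1 h2)
    (fun A J hA hα hβ => Cell.cell_of (logPot w) hm h0 hi S hS A J (angular J) hα hβ)
  have hfr : Module.finrank ℝ S ≤ N := by
    by_contra hcon
    push Not at hcon
    obtain ⟨Λ, hΛ⟩ := hN
    have hker : LinearMap.ker Λ ≠ ⊥ := by
      intro hbot
      have hinj : Function.Injective Λ := LinearMap.ker_eq_bot.1 hbot
      have := LinearMap.finrank_le_finrank_of_injective hinj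
      rw [Module.finrank_fin_fun] at this
      exact (not_le.2 hcon) this
    obtain ⟨u, hu, hu0⟩ := (Submodule.ne_bot_iff _).1 hker
    have h1 := hΛ u (LinearMap.mem_ker.1 hu)
    rw [← form_polar w hw hw0 hint u (hS u u.2).1 (hS u u.2).2] at h1
    have h2 := hneg u u.2 (fun h => hu0 (Subtype.ext h))
    linarith
  calc (Module.finrank ℝ S : ℝ) ≤ N := by exact_mod_cast hfr
    _ ≤ _ := hle
    _ = _ := by
      rw [he]
      have : Real.pi ≠ 0 := Real.pi_ne_zero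
      have h3 : Real.sqrt 3 ≠ 0 := by positivity
      field_simp
      ring

/-- `L^cl_{0,3} * a_0`. -/
lemma const_value : (4 * Real.pi) ^ (-(3 : ℝ) / 2) / Real.Gamma (1 + (3 : ℝ) / 2) *
    (8 / Real.sqrt 3) = 4 / (3 * Real.sqrt 3 * Real.pi ^ 2) := by
  have hpi := Real.pi_pos
  have hsp : 0 < Real.sqrt Real.pi := Real.sqrt_pos.2 hpi
  have hsp2 : Real.sqrt Real.pi ^ 2 = Real.pi := Real.sq_sqrt hpi.le
  have hG : Real.Gamma (1 + (3 : ℝ) / 2) = 3 / 4 * Real.sqrt Real.pi := by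
    have e1 : (1 + (3 : ℝ) / 2) = (1 / 2 + 1) + 1 := by norm_num
    rw [e1, Real.Gamma_add_one (by norm_num), Real.Gamma_add_one (by norm_num),
      Real.Gamma_one_half_eq]
    ring
  have hP : (4 * Real.pi) ^ (-(3 : ℝ) / 2) = 1 / (8 * (Real.sqrt Real.pi) ^ 3) := by
    have h4 : (0 : ℝ) ≤ 4 * Real.pi := by positivity
    have e2 : (-(3 : ℝ) / 2) = -((3 : ℝ) / 2) := by ring
    rw [e2, Real.rpow_neg h4]
    have e3 : (4 * Real.pi) ^ ((3 : ℝ) / 2) = (Real.sqrt (4 * Real.pi)) ^ 3 := by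
      rw [Real.sqrt_eq_rpow, ← Real.rpow_natCast, ← Real.rpow_mul h4]
      norm_num
    rw [e3, Real.sqrt_mul (by norm_num), show Real.sqrt 4 = 2 by
      rw [show (4 : ℝ) = 2 ^ 2 by norm_num]; exact Real.sqrt_sq (by norm_num)]
    rw [mul_pow]
    norm_num
  rw [hG, hP]
  have e4 : Real.pi ^ 2 = Real.sqrt Real.pi ^ 4 := by rw [← hsp2]; ring_nf; rw [hsp2]
  rw [e4]
  field_simp

/-- The supremum of the numbers `a_L` in dimension three is `a_0 = 8 / sqrt 3`. -/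
lemma aL_sup : IsLUB (Set.range (fun L : ℕ =>
        ((Nat.factorial (L + 3 - 1) : ℝ) / (Nat.factorial L : ℝ)) * ((L : ℝ) + (3 : ℝ) / 2) /
          (((L : ℝ) + ((3 : ℝ) - 2) / 2) * ((L : ℝ) + (3 : ℝ) / 2)) ^ ((3 : ℝ) / 2)))
    (8 / Real.sqrt 3) := by
  have h3 : 0 < Real.sqrt 3 := by positivity
  have h33 : Real.sqrt 3 ^ 2 = 3 := Real.sq_sqrt (by norm_num)
  have hfac : ∀ L : ℕ, ((Nat.factorial (L + 3 - 1) : ℝ) / (Nat.factorial L : ℝ)) =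
      ((L : ℝ) + 2) * ((L : ℝ) + 1) := by
    intro L
    have : L + 3 - 1 = (L + 1) + 1 := by omega
    rw [this, Nat.factorial_succ, Nat.factorial_succ]
    have hL : (Nat.factorial L : ℝ) ≠ 0 := by exact_mod_cast Nat.factorial_ne_zero L
    push_cast
    field_simp
    ring
  have hle : ∀ L : ℕ, ((Nat.factorial (L + 3 - 1) : ℝ) / (Nat.factorial L : ℝ)) *
      ((L : ℝ) + (3 : ℝ) / 2) /
          (((L : ℝ) + ((3 : ℝ) - 2) / 2) * ((L : ℝ) + (3 : ℝ) / 2)) ^ ((3 : ℝ) / 2) ≤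
      8 / Real.sqrt 3 := by
    intro L
    have hL : (0 : ℝ) ≤ L := Nat.cast_nonneg L
    rw [hfac]
    set x : ℝ := (L : ℝ) with hx
    have hy0 : 0 < (x + ((3 : ℝ) - 2) / 2) * (x + (3 : ℝ) / 2) := by
      apply mul_pos <;> linarith
    set y := (x + ((3 : ℝ) - 2) / 2) * (x + (3 : ℝ) / 2) with hy
    have e3 : y ^ ((3 : ℝ) / 2) = (Real.sqrt y) ^ 3 := by
      rw [Real.sqrt_eq_rpow, ← Real.rpow_natCast, ← Real.rpow_mul hy0.le]
      norm_num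
    have hsy : 0 < Real.sqrt y := Real.sqrt_pos.2 hy0
    rw [e3, div_le_div_iff₀ (by positivity) h3]
    refine abs_le_of_sq_le_sq ?_ (by positivity) |> fun h => le_trans (le_abs_self _) h
    have e5 : (Real.sqrt y ^ 3) ^ 2 = y ^ 3 := by
      rw [← pow_mul, mul_comm 3 2, pow_mul, Real.sq_sqrt hy0.le]
    rw [mul_pow _ (Real.sqrt 3), h33, mul_pow 8, e5, hy]
    have hkey : 64 * (x + 1 / 2) ^ 3 * (x + 3 / 2) - 3 * ((x + 2) ^ 2 * (x + 1) ^ 2) =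
        61 * x ^ 4 + 174 * x ^ 3 + 153 * x ^ 2 + 44 * x := by ring
    have hnn : 0 ≤ 61 * x ^ 4 + 174 * x ^ 3 + 153 * x ^ 2 + 44 * x := by positivity
    have hprod : 3 * ((x + 2) ^ 2 * (x + 1) ^ 2) ≤ 64 * (x + 1 / 2) ^ 3 * (x + 3 / 2) := by
      linarith
    have hmul := mul_le_mul_of_nonneg_right hprod (show 0 ≤ (x + 3 / 2) ^ 2 by positivity)
    have e6 : (64 * (x + 1 / 2) ^ 3 * (x + 3 / 2)) * (x + 3 / 2) ^ 2 =
        8 ^ 2 * ((x + ((3 : ℝ) - 2) / 2) * (x + (3 : ℝ) / 2)) ^ 3 := by ring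
    have e7 : 3 * ((x + 2) ^ 2 * (x + 1) ^ 2) * (x + 3 / 2) ^ 2 =
        ((x + 2) * (x + 1) * (x + 3 / 2)) ^ 2 * 3 := by ring
    rw [e6, e7] at hmul
    exact hmul
  have hzero : ((Nat.factorial (0 + 3 - 1) : ℝ) / (Nat.factorial 0 : ℝ)) *
      (((0 : ℕ) : ℝ) + (3 : ℝ) / 2) /
          ((((0 : ℕ) : ℝ) + ((3 : ℝ) - 2) / 2) * (((0 : ℕ) : ℝ) + (3 : ℝ) / 2)) ^ ((3 : ℝ) / 2) =
      8 / Real.sqrt 3 := by
    rw [hfac 0]
    have e3 : ((3 : ℝ) / 4) ^ ((3 : ℝ) / 2) = (Real.sqrt (3 / 4)) ^ 3 := by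
      rw [Real.sqrt_eq_rpow, ← Real.rpow_natCast, ← Real.rpow_mul (by norm_num)]
      norm_num
    have e4 : Real.sqrt (3 / 4) = Real.sqrt 3 / 2 := by
      rw [Real.sqrt_div (by norm_num), show Real.sqrt 4 = 2 by
        rw [show (4 : ℝ) = 2 ^ 2 by norm_num]; exact Real.sqrt_sq (by norm_num)]
    have e5 : ((((0 : ℕ) : ℝ) + ((3 : ℝ) - 2) / 2) * (((0 : ℕ) : ℝ) + (3 : ℝ) / 2)) = 3 / 4 := by
      norm_num
    rw [e5, e3, e4]
    have e6 : (Real.sqrt 3 / 2) ^ 3 = Real.sqrt 3 ^ 2 * Real.sqrt 3 / 8 := by ring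
    rw [e6, h33]
    push_cast
    field_simp
    ring
  refine ⟨?_, ?_⟩
  · rintro _ ⟨L, rfl⟩
    exact hle L
  · intro b hb
    rw [← hzero]
    exact hb ⟨0, rfl⟩

end Pool.Agent.CLR3
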